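import Pool.Agent.H974R2.Sym

/-!
The number of the components of a finite graph when an edge is added.
-/

set_option autoImplicit false

namespace Pool.Agent.U167.AL

open H974 Finset

/-- connection by edges of `F` between vertices of `B` -/
def stR (B : Finset Vtx) (F : Set Edg) : Setoid ↥B where
  r u v := Reach F u.1 v.1
  iseqv := ⟨fun _ => Reach.refl _ _, fun h => h.symm, fun h h' => h.trans h'⟩

/-- the number of the components -/
noncomputable def nc (B : Finset Vtx) (F : Finset Edg) : ℕ :=
  Nat.card (Quotient (stR B (↑F : Set Edg)))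

/-- merging two classes -/
theorem card_merge {X : Type*} [Finite X] (s s' : Setoid X) (a b : X) (hab : ¬ s.r a b)
    (h : ∀ x y, s'.r x y ↔ s.r x y ∨ (s.r x a ∧ s.r b y) ∨ (s.r x b ∧ s.r a y)) :
    Nat.card (Quotient s') + 1 = Nat.card (Quotient s) := by
  classical
  have hle : ∀ x y, s.r x y → s'.r x y := fun x y hxy => (h x y).2 (Or.inl hxy)
  let f : {q : Quotient s // q ≠ Quotient.mk s b} → Quotient s' := fun q =>
    Quotient.map' (s₁ := s) (s₂ := s') id hle q.1
  have hf : Function.Bijective f := by
    constructor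
    · rintro ⟨q1, h1⟩ ⟨q2, h2⟩ h12
      induction q1 using Quotient.inductionOn with
      | h x =>
        induction q2 using Quotient.inductionOn with
        | h y =>
          have hx : ¬ s.r x b := fun hc => h1 (Quotient.sound hc)
          have hy : ¬ s.r y b := fun hc => h2 (Quotient.sound hc)
          have h3 : s'.r x y := Quotient.exact h12
          apply Subtype.ext
          rcases (h x y).1 h3 with h4 | ⟨_, h4⟩ | ⟨h4, _⟩
          · exact Quotient.sound h4
          · exact absurd (s.iseqv.symm h4) hy
          · exact absurd h4 hx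
    · intro q
      induction q using Quotient.inductionOn with
      | h z =>
        by_cases hz : s.r z b
        · refine ⟨⟨Quotient.mk s a, fun hc => hab (Quotient.exact hc)⟩, ?_⟩
          apply Quotient.sound
          show s'.r a z
          exact (h a z).2 (Or.inr (Or.inl ⟨s.iseqv.refl a, s.iseqv.symm hz⟩))
        · exact ⟨⟨Quotient.mk s z, fun hc => hz (Quotient.exact hc)⟩, rfl⟩
  have h1 := Nat.card_eq_of_bijective f hf
  rw [← h1]
  have h2 : Nat.card {q : Quotient s // q ≠ Quotient.mk s b} + 1 = Nat.card (Quotient s) := by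
    have : Fintype (Quotient s) := Fintype.ofFinite _
    rw [Nat.card_eq_fintype_card, Nat.card_eq_fintype_card, Fintype.card_subtype_compl,
      Fintype.card_subtype_eq]
    have : 0 < Fintype.card (Quotient s) := Fintype.card_pos_iff.2 ⟨Quotient.mk s b⟩
    omega
  exact h2

theorem reach_insert_iff {e : Edg} {F : Set Edg} {u v : Vtx} :
    Reach (insert e F) u v ↔ Reach F u v ∨ (Reach F u (src e) ∧ Reach F (tgt e) v) ∨
      (Reach F u (tgt e) ∧ Reach F (src e) v) := by
  constructor
  · intro h
    induction h with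
    | refl => exact Or.inl (Reach.refl _ _)
    | @tail w w' _ hs ih =>
      obtain ⟨g, hg, hc⟩ := hs
      rcases hg with hge | hg
      · subst hge
        rcases hc with ⟨h1, h2⟩ | ⟨h1, h2⟩
        · subst h1; subst h2
          rcases ih with ih | ⟨ih, _⟩ | ⟨ih, _⟩
          · exact Or.inr (Or.inl ⟨ih, Reach.refl _ _⟩)
          · exact Or.inr (Or.inl ⟨ih, Reach.refl _ _⟩)
          · exact Or.inl ih
        · subst h1; subst h2
          rcases ih with ih | ⟨ih, _⟩ | ⟨ih, _⟩
          · exact Or.inr (Or.inr ⟨ih, Reach.refl _ _⟩)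
          · exact Or.inl ih
          · exact Or.inr (Or.inr ⟨ih, Reach.refl _ _⟩)
      · have hr : Reach F w w' := Adj.reach ⟨g, hg, hc⟩
        rcases ih with ih | ⟨ih, ih2⟩ | ⟨ih, ih2⟩
        · exact Or.inl (ih.trans hr)
        · exact Or.inr (Or.inl ⟨ih, ih2.trans hr⟩)
        · exact Or.inr (Or.inr ⟨ih, ih2.trans hr⟩)
  · have hm : F ⊆ insert e F := Set.subset_insert _ _
    have he : Reach (insert e F) (src e) (tgt e) :=
      Adj.reach ⟨e, Set.mem_insert _ _, Or.inl ⟨rfl, rfl⟩⟩
    rintro (h | ⟨h1, h2⟩ | ⟨h1, h2⟩)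
    · exact h.mono hm
    · exact (h1.mono hm).trans (he.trans (h2.mono hm))
    · exact (h1.mono hm).trans (he.symm.trans (h2.mono hm))

/-- adding an edge -/
theorem nc_insert {B : Finset Vtx} {F : Finset Edg} {e : Edg} (h1 : src e ∈ B) (h2 : tgt e ∈ B) :
    (nc B (insert e F) : ℝ) - nc B F = - ind (¬ Reach (↑F : Set Edg) (src e) (tgt e)) := by
  by_cases h : Reach (↑F : Set Edg) (src e) (tgt e)
  · rw [ind_not_of (not_not_intro h)]
    have h3 : stR B (↑(insert e F) : Set Edg) = stR B (↑F : Set Edg) := by
      apply Setoid.ext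
      intro u v
      show Reach (↑(insert e F) : Set Edg) u.1 v.1 ↔ Reach (↑F : Set Edg) u.1 v.1
      rw [Finset.coe_insert, reach_insert_iff]
      constructor
      · rintro (k | ⟨k1, k2⟩ | ⟨k1, k2⟩)
        · exact k
        · exact k1.trans (h.trans k2)
        · exact k1.trans (h.symm.trans k2)
      · exact Or.inl
    unfold nc
    rw [h3]
    ring
  · rw [ind_of h]
    have h3 := card_merge (stR B (↑F : Set Edg)) (stR B (↑(insert e F) : Set Edg))
      ⟨src e, h1⟩ ⟨tgt e, h2⟩ h (by
        intro u v
        show Reach (↑(insert e F) : Set Edg) u.1 v.1 ↔ _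
        rw [Finset.coe_insert, reach_insert_iff]
        rfl)
    unfold nc
    have h4 : ((Nat.card (Quotient (stR B (↑(insert e F) : Set Edg))) : ℕ) : ℝ) + 1 =
        (Nat.card (Quotient (stR B (↑F : Set Edg))) : ℕ) := by exact_mod_cast h3
    linarith

theorem nc_empty (B : Finset Vtx) : nc B ∅ = B.card := by
  have h : ∀ u v : ↥B, (stR B (↑(∅ : Finset Edg) : Set Edg)).r u v ↔ u = v := by
    intro u v
    constructor
    · intro h
      have h1 : Reach (↑(∅ : Finset Edg) : Set Edg) u.1 v.1 := h
      have h2 : ∀ x y : Vtx, Reach (↑(∅ : Finset Edg) : Set Edg) x y → x = y := by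
        intro x y hxy
        induction hxy with
        | refl => rfl
        | tail _ hs _ =>
          obtain ⟨e, he, -⟩ := hs
          exact absurd he (by simp)
      exact Subtype.ext (h2 _ _ h1)
    · rintro rfl
      exact Reach.refl _ _
  unfold nc
  have h1 : Function.Bijective (Quotient.mk (stR B (↑(∅ : Finset Edg) : Set Edg))) := by
    constructor
    · intro u v huv
      exact (h u v).1 (Quotient.exact huv)
    · exact Quotient.mk_surjective
  rw [← Nat.card_eq_of_bijective _ h1]
  simp

end Pool.Agent.U167.AL
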