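import Pool.Agent.U167.AL.QB
import Pool.Agent.W424.NC.NearC

/-!
The linear coefficients of the expansion, and the effect of a change of the parameters outside a
box.
-/

set_option autoImplicit false
set_option maxHeartbeats 1000000

namespace Pool.Agent.U167.AL

open H974 H12S Finset Pool.Agent.Y554.SN Pool.Agent.Y554.NE
open Pool.Agent.Y239.NE.Dec (okh ds_tri mem_blk_pos)
open Pool.Agent.Y239.NE.Out (blk_sub mem_blk_of ds_le_dm)
open Pool.Agent.Y968.NE (ds_comm ds_zero ds_self)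

/-- a geometric sum -/
theorem geo2 (J0 k : ℕ) : ∑ j ∈ Finset.Ico J0 (J0 + k), (((2 : ℕ) ^ j : ℕ) : ℝ) ^ (-(1 / 2) : ℝ) ≤
    5 * (((2 : ℕ) ^ J0 : ℕ) : ℝ) ^ (-(1 / 2) : ℝ) -
      4 * (((2 : ℕ) ^ (J0 + k) : ℕ) : ℝ) ^ (-(1 / 2) : ℝ) := by
  have hρ : (4 / 3 : ℝ) ≤ (2 : ℝ) ^ (1 / 2 : ℝ) := by
    have h1 : (4 / 3 : ℝ) = ((4 / 3 : ℝ) ^ (2 : ℝ)) ^ (1 / 2 : ℝ) := by
      rw [← Real.rpow_mul (by norm_num)]
      norm_num
    rw [h1]
    refine Real.rpow_le_rpow (by positivity) ?_ (by norm_num)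
    norm_num
  induction k with
  | zero =>
    simp only [add_zero, Finset.Ico_self, Finset.sum_empty]
    have : 0 ≤ (((2 : ℕ) ^ J0 : ℕ) : ℝ) ^ (-(1 / 2) : ℝ) := by positivity
    linarith
  | succ k ih =>
    rw [← add_assoc, Finset.sum_Ico_succ_top (by omega)]
    have h3 : (((2 : ℕ) ^ (J0 + k) : ℕ) : ℝ) ^ (-(1 / 2) : ℝ) =
        (((2 : ℕ) ^ (J0 + k + 1) : ℕ) : ℝ) ^ (-(1 / 2) : ℝ) * (2 : ℝ) ^ (1 / 2 : ℝ) := by
      have e : (((2 : ℕ) ^ (J0 + k + 1) : ℕ) : ℝ) = (((2 : ℕ) ^ (J0 + k) : ℕ) : ℝ) * 2 := by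
        push_cast
        ring
      rw [e, Real.mul_rpow (by positivity) (by norm_num), mul_assoc,
        ← Real.rpow_add (by norm_num : (0:ℝ) < 2)]
      norm_num
    have h4 : 0 ≤ (((2 : ℕ) ^ (J0 + k + 1) : ℕ) : ℝ) ^ (-(1 / 2) : ℝ) := by positivity
    have h5 : 4 / 3 * (((2 : ℕ) ^ (J0 + k + 1) : ℕ) : ℝ) ^ (-(1 / 2) : ℝ) ≤
        (((2 : ℕ) ^ (J0 + k) : ℕ) : ℝ) ^ (-(1 / 2) : ℝ) := by
      rw [h3, mul_comm (4 / 3 : ℝ)]
      exact mul_le_mul_of_nonneg_left hρ h4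
    linarith

/-- the sum of the two-edge bounds over the edges far from the origin -/
theorem far_sum {n m : ℕ} (hn : 1 ≤ n) :
    ∑ s ∈ boxE m \ boxE n, (ps (ds s eo)) ^ 2 ≤ 500 * (n:ℝ) ^ (-(1 / 2) : ℝ) := by
  classical
  set W := boxE m \ boxE n with hW
  obtain ⟨J0, hJ0⟩ : ∃ J0, J0 = Nat.log 2 n := ⟨_, rfl⟩
  have hWn : ∀ s ∈ W, n ≤ ds s eo ∧ ds s eo ≤ m := by
    intro s hs
    rw [hW, mem_sdiff] at hs
    obtain ⟨h1, h2⟩ := hs
    obtain ⟨x, y, _ | _⟩ := s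
    · unfold boxE at h1 h2
      rw [mem_RE_false] at h1 h2
      unfold ds eo
      simp only
      omega
    · unfold boxE at h1 h2
      rw [mem_RE_true] at h1 h2
      unfold ds eo
      simp only
      omega
  have hmaps : ∀ s ∈ W, Nat.log 2 (ds s eo) ∈ Finset.Ico J0 (J0 + (Nat.log 2 m + 1)) := by
    intro s hs
    obtain ⟨h1, h2⟩ := hWn s hs
    rw [Finset.mem_Ico]
    have h3 : Nat.log 2 n ≤ Nat.log 2 (ds s eo) := Nat.log_mono_right h1
    have h4 : Nat.log 2 (ds s eo) ≤ Nat.log 2 m := Nat.log_mono_right h2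
    omega
  rw [← sum_fiberwise_of_maps_to hmaps]
  have hone : ∀ j ∈ Finset.Ico J0 (J0 + (Nat.log 2 m + 1)),
      ∑ s ∈ W.filter (fun s => Nat.log 2 (ds s eo) = j), (ps (ds s eo)) ^ 2 ≤
        50 * (((2 : ℕ) ^ j : ℕ) : ℝ) ^ (-(1 / 2) : ℝ) := by
    intro j _
    set D := 2 ^ j with hDdef
    have hD : 1 ≤ D := Nat.one_le_two_pow
    have hD0 : (0 : ℝ) < D := by exact_mod_cast hD
    have hGp : ∀ y ∈ W.filter (fun s => Nat.log 2 (ds s eo) = j),
        ds y eo ≤ 2 * D ∧ D ≤ ds y eo := by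
      intro y hy
      rw [mem_filter] at hy
      obtain ⟨h1, h3⟩ := hy
      have h0 := (hWn y h1).1
      have h4 : ds y eo < 2 ^ (j + 1) := by
        rw [← h3]
        exact Nat.lt_pow_succ_log_self (by norm_num) _
      have h5 : D ≤ ds y eo := by
        rw [hDdef, ← h3]
        exact Nat.pow_log_le_self 2 (by omega)
      have h6 : 2 ^ (j + 1) = 2 * D := by rw [hDdef]; ring
      exact ⟨by omega, h5⟩
    have hbd : ∀ y ∈ W.filter (fun s => Nat.log 2 (ds s eo) = j), (ps (ds y eo)) ^ 2 ≤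
        (D : ℝ) ^ (-(5 / 2) : ℝ) := by
      intro y hy
      have h1 : ps (ds y eo) ≤ (D : ℝ) ^ (-(5 / 4) : ℝ) := by
        refine (ps_anti (hGp y hy).2).trans (le_of_eq ?_)
        unfold ps
        rw [max_eq_right hD]
      calc (ps (ds y eo)) ^ 2 ≤ ((D : ℝ) ^ (-(5 / 4) : ℝ)) ^ 2 :=
            pow_le_pow_left₀ (ps_pos _).le h1 2
        _ = (D : ℝ) ^ (-(5 / 2) : ℝ) := by
            rw [← Real.rpow_natCast, ← Real.rpow_mul hD0.le]
            norm_num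
    have hcard := card_ds (W.filter (fun s => Nat.log 2 (ds s eo) = j)) eo hD
      (fun y hy => (hGp y hy).1)
    calc ∑ y ∈ W.filter (fun s => Nat.log 2 (ds s eo) = j), (ps (ds y eo)) ^ 2 ≤
          ∑ y ∈ W.filter (fun s => Nat.log 2 (ds s eo) = j), (D : ℝ) ^ (-(5 / 2) : ℝ) :=
          sum_le_sum hbd
      _ = (W.filter (fun s => Nat.log 2 (ds s eo) = j)).card * (D : ℝ) ^ (-(5 / 2) : ℝ) := by
          rw [sum_const, nsmul_eq_mul]
      _ ≤ (50 * (D:ℝ) ^ 2) * (D : ℝ) ^ (-(5 / 2) : ℝ) :=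
          mul_le_mul_of_nonneg_right hcard (by positivity)
      _ = 50 * (D : ℝ) ^ (-(1 / 2) : ℝ) := by
          rw [mul_assoc, ← Real.rpow_natCast (D:ℝ) 2, ← Real.rpow_add hD0]
          norm_num
  refine (sum_le_sum hone).trans ?_
  rw [← mul_sum]
  have h1 := geo2 J0 (Nat.log 2 m + 1)
  have h2 : 0 ≤ (((2 : ℕ) ^ (J0 + (Nat.log 2 m + 1)) : ℕ) : ℝ) ^ (-(1 / 2) : ℝ) := by positivity
  have h3 : (((2 : ℕ) ^ J0 : ℕ) : ℝ) ^ (-(1 / 2) : ℝ) ≤ 2 * (n:ℝ) ^ (-(1 / 2) : ℝ) := by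
    have hn0 : (0:ℝ) < n := by exact_mod_cast hn
    have h4 : n < 2 ^ (J0 + 1) := by
      rw [hJ0]
      exact Nat.lt_pow_succ_log_self (by norm_num) _
    have h5 : (n:ℝ) / 2 ≤ (((2 : ℕ) ^ J0 : ℕ) : ℝ) := by
      have : (n:ℝ) < (((2 : ℕ) ^ (J0 + 1) : ℕ) : ℝ) := by exact_mod_cast h4
      push_cast at this ⊢
      rw [pow_succ] at this
      linarith
    calc (((2 : ℕ) ^ J0 : ℕ) : ℝ) ^ (-(1 / 2) : ℝ) ≤ ((n:ℝ) / 2) ^ (-(1 / 2) : ℝ) :=
          Real.rpow_le_rpow_of_nonpos (by positivity) h5 (by norm_num)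
      _ = (2:ℝ) ^ (1 / 2 : ℝ) * (n:ℝ) ^ (-(1 / 2) : ℝ) := by
          rw [Real.div_rpow hn0.le (by norm_num), Real.rpow_neg (by norm_num : (0:ℝ) ≤ 2),
            div_inv_eq_mul, mul_comm]
      _ ≤ 2 * (n:ℝ) ^ (-(1 / 2) : ℝ) := by
          apply mul_le_mul_of_nonneg_right _ (by positivity)
          calc (2:ℝ) ^ (1 / 2 : ℝ) ≤ (2:ℝ) ^ (1:ℝ) :=
                Real.rpow_le_rpow_of_exponent_le (by norm_num) (by norm_num)
            _ = 2 := Real.rpow_one 2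
  linarith

/-- differences of the sums of the linear coefficients -/
theorem dbound : ∃ C : ℝ, 1 ≤ C ∧ ∀ M m n : ℕ, 1 ≤ n → n ≤ m → 2 * m ≤ M →
    |cD M m - cD M n| ≤ C * (n:ℝ) ^ (-(1 / 2) : ℝ) := by
  classical
  obtain ⟨C, hC, h⟩ := cf_bound
  refine ⟨500 * C, by linarith, ?_⟩
  intro M m n hn hnm hM
  have hsub : boxE n ⊆ boxE m := boxE_mono hnm
  have e : cD M m - cD M n = ∑ s ∈ boxE m \ boxE n, cf (boxE M) fA s := by
    unfold cD
    rw [← sum_sdiff hsub]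
    ring
  rw [e]
  refine (abs_sum_le_sum_abs _ _).trans ?_
  calc ∑ s ∈ boxE m \ boxE n, |cf (boxE M) fA s| ≤
        ∑ s ∈ boxE m \ boxE n, C * (ps (ds s eo)) ^ 2 := by
        apply sum_le_sum
        intro s hs
        exact h M m s (by omega) hM (mem_sdiff.1 hs).1
    _ = C * ∑ s ∈ boxE m \ boxE n, (ps (ds s eo)) ^ 2 := by rw [mul_sum]
    _ ≤ C * (500 * (n:ℝ) ^ (-(1 / 2) : ℝ)) :=
        mul_le_mul_of_nonneg_left (far_sum hn) (by linarith)
    _ = _ := by ring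

/-- a path stays in a box or visits its boundary -/
theorem stay_or {G : Set Edg} {a b c d : ℤ} {u v : Vtx} (hu : inR a b c d u) (h : Reach G u v) :
    (inR a b c d v ∧ Reach (G ∩ ↑(RE a b c d)) u v) ∨
      ∃ w ∈ bdR a b c d, Reach (G ∩ ↑(RE a b c d)) u w := by
  induction h with
  | refl => exact Or.inl ⟨hu, Reach.refl _ _⟩
  | @tail x y _ hs ih =>
    rcases ih with ⟨hx, ih⟩ | ih
    · obtain ⟨e, he, hcase⟩ := hs
      by_cases heR : e ∈ RE a b c d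
      · obtain ⟨i1, i2⟩ := ends_RE heR
        left
        refine ⟨?_, ih.trans (Adj.reach ⟨e, ⟨he, mem_coe.2 heR⟩, hcase⟩)⟩
        rcases hcase with ⟨_, h2⟩ | ⟨h2, _⟩
        · rw [← h2]; exact i2
        · rw [← h2]; exact i1
      · by_cases hy : inR a b c d y
        · -- both ends in the box, so the edge is in the box
          exfalso
          apply heR
          obtain ⟨p, q, β⟩ := e
          unfold inR at hx hy
          cases β
          · rw [mem_RE_false]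
            simp only [src_mk, tgt_false] at hcase
            rcases hcase with ⟨h1, h2⟩ | ⟨h2, h1⟩ <;> rw [← h1] at hx <;> rw [← h2] at hy <;>
              simp only at hx hy <;> omega
          · rw [mem_RE_true]
            simp only [src_mk, tgt_true] at hcase
            rcases hcase with ⟨h1, h2⟩ | ⟨h2, h1⟩ <;> rw [← h1] at hx <;> rw [← h2] at hy <;>
              simp only at hx hy <;> omega
        · right
          refine ⟨x, ⟨hx, ?_⟩, ih⟩
          obtain ⟨p, q, β⟩ := e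
          unfold inR at hx hy
          cases β
          · simp only [src_mk, tgt_false] at hcase
            rcases hcase with ⟨h1, h2⟩ | ⟨h2, h1⟩ <;> rw [← h1] at hx ⊢ <;> rw [← h2] at hy <;>
              simp only at hx hy ⊢ <;> omega
          · simp only [src_mk, tgt_true] at hcase
            rcases hcase with ⟨h1, h2⟩ | ⟨h2, h1⟩ <;> rw [← h1] at hx ⊢ <;> rw [← h2] at hy <;>
              simp only at hx hy ⊢ <;> omega
    · exact Or.inr ih

/-- four arms from the edge at the origin to the boundary of the box -/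
def E4 (n : ℕ) (F : Finset Edg) : Prop := A4 (-n) n (-n) n eo (↑F : Set Edg)

theorem ac_loc {n : ℕ} (hn : 1 ≤ n) {F : Finset Edg} (h : Ac F) :
    Ac (F ∩ boxE n) ∨ E4 n (F ∩ boxE n) := by
  have hu : inR (-(n:ℤ)) n (-(n:ℤ)) n (0, 0) := by
    unfold inR; simp only; omega
  have hv : inR (-(n:ℤ)) n (-(n:ℤ)) n (1, 0) := by
    unfold inR; simp only; omega
  have e1 : (↑(F.erase eo) : Set Edg) ∩ ↑(RE (-(n:ℤ)) n (-(n:ℤ)) n) =
      (↑((F ∩ boxE n).erase eo) : Set Edg) := by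
    ext e
    simp only [Set.mem_inter_iff, mem_coe, mem_erase, mem_inter]
    unfold boxE
    tauto
  have e2 : ((↑(F ∩ boxE n) : Set Edg) ∩ ↑(RE (-(n:ℤ)) n (-(n:ℤ)) n)) \ {eo} =
      (↑((F ∩ boxE n).erase eo) : Set Edg) := by
    ext e
    simp only [Set.mem_sdiff, Set.mem_inter_iff, mem_coe, mem_erase, mem_inter,
      Set.mem_singleton_iff]
    unfold boxE
    tauto
  unfold Ac at h
  by_cases hA : Ac (F ∩ boxE n)
  · exact Or.inl hA
  · right
    unfold Ac at hA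
    unfold E4 A4
    rw [e2]
    rcases stay_or hu h with ⟨_, k⟩ | k
    · rw [e1] at k
      exact absurd k hA
    · rcases stay_or hv h.symm with ⟨_, l⟩ | l
      · rw [e1] at l
        exact absurd l.symm hA
      · rw [e1] at k l
        exact ⟨k, l, hA⟩

/-- The event depends on the configuration outside the box only if there are four arms. -/
theorem sandwich {p : Edg → ℝ} (hp : Ok p) {n : ℕ} (hn : 1 ≤ n) {V : Finset Edg}
    (hV : boxE n ⊆ V) : Pr p (boxE n) Ac ≤ Pr p V Ac ∧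
      Pr p V Ac ≤ Pr p (boxE n) Ac + Pr p (boxE n) (E4 n) := by
  have h1 : Pr p V (fun F => Ac (F ∩ boxE n)) = Pr p (boxE n) Ac := by
    have e := Pr_local (p := p) hV (A := fun F => Ac (F ∩ boxE n))
      (fun F _ => by rw [Finset.inter_assoc, Finset.inter_self])
    rw [e]
    apply Pr_congr
    intro F hF
    rw [Finset.inter_eq_left.2 hF]
  have h2 : Pr p V (fun F => Ac (F ∩ boxE n) ∨ E4 n (F ∩ boxE n)) =
      Pr p (boxE n) (fun F => Ac F ∨ E4 n F) := by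
    have e := Pr_local (p := p) hV (A := fun F => Ac (F ∩ boxE n) ∨ E4 n (F ∩ boxE n))
      (fun F _ => by rw [Finset.inter_assoc, Finset.inter_self])
    rw [e]
    apply Pr_congr
    intro F hF
    rw [Finset.inter_eq_left.2 hF]
  constructor
  · rw [← h1]
    exact Pr_mono hp (fun F _ hF => Ac_mono Finset.inter_subset_left hF)
  · refine le_trans (Pr_mono hp (fun F _ hF => ac_loc hn hF)) ?_
    rw [h2]
    exact Pr_or_le hp _ _ _

/-- change of the parameters outside the box -/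
theorem change {p p' : Edg → ℝ} (hp : Ok p) (hp' : Ok p') {n : ℕ} (hn : 1 ≤ n)
    {V V' : Finset Edg} (hV : boxE n ⊆ V) (hV' : boxE n ⊆ V') (h : ∀ e ∈ boxE n, p e = p' e) :
    |Pr p V Ac - Pr p' V' Ac| ≤ Pr p (boxE n) (E4 n) := by
  obtain ⟨a1, a2⟩ := sandwich hp hn hV
  obtain ⟨b1, b2⟩ := sandwich hp' hn hV'
  have e1 : Pr p' (boxE n) Ac = Pr p (boxE n) Ac := Pr_congr_param (fun e he => (h e he).symm) _
  have e2 : Pr p' (boxE n) (E4 n) = Pr p (boxE n) (E4 n) :=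
    Pr_congr_param (fun e he => (h e he).symm) _
  rw [e1] at b1
  rw [e1, e2] at b2
  rw [abs_le]
  constructor <;> linarith

theorem e4_le_a4 {q : ℝ} (h0 : 0 ≤ q) (h1 : q ≤ 1) (n : ℕ) :
    PQ q (boxE n) (E4 n) ≤ a4 q n := by
  unfold a4
  have h2 : 0 ≤ PQ q (boxE n) (fun F => A4 (-n) n (-n) n (e0 false) ↑F) :=
    Pr_nonneg (okq h0 h1) _ _
  have h3 : PQ q (boxE n) (E4 n) = PQ q (boxE n) (fun F => A4 (-n) n (-n) n (e0 true) ↑F) := rfl
  rw [h3]
  linarith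

/-- The effect of the parameters outside the box, near the critical point. -/
theorem tbound : ∃ b C : ℝ, 0 < b ∧ b ≤ 1 / 4 ∧ 1 ≤ C ∧ ∀ (M n : ℕ) (δ : ℝ), 1 ≤ n → n ≤ M →
    |δ| ≤ b * (n:ℝ) ^ (-(3 / 4) : ℝ) →
    |Ex (pB (boxE n) δ) (boxE M) fA - PQ (1 / 2 + δ) (boxE M) Ac| ≤
      C * (n:ℝ) ^ (-(5 / 4) : ℝ) := by
  obtain ⟨κ, b, c, C, hκ, hb, hc, hC, hnear⟩ := Pool.Agent.W424.NC.nearS
  refine ⟨min b (1 / 4), max 1 C, lt_min hb (by norm_num), min_le_right _ _, le_max_left _ _, ?_⟩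
  intro M n δ hn hM hδ
  have hnr : (1:ℝ) ≤ n := by exact_mod_cast hn
  have hn0 : 0 < (n:ℝ) ^ (-(3 / 4) : ℝ) := by positivity
  have hδ1 : |δ| ≤ b * (n:ℝ) ^ (-(3 / 4 : ℝ)) :=
    hδ.trans (mul_le_mul_of_nonneg_right (min_le_left _ _) hn0.le)
  have hδ2 : |δ| ≤ 1 / 4 := by
    have h1 : (n:ℝ) ^ (-(3 / 4) : ℝ) ≤ 1 :=
      Real.rpow_le_one_of_one_le_of_nonpos hnr (by norm_num)
    calc |δ| ≤ min b (1 / 4) * (n:ℝ) ^ (-(3 / 4) : ℝ) := hδ
      _ ≤ (1 / 4) * 1 := mul_le_mul (min_le_right _ _) h1 hn0.le (by norm_num)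
      _ = 1 / 4 := mul_one _
  rw [abs_le] at hδ2
  have hq0 : 0 ≤ 1 / 2 + δ := by linarith
  have hq1 : 1 / 2 + δ ≤ 1 := by linarith
  have ok1 : Ok (fun _ : Edg => 1 / 2 + δ) := okq hq0 hq1
  have ok2 : Ok (pB (boxE n) δ) := by
    intro e
    unfold pB
    split_ifs
    · exact ⟨hq0, hq1⟩
    · norm_num
  have h1 := change ok1 ok2 hn (boxE_mono hM) (boxE_mono hM) (fun e he => by
    unfold pB
    rw [if_pos he])
  have h2 : Pr (pB (boxE n) δ) (boxE M) Ac = Ex (pB (boxE n) δ) (boxE M) fA := rfl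
  rw [h2, abs_sub_comm] at h1
  refine h1.trans ?_
  refine (e4_le_a4 hq0 hq1 n).trans ?_
  obtain ⟨-, h3⟩ := hnear n hn (1 / 2 + δ) (by
    have : 1 / 2 + δ - 1 / 2 = δ := by ring
    rw [this]
    exact hδ1)
  refine (h3 n hn le_rfl).2.trans ?_
  exact mul_le_mul_of_nonneg_right (le_max_right _ _) (by positivity)

end Pool.Agent.U167.AL
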