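import Pool.Agent.Y350.NE.TayA

/-!
Expansion of the probability of an event around the parameter `1 / 2`, when only the parameters of
the edges of a set `B` are changed.
-/

set_option autoImplicit false

namespace Pool.Agent.U167.AL

open H974 Finset Pool.Agent.Y350.NE.TayA

variable {E : Type*} [DecidableEq E]

/-- the parameters -/
noncomputable def pB (B : Finset E) (δ : ℝ) (e : E) : ℝ := if e ∈ B then 1 / 2 + δ else 1 / 2

/-- the coefficient of the linear term -/
noncomputable def cf (V : Finset E) (f : Finset E → ℝ) (s : E) : ℝ :=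
  (1 / 2) ^ (V \ {s}).card * ∑ F ∈ V.powerset, (-1 : ℝ) ^ (({s} : Finset E) \ F).card * f F

/-- every edge of `S` is pivotal for some choice of the configuration in `S` -/
def AP (Pv : E → Finset E → Prop) (S F : Finset E) : Prop :=
  ∀ e ∈ S, ∃ T ⊆ S, Pv e ((F \ S) ∪ T)

theorem weight_expand (V B F : Finset E) (hF : F ⊆ V) (hB : B ⊆ V) (δ : ℝ) :
    (∏ e ∈ F, pB B δ e) * (∏ e ∈ V \ F, (1 - pB B δ e)) =
      ∑ S ∈ B.powerset, δ ^ S.card * (1 / 2) ^ (V \ S).card * (-1) ^ (S \ F).card := by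
  have h1 : (∏ e ∈ F, pB B δ e) * (∏ e ∈ V \ F, (1 - pB B δ e)) =
      ∏ e ∈ V, ((if e ∈ B then (if e ∈ F then δ else -δ) else 0) + 1 / 2) := by
    rw [← Finset.prod_sdiff hF, mul_comm]
    congr 1
    · refine Finset.prod_congr rfl fun e he => ?_
      unfold pB
      rw [if_neg (Finset.mem_sdiff.1 he).2]
      split_ifs <;> ring
    · refine Finset.prod_congr rfl fun e he => ?_
      unfold pB
      rw [if_pos he]
      split_ifs <;> ring
  rw [h1, Finset.prod_add]
  have h2 : ∀ S ∈ V.powerset, S ∉ B.powerset →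
      (∏ e ∈ S, (if e ∈ B then (if e ∈ F then δ else -δ) else 0)) *
        (∏ _e ∈ V \ S, (1 / 2 : ℝ)) = 0 := by
    intro S _ hS
    rw [Finset.mem_powerset] at hS
    obtain ⟨e, he, heB⟩ := Finset.not_subset.1 hS
    rw [Finset.prod_eq_zero he (by rw [if_neg heB]), zero_mul]
  rw [← Finset.sum_subset (Finset.powerset_mono.2 hB) h2]
  refine Finset.sum_congr rfl fun S hS => ?_
  rw [Finset.mem_powerset] at hS
  rw [Finset.prod_const]
  have h3 : ∏ e ∈ S, (if e ∈ B then (if e ∈ F then δ else -δ) else 0) =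
      δ ^ S.card * (-1) ^ (S \ F).card := by
    have h4 : ∀ e ∈ S, (if e ∈ B then (if e ∈ F then δ else -δ) else 0) =
        δ * (if e ∈ S \ F then -1 else 1) := by
      intro e he
      rw [if_pos (hS he)]
      by_cases h : e ∈ F
      · simp [h]
      · simp [h, he]
    rw [Finset.prod_congr rfl h4, Finset.prod_mul_distrib, Finset.prod_const]
    congr 1
    rw [Finset.prod_ite_mem, Finset.inter_eq_right.2 Finset.sdiff_subset, Finset.prod_const]
  rw [h3]
  ring

theorem ex_expand (V B : Finset E) (hB : B ⊆ V) (f : Finset E → ℝ) (δ : ℝ) :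
    Ex (pB B δ) V f = ∑ S ∈ B.powerset, δ ^ S.card * ((1 / 2) ^ (V \ S).card *
      ∑ F ∈ V.powerset, (-1 : ℝ) ^ (S \ F).card * f F) := by
  unfold Ex
  have h1 : ∀ F ∈ V.powerset, (∏ e ∈ F, pB B δ e) * (∏ e ∈ V \ F, (1 - pB B δ e)) * f F =
      ∑ S ∈ B.powerset, δ ^ S.card * ((1 / 2) ^ (V \ S).card * ((-1 : ℝ) ^ (S \ F).card * f F)) := by
    intro F hF
    rw [weight_expand V B F (Finset.mem_powerset.1 hF) hB δ, Finset.sum_mul]
    refine Finset.sum_congr rfl fun S _ => ?_
    ring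
  rw [Finset.sum_congr rfl h1, Finset.sum_comm]
  refine Finset.sum_congr rfl fun S _ => ?_
  rw [← Finset.mul_sum, ← Finset.mul_sum]

theorem pB_zero (B : Finset E) : pB B 0 = fun _ : E => (1 / 2 : ℝ) := by
  funext e
  unfold pB
  split_ifs <;> norm_num

/-- the bound of one term -/
theorem term_le [Nonempty E] (V S : Finset E) (hS : S ⊆ V) (f : Finset E → ℝ)
    (Pv : E → Finset E → Prop) (h1 : ∀ F, |f F| ≤ 1)
    (h2 : ∀ e F, ¬ Pv e F → f (insert e F) = f (F.erase e)) :
    |(1 / 2 : ℝ) ^ (V \ S).card * ∑ F ∈ V.powerset, (-1 : ℝ) ^ (S \ F).card * f F| ≤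
      2 ^ S.card * Pr (fun _ : E => (1 / 2 : ℝ)) V (AP Pv S) := by
  classical
  have h3 := sign_sum V S hS f Pv h1 h2
  rw [abs_mul, abs_of_nonneg (by positivity : (0:ℝ) ≤ (1 / 2) ^ (V \ S).card)]
  have e1 : Pr (fun _ : E => (1 / 2 : ℝ)) V (AP Pv S) = (1 / 2) ^ V.card *
      ((V.powerset.filter fun F => ∀ e ∈ S, ∃ T ⊆ S, Pv e ((F \ S) ∪ T)).card : ℝ) := by
    rw [Pr_half V (AP Pv S)]
    have e2 : V.powerset.filter (AP Pv S) =
        V.powerset.filter fun F => ∀ e ∈ S, ∃ T ⊆ S, Pv e ((F \ S) ∪ T) := by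
      ext F
      simp only [Finset.mem_filter, AP]
    rw [e2]
  rw [e1]
  have e5 : V.card = S.card + (V \ S).card := by
    rw [Finset.card_sdiff_of_subset hS, Nat.add_sub_cancel' (Finset.card_le_card hS)]
  have e6 : (2 : ℝ) ^ S.card * (1 / 2) ^ S.card = 1 := by
    rw [← mul_pow]
    norm_num
  calc (1 / 2 : ℝ) ^ (V \ S).card * |∑ F ∈ V.powerset, (-1 : ℝ) ^ (S \ F).card * f F| ≤
        (1 / 2 : ℝ) ^ (V \ S).card *
        ((V.powerset.filter fun F => ∀ e ∈ S, ∃ T ⊆ S, Pv e ((F \ S) ∪ T)).card : ℝ) :=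
        mul_le_mul_of_nonneg_left h3 (by positivity)
    _ = _ := by
        rw [e5, pow_add]
        linear_combination (-((1 / 2 : ℝ) ^ (V \ S).card *
          ((V.powerset.filter fun F => ∀ e ∈ S, ∃ T ⊆ S, Pv e ((F \ S) ∪ T)).card : ℝ))) * e6

/-- Taylor expansion of order one. -/
theorem taylor [Nonempty E] (V B : Finset E) (hB : B ⊆ V) (f : Finset E → ℝ)
    (Pv : E → Finset E → Prop) (h1 : ∀ F, |f F| ≤ 1)
    (h2 : ∀ e F, ¬ Pv e F → f (insert e F) = f (F.erase e)) (δ : ℝ) :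
    |Ex (pB B δ) V f - Ex (fun _ : E => (1 / 2 : ℝ)) V f - δ * ∑ s ∈ B, cf V f s| ≤
      ∑ S ∈ B.powerset.filter (fun S => 2 ≤ S.card), (2 * |δ|) ^ S.card *
        Pr (fun _ : E => (1 / 2 : ℝ)) V (AP Pv S) := by
  classical
  set g : Finset E → ℝ := fun S => (1 / 2) ^ (V \ S).card *
      ∑ F ∈ V.powerset, (-1 : ℝ) ^ (S \ F).card * f F with hg
  have e0 : Ex (pB B δ) V f = ∑ S ∈ B.powerset, δ ^ S.card * g S := ex_expand V B hB f δ
  have e1 : Ex (fun _ : E => (1 / 2 : ℝ)) V f = g ∅ := by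
    have := ex_expand V ∅ (Finset.empty_subset V) f 0
    rw [pB_zero] at this
    rw [this]
    simp [hg]
  have e2 : ∑ s ∈ B, cf V f s = ∑ S ∈ B.powerset.filter (fun S => S.card = 1), g S := by
    have e3 : B.powerset.filter (fun S => S.card = 1) = B.image (fun s => ({s} : Finset E)) := by
      ext S
      simp only [Finset.mem_filter, Finset.mem_powerset, Finset.mem_image, Finset.card_eq_one]
      constructor
      · rintro ⟨h, s, rfl⟩
        exact ⟨s, Finset.singleton_subset_iff.1 h, rfl⟩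
      · rintro ⟨s, hs, rfl⟩
        exact ⟨Finset.singleton_subset_iff.2 hs, s, rfl⟩
    rw [e3, Finset.sum_image (fun a _ b _ h => Finset.singleton_injective h)]
    rfl
  have e4 : ∑ S ∈ B.powerset, δ ^ S.card * g S = g ∅ +
      δ * (∑ S ∈ B.powerset.filter (fun S => S.card = 1), g S) +
      ∑ S ∈ B.powerset.filter (fun S => 2 ≤ S.card), δ ^ S.card * g S := by
    rw [← Finset.sum_filter_add_sum_filter_not B.powerset (fun S => 2 ≤ S.card)]
    have e5 : B.powerset.filter (fun S => ¬ 2 ≤ S.card) =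
        insert ∅ (B.powerset.filter (fun S => S.card = 1)) := by
      ext S
      simp only [Finset.mem_filter, Finset.mem_powerset, Finset.mem_insert]
      constructor
      · rintro ⟨h, h'⟩
        rcases Nat.eq_zero_or_pos S.card with h0 | h0
        · left; exact Finset.card_eq_zero.1 h0
        · right; exact ⟨h, by omega⟩
      · rintro (rfl | ⟨h, h'⟩)
        · exact ⟨Finset.empty_subset B, by simp⟩
        · exact ⟨h, by omega⟩
    rw [e5, Finset.sum_insert (by simp)]
    have e6 : ∑ S ∈ B.powerset.filter (fun S => S.card = 1), δ ^ S.card * g S =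
        δ * (∑ S ∈ B.powerset.filter (fun S => S.card = 1), g S) := by
      rw [Finset.mul_sum]
      refine Finset.sum_congr rfl fun S hS => ?_
      rw [(Finset.mem_filter.1 hS).2, pow_one]
    rw [e6]
    simp
    ring
  rw [e0, e1, e2, e4]
  have e7 : g ∅ + δ * (∑ S ∈ B.powerset.filter (fun S => S.card = 1), g S) +
      ∑ S ∈ B.powerset.filter (fun S => 2 ≤ S.card), δ ^ S.card * g S - g ∅ -
      δ * (∑ S ∈ B.powerset.filter (fun S => S.card = 1), g S) =
      ∑ S ∈ B.powerset.filter (fun S => 2 ≤ S.card), δ ^ S.card * g S := by ring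
  rw [e7]
  refine (Finset.abs_sum_le_sum_abs _ _).trans (Finset.sum_le_sum fun S hS => ?_)
  have hSB := Finset.mem_powerset.1 (Finset.mem_filter.1 hS).1
  have h3 := term_le V S (hSB.trans hB) f Pv h1 h2
  rw [abs_mul, abs_pow, mul_pow, mul_comm (2 ^ S.card), mul_assoc]
  exact mul_le_mul_of_nonneg_left h3 (by positivity)

/-- the linear coefficients -/
theorem cf_le [Nonempty E] (V : Finset E) (s : E) (hs : s ∈ V) (f : Finset E → ℝ)
    (Pv : E → Finset E → Prop) (h1 : ∀ F, |f F| ≤ 1)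
    (h2 : ∀ e F, ¬ Pv e F → f (insert e F) = f (F.erase e)) :
    |cf V f s| ≤ 2 * Pr (fun _ : E => (1 / 2 : ℝ)) V (AP Pv {s}) := by
  have h3 := term_le V {s} (Finset.singleton_subset_iff.2 hs) f Pv h1 h2
  rw [Finset.card_singleton, pow_one] at h3
  exact h3

end Pool.Agent.U167.AL
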