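import Pool.Agent.U167.AL.Kap
import Pool.Agent.H974R2.Infinite

/-!
The density of clusters, its derivatives and its expansion at `1 / 2`.
-/

set_option autoImplicit false
set_option maxHeartbeats 1000000

namespace Pool.Agent.U167.AL

open H974 H12S Finset Filter Topology MeasureTheory

/-- the density of clusters -/
noncomputable def kf (p : ℝ) : ℝ := 1 + ∫ s in (0:ℝ)..p, 2 * (hf s - 1)

theorem kf_deriv (p : ℝ) : HasDerivAt kf (2 * (hf p - 1)) p := by
  have hc : Continuous (fun s => 2 * (hf s - 1)) := by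
    have := hf_cont
    fun_prop
  have h1 := intervalIntegral.integral_hasDerivAt_right (hc.intervalIntegrable 0 p)
    (hc.stronglyMeasurableAtFilter _ _) hc.continuousAt
  exact h1.const_add 1

theorem kf_zero : kf 0 = 1 := by
  unfold kf
  simp

/-- convergence of the normalised mean number of clusters -/
theorem kf_lim : ∀ ε : ℝ, 0 < ε → ∃ n0 : ℕ, 1 ≤ n0 ∧ ∀ n : ℕ, n0 ≤ n → ∀ q : ℝ,
    0 ≤ q → q ≤ 1 → |mK n q / (n:ℝ) ^ 2 - kf q| ≤ ε := by
  intro ε hε
  obtain ⟨n0, hn0, h⟩ := deriv_unif ε hε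
  refine ⟨n0, hn0, ?_⟩
  intro n hn q h0 h1
  have hn1 : (0:ℝ) < n := by exact_mod_cast (by omega : 0 < n)
  obtain ⟨D, hD⟩ : ∃ D : ℝ → ℝ, D = fun x => mK n x / (n:ℝ) ^ 2 - kf x := ⟨_, rfl⟩
  have hd : ∀ x ∈ Set.Icc (0:ℝ) q, HasDerivWithinAt D
      ((∑ e ∈ bE n, (Pr (fun _ => x) (bE n) (AcE e) - 1)) / (n:ℝ) ^ 2 - 2 * (hf x - 1))
      (Set.Icc (0:ℝ) q) x := by
    intro x _
    rw [hD]
    exact (((mK_deriv n x).div_const _).sub (kf_deriv x)).hasDerivWithinAt
  have hb : ∀ x ∈ Set.Ico (0:ℝ) q,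
      ‖(∑ e ∈ bE n, (Pr (fun _ => x) (bE n) (AcE e) - 1)) / (n:ℝ) ^ 2 - 2 * (hf x - 1)‖ ≤ ε := by
    intro x hx
    rw [Real.norm_eq_abs]
    exact h n hn x hx.1 (hx.2.le.trans h1)
  have h2 := norm_image_sub_le_of_norm_deriv_le_segment' hd hb q ⟨h0, le_rfl⟩
  have h3 : D 0 = 0 := by
    rw [hD]
    simp only
    rw [mK_zero, kf_zero, div_self (by positivity), sub_self]
  rw [h3, sub_zero, sub_zero, Real.norm_eq_abs, hD] at h2
  simp only at h2
  refine h2.trans ?_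
  nlinarith

/-- the expansions -/
theorem kf_expand : ∃ h1 C : ℝ, 1 ≤ C ∧ HasDerivAt (deriv kf) h1 (1 / 2) ∧
    ∀ p : ℝ, 0 ≤ p → p ≤ 1 →
      |deriv kf p - deriv kf (1 / 2) - h1 * (p - 1 / 2)| ≤ C * |p - 1 / 2| ^ (5 / 3 : ℝ) ∧
      |kf p - kf (1 / 2) - deriv kf (1 / 2) * (p - 1 / 2) - h1 / 2 * (p - 1 / 2) ^ 2| ≤
        C * |p - 1 / 2| ^ (8 / 3 : ℝ) := by
  obtain ⟨h1, C, hC, hex⟩ := expand_inf
  have hdk : deriv kf = fun p => 2 * (hf p - 1) := funext fun p => (kf_deriv p).deriv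
  have hA : ∀ p : ℝ, |p - 1 / 2| ≤ 1 / 2 →
      |deriv kf p - deriv kf (1 / 2) - 2 * h1 * (p - 1 / 2)| ≤
        2 * C * |p - 1 / 2| ^ (5 / 3 : ℝ) := by
    intro p hp
    have h2 := hex (p - 1 / 2) hp
    have e : 1 / 2 + (p - 1 / 2) = p := by ring
    rw [e] at h2
    rw [hdk]
    have e2 : 2 * (hf p - 1) - 2 * (hf (1 / 2) - 1) - 2 * h1 * (p - 1 / 2) =
        2 * (hf p - hf (1 / 2) - h1 * (p - 1 / 2)) := by ring
    simp only
    rw [e2, abs_mul, abs_of_pos (by norm_num : (0:ℝ) < 2)]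
    linarith
  refine ⟨2 * h1, 2 * C, by linarith, ?_, ?_⟩
  · rw [hasDerivAt_iff_isLittleO]
    rw [Asymptotics.isLittleO_iff]
    intro c hc
    have hlim : Tendsto (fun p : ℝ => 2 * C * |p - 1 / 2| ^ (2 / 3 : ℝ)) (𝓝 (1 / 2)) (𝓝 0) := by
      have h3 : Continuous (fun p : ℝ => 2 * C * |p - 1 / 2| ^ (2 / 3 : ℝ)) := by
        have h4 : Continuous (fun p : ℝ => |p - 1 / 2| ^ (2 / 3 : ℝ)) :=
          (Real.continuous_rpow_const (by norm_num : (0:ℝ) ≤ 2 / 3)).comp (by fun_prop)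
        exact h4.const_mul _
      have h5 := h3.tendsto (1 / 2)
      simp only [sub_self, abs_zero] at h5
      rwa [Real.zero_rpow (by norm_num), mul_zero] at h5
    have hev1 := hlim.eventually (gt_mem_nhds hc)
    have hev2 : ∀ᶠ p : ℝ in 𝓝 (1 / 2), |p - 1 / 2| ≤ 1 / 2 := by
      have : Metric.closedBall (1 / 2 : ℝ) (1 / 2) ∈ 𝓝 (1 / 2 : ℝ) :=
        Metric.closedBall_mem_nhds _ (by norm_num)
      filter_upwards [this] with p hp
      rwa [Metric.mem_closedBall, Real.dist_eq] at hp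
    filter_upwards [hev1, hev2] with p k1 k2
    have k3 := hA p k2
    rw [Real.norm_eq_abs, Real.norm_eq_abs, smul_eq_mul]
    have e : deriv kf p - deriv kf (1 / 2) - (p - 1 / 2) * (2 * h1) =
        deriv kf p - deriv kf (1 / 2) - 2 * h1 * (p - 1 / 2) := by ring
    rw [e]
    refine k3.trans ?_
    have e2 : |p - 1 / 2| ^ (5 / 3 : ℝ) = |p - 1 / 2| ^ (2 / 3 : ℝ) * |p - 1 / 2| := by
      have : (5 / 3 : ℝ) = 2 / 3 + 1 := by norm_num
      rcases (abs_nonneg (p - 1 / 2)).eq_or_lt with h0 | h0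
      · rw [← h0, Real.zero_rpow (by norm_num), mul_zero]
      · rw [this, Real.rpow_add h0, Real.rpow_one]
    rw [e2, ← mul_assoc]
    exact mul_le_mul_of_nonneg_right k1.le (abs_nonneg _)
  · intro p hp0 hp1
    have hp : |p - 1 / 2| ≤ 1 / 2 := by
      rw [abs_le]
      constructor <;> linarith
    refine ⟨hA p hp, ?_⟩
    obtain ⟨s, hs⟩ : ∃ s, s = |p - 1 / 2| := ⟨_, rfl⟩
    have hs0 : 0 ≤ s := hs ▸ abs_nonneg _
    -- the remainder along the segment
    obtain ⟨R, hR⟩ : ∃ R : ℝ → ℝ, R = fun x => kf (1 / 2 + x * (p - 1 / 2)) -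
      deriv kf (1 / 2) * (x * (p - 1 / 2)) - 2 * h1 / 2 * (x * (p - 1 / 2)) ^ 2 := ⟨_, rfl⟩
    have hd : ∀ x ∈ Set.Icc (0:ℝ) 1, HasDerivWithinAt R
        ((deriv kf (1 / 2 + x * (p - 1 / 2)) - deriv kf (1 / 2) -
          2 * h1 * (x * (p - 1 / 2))) * (p - 1 / 2)) (Set.Icc (0:ℝ) 1) x := by
      intro x _
      rw [hR]
      have d0 : HasDerivAt (fun x : ℝ => x * (p - 1 / 2)) (p - 1 / 2) x := by
        simpa using (hasDerivAt_id x).mul_const (p - 1 / 2)
      have d1 : HasDerivAt (fun x : ℝ => 1 / 2 + x * (p - 1 / 2)) (p - 1 / 2) x :=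
        d0.const_add (1 / 2)
      have d2 : HasDerivAt (fun x : ℝ => kf (1 / 2 + x * (p - 1 / 2)))
          (deriv kf (1 / 2 + x * (p - 1 / 2)) * (p - 1 / 2)) x := by
        have := (kf_deriv (1 / 2 + x * (p - 1 / 2))).comp x d1
        rw [hdk]
        exact this
      have d3 : HasDerivAt (fun x : ℝ => (x * (p - 1 / 2)) ^ 2)
          (2 * (x * (p - 1 / 2)) * (p - 1 / 2)) x := by
        have := d0.fun_pow 2
        simpa using this
      have d4 := (d2.sub (d0.const_mul (deriv kf (1 / 2)))).sub (d3.const_mul (2 * h1 / 2))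
      refine (d4.congr_deriv ?_).hasDerivWithinAt
      ring
    have hb : ∀ x ∈ Set.Ico (0:ℝ) 1,
        ‖(deriv kf (1 / 2 + x * (p - 1 / 2)) - deriv kf (1 / 2) -
          2 * h1 * (x * (p - 1 / 2))) * (p - 1 / 2)‖ ≤ 2 * C * s ^ (5 / 3 : ℝ) * s := by
      intro x hx
      rw [norm_mul, Real.norm_eq_abs, Real.norm_eq_abs, ← hs]
      apply mul_le_mul_of_nonneg_right _ hs0
      have e1 : 1 / 2 + x * (p - 1 / 2) - 1 / 2 = x * (p - 1 / 2) := by ring
      have e2 : |x * (p - 1 / 2)| ≤ s := by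
        rw [abs_mul, abs_of_nonneg hx.1, ← hs]
        have := hx.2
        nlinarith
      have k := hA (1 / 2 + x * (p - 1 / 2)) (by rw [e1]; exact e2.trans (hs ▸ hp))
      rw [e1] at k
      refine k.trans ?_
      apply mul_le_mul_of_nonneg_left _ (by linarith)
      exact Real.rpow_le_rpow (abs_nonneg _) e2 (by norm_num)
    have h2 := norm_image_sub_le_of_norm_deriv_le_segment' hd hb 1 ⟨zero_le_one, le_rfl⟩
    rw [Real.norm_eq_abs, hR] at h2
    simp only at h2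
    have e3 : kf (1 / 2 + 1 * (p - 1 / 2)) - deriv kf (1 / 2) * (1 * (p - 1 / 2)) -
        2 * h1 / 2 * (1 * (p - 1 / 2)) ^ 2 - (kf (1 / 2 + 0 * (p - 1 / 2)) -
        deriv kf (1 / 2) * (0 * (p - 1 / 2)) - 2 * h1 / 2 * (0 * (p - 1 / 2)) ^ 2) =
        kf p - kf (1 / 2) - deriv kf (1 / 2) * (p - 1 / 2) -
          2 * h1 / 2 * (p - 1 / 2) ^ 2 := by
      have q1 : 1 / 2 + 1 * (p - 1 / 2) = p := by ring
      have q2 : 1 / 2 + 0 * (p - 1 / 2) = (1 / 2 : ℝ) := by ring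
      rw [q1, q2]
      ring
    rw [e3] at h2
    refine h2.trans (le_of_eq ?_)
    rw [← hs, sub_zero, mul_one]
    rcases hs0.eq_or_lt with h0 | h0
    · rw [← h0, Real.zero_rpow (by norm_num), mul_zero, Real.zero_rpow (by norm_num), mul_zero]
    · have : (8 / 3 : ℝ) = 5 / 3 + 1 := by norm_num
      rw [this, Real.rpow_add h0, Real.rpow_one]
      ring

/-- the expectation of a function of the open edges of a finite set -/
theorem law_ex (p : unitInterval) (S : Finset Edg) (f : Finset Edg → ℝ) :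
    ∫ ω, f (FF S ω) ∂(bondLaw p) = Ex (fun _ => (p:ℝ)) S f := by
  classical
  have h1 : ∀ ω : sqLattice.edgeSet → Bool, f (FF S ω) =
      ∑ T ∈ S.powerset, ({ω | FF S ω = T} : Set (sqLattice.edgeSet → Bool)).indicator
        (fun _ => f T) ω := by
    intro ω
    rw [Finset.sum_eq_single (FF S ω)]
    · rw [Set.indicator_of_mem]
      exact rfl
    · intro T _ hT
      rw [Set.indicator_of_notMem]
      exact fun h => hT h.symm
    · intro h
      exact absurd (Finset.mem_powerset.2 (Finset.filter_subset _ _)) h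
  simp_rw [h1]
  rw [integral_finsetSum]
  · unfold Ex
    apply Finset.sum_congr rfl
    intro T hT
    rw [integral_indicator_const _ (meas_FF S T), law_eq p (Finset.mem_powerset.1 hT), smul_eq_mul]
  · intro T _
    exact (integrable_const _).indicator (meas_FF S T)

end Pool.Agent.U167.AL
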