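import Pool.Agent.Y554.NE.Merge
import Pool.Agent.Y968.NE.Key
import Pool.Agent.Y100.NE.Base

/-!
Polymer bounds for sets of edges all of which are pivotal, abstract form: definitions, and the
steps BASE, START, MERGE, OUT (adapted from the project NE).
-/

set_option autoImplicit false

namespace Pool.Agent.U167.AL

open H974 H12S Finset Pool.Agent.Y554.SN Pool.Agent.Y554.NE
open Pool.Agent.Y239.NE.Dec (okh ds_tri mem_blk_pos)
open Pool.Agent.Y239.NE.Out (blk_sub mem_blk_of ds_le_dm)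
open Pool.Agent.Y968.NE (ds_comm ds_zero ds_self)
open Pool.Agent.Y100.NE (mem_blk_one pos_eq ds_of_pos blk_mono)

/-- the one-edge bound -/
noncomputable def ps (s : ℕ) : ℝ := ((max 1 s : ℕ) : ℝ) ^ (-(5 / 4) : ℝ)

theorem ps_base (s : ℕ) : (1 : ℝ) ≤ ((max 1 s : ℕ) : ℝ) := by
  exact_mod_cast le_max_left 1 s

theorem ps_pos (s : ℕ) : 0 < ps s :=
  Real.rpow_pos_of_pos (lt_of_lt_of_le one_pos (ps_base s)) _

theorem ps_le_one (s : ℕ) : ps s ≤ 1 :=
  Real.rpow_le_one_of_one_le_of_nonpos (ps_base s) (by norm_num)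

theorem ps_anti {s s' : ℕ} (h : s ≤ s') : ps s' ≤ ps s := by
  unfold ps
  apply Real.rpow_le_rpow_of_nonpos (lt_of_lt_of_le one_pos (ps_base s)) _ (by norm_num)
  exact_mod_cast max_le_max le_rfl h

theorem ps_cmp {s s' M : ℕ} (hM : 1 ≤ M) (h2 : s' ≤ M * max 1 s) :
    ps s ≤ (M:ℝ) ^ 2 * ps s' := by
  have hMr : (1:ℝ) ≤ M := by exact_mod_cast hM
  have hM0 : (0:ℝ) < M := by linarith
  have hb := lt_of_lt_of_le one_pos (ps_base s)
  have hb' := lt_of_lt_of_le one_pos (ps_base s')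
  have h4 : 1 ≤ M * max 1 s := le_trans (by omega) (Nat.mul_le_mul hM (le_max_left 1 s))
  have h3 : ((max 1 s' : ℕ) : ℝ) ≤ M * ((max 1 s : ℕ) : ℝ) := by
    exact_mod_cast max_le h4 h2
  have h5 : ((M:ℝ) * ((max 1 s : ℕ) : ℝ)) ^ (-(5 / 4) : ℝ) ≤ ps s' :=
    Real.rpow_le_rpow_of_nonpos hb' h3 (by norm_num)
  rw [Real.mul_rpow hM0.le hb.le] at h5
  have h6 : (M:ℝ) ^ (-(5 / 4) : ℝ) * (M:ℝ) ^ (5 / 4 : ℝ) = 1 := by
    rw [← Real.rpow_add hM0]
    norm_num
  have h7 : (M:ℝ) ^ (5 / 4 : ℝ) ≤ (M:ℝ) ^ 2 := by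
    rw [← Real.rpow_natCast]
    exact Real.rpow_le_rpow_of_exponent_le hMr (by norm_num)
  have h8 : 0 < (M:ℝ) ^ (5 / 4 : ℝ) := Real.rpow_pos_of_pos hM0 _
  calc ps s = (M:ℝ) ^ (5 / 4 : ℝ) * ((M:ℝ) ^ (-(5 / 4) : ℝ) * ps s) := by
        rw [← mul_assoc, mul_comm ((M:ℝ) ^ (5 / 4 : ℝ)), h6, one_mul]
    _ ≤ (M:ℝ) ^ (5 / 4 : ℝ) * ps s' := mul_le_mul_of_nonneg_left h5 h8.le
    _ ≤ (M:ℝ) ^ 2 * ps s' := mul_le_mul_of_nonneg_right h7 (ps_pos s').le

theorem ps_mul {r D : ℕ} (hr : 1 ≤ r) (hrD : r ≤ D) :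
    ps r * ((r:ℝ) / D) ^ (5 / 4 : ℝ) = ps D := by
  have hr0 : (0:ℝ) < r := by exact_mod_cast hr
  have hD0 : (0:ℝ) < D := by exact_mod_cast hr.trans hrD
  unfold ps
  rw [max_eq_right hr, max_eq_right (hr.trans hrD), Real.div_rpow hr0.le hD0.le,
    Real.rpow_neg hr0.le, Real.rpow_neg hD0.le]
  have := (Real.rpow_pos_of_pos hr0 (5 / 4)).ne'
  have := (Real.rpow_pos_of_pos hD0 (5 / 4)).ne'
  field_simp

/-- The abstract situation: `Q S F` implies local events in the annuli which separate `S`. -/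
structure Sys (V B : Finset Edg) (N : ℕ) (C : ℝ) (Q : Finset Edg → Finset Edg → Prop) :
    Prop where
  one_le : 1 ≤ C
  loc : ∀ (x : Edg) (r D : ℕ), x ∈ B → 1 ≤ r → r ≤ D → D ≤ N → ∃ Ch : Finset Edg → Prop,
    (∀ F F' : Finset Edg, F ∩ (blk (pos x) D \ blk (pos x) r) =
      F' ∩ (blk (pos x) D \ blk (pos x) r) → (Ch F ↔ Ch F')) ∧
    (∀ S F : Finset Edg, S ⊆ B → F ⊆ V → Q S F → x ∈ S → (∃ w ∈ S, w ∉ blk (pos x) D) →
      Disjoint S (blk (pos x) D \ blk (pos x) r) → Ch F) ∧
    PQ (1 / 2) V Ch ≤ C * ((r:ℝ) / D) ^ (5 / 4 : ℝ)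

/-- As `Good` of the project NE; if `full` is false, only for proper supersets. -/
def Good (V B : Finset Edg) (Q : Finset Edg → Finset Edg → Prop) (full : Prop) (t τ s : ℕ)
    (a : ℝ) (k : ℕ) (S : Finset Edg) (x : Edg) : Prop :=
  ∃ (Ev : Finset Edg → Prop) (par : Edg → Edg) (rk : Edg → ℕ),
    (∀ F F' : Finset Edg, F ∩ (nb S (t / 2) \ S) = F' ∩ (nb S (t / 2) \ S) → (Ev F ↔ Ev F')) ∧
    (∀ S' : Finset Edg, S ⊆ S' → S' ⊆ B → (full ∨ S' ≠ S) →
      (∀ v ∈ S, ∀ w ∈ S' \ S, t < ds v w) → ∀ F : Finset Edg, F ⊆ V → Q S' F → Ev F) ∧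
    (∀ y ∈ S, y ≠ x → par y ∈ S ∧ rk (par y) < rk y ∧ ds y (par y) ≤ τ) ∧
    PQ (1 / 2) V Ev ≤ a ^ k * (∏ y ∈ S.erase x, ps (ds y (par y))) * ps s

theorem prod_ps_pos (S : Finset Edg) (f : Edg → ℕ) : 0 < ∏ y ∈ S, ps (f y) :=
  Finset.prod_pos (fun _ _ => ps_pos _)

section
variable {V B : Finset Edg} {N : ℕ} {C : ℝ} {Q : Finset Edg → Finset Edg → Prop}

/-- monotonicity -/
theorem Good.mono {full : Prop} {t τ τ' s : ℕ} {a : ℝ} {k k' : ℕ} {S : Finset Edg} {x : Edg}
    (h : Good V B Q full t τ s a k S x) (hτ : τ ≤ τ') (hk : k ≤ k') (ha : 1 ≤ a) :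
    Good V B Q full t τ' s a k' S x := by
  obtain ⟨Ev, par, rk, h1, h2, h3, h4⟩ := h
  refine ⟨Ev, par, rk, h1, h2, fun y hy hx => ?_, h4.trans ?_⟩
  · obtain ⟨e1, e2, e3⟩ := h3 y hy hx
    exact ⟨e1, e2, e3.trans hτ⟩
  · refine mul_le_mul_of_nonneg_right ?_ (ps_pos _).le
    refine mul_le_mul_of_nonneg_right ?_ (prod_ps_pos _ _).le
    exact pow_le_pow_right₀ ha hk

theorem Good.weak {full : Prop} {t τ s : ℕ} {a : ℝ} {k : ℕ} {S : Finset Edg} {x : Edg}
    (h : Good V B Q True t τ s a k S x) : Good V B Q full t τ s a k S x := by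
  obtain ⟨Ev, par, rk, h1, h2, h3, h4⟩ := h
  exact ⟨Ev, par, rk, h1, fun S' k1 k2 _ => h2 S' k1 k2 (Or.inl trivial), h3, h4⟩

/-- BASE: all the edges at one position. -/
theorem base (hs : Sys V B N C Q) (a : ℝ) (t' : ℕ) (S : Finset Edg) (x : Edg) (hCa : 9 * C ≤ a)
    (ht' : t' ≤ N) (hS : S ⊆ B) (hx : x ∈ S) (hall : ∀ y ∈ S, ds y x = 0) :
    Good V B Q False t' 0 (max t' (dm S)) a 1 S x := by
  have hC1 := hs.one_le
  have hdm : dm S = 0 := by
    unfold dm
    rw [← Nat.bot_eq_zero, Finset.sup_eq_bot_iff]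
    intro a ha
    rw [Finset.sup_eq_bot_iff]
    intro b hb
    exact ds_of_pos ((pos_eq (hall a ha)).trans (pos_eq (hall b hb)).symm)
  rw [hdm, max_eq_left (Nat.zero_le _)]
  have hprod : ∏ y ∈ S.erase x, ps (ds y ((fun _ => x) y)) = 1 := by
    refine Finset.prod_eq_one fun y hy => ?_
    have h1 := hall y (Finset.mem_of_mem_erase hy)
    simp only [h1]
    unfold ps
    simp
  have htree : ∀ y ∈ S, y ≠ x → (fun _ => x) y ∈ S ∧
      (fun y => if y = x then 0 else 1) ((fun _ => x) y) < (fun y => if y = x then 0 else 1) y ∧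
      ds y ((fun _ => x) y) ≤ 0 := by
    intro y hy hyx
    refine ⟨hx, ?_, (hall y hy).le⟩
    simp [hyx]
  by_cases hD : 1 ≤ t' / 2
  · set D := t' / 2 with hDdef
    have hDt : D ≤ t' := Nat.div_le_self _ _
    obtain ⟨Ch, hloc, himp, hpr⟩ := hs.loc x 1 D (hS hx) le_rfl hD (hDt.trans ht')
    have hSb : ∀ e ∈ S, e ∈ blk (pos x) 1 := fun e he => mem_blk_one (hall e he)
    refine ⟨Ch, fun _ => x, fun y => if y = x then 0 else 1, ?_, ?_, htree, ?_⟩
    · intro F F' hFF
      refine hloc F F' ?_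
      have hsub : blk (pos x) D \ blk (pos x) 1 ⊆ nb S (t' / 2) \ S := by
        intro e he
        rw [Finset.mem_sdiff] at he ⊢
        refine ⟨?_, fun h => he.2 (hSb e h)⟩
        unfold nb
        rw [Finset.mem_biUnion]
        exact ⟨x, hx, he.1⟩
      ext e
      have h1 := Finset.ext_iff.1 hFF e
      simp only [Finset.mem_inter] at h1 ⊢
      constructor
      · rintro ⟨h2, h3⟩
        exact ⟨(h1.1 ⟨h2, hsub h3⟩).1, h3⟩
      · rintro ⟨h2, h3⟩
        exact ⟨(h1.2 ⟨h2, hsub h3⟩).1, h3⟩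
    · intro S' hSS' hS'b hne hfar F hF hQ
      have hne' : S' ≠ S := hne.resolve_left (fun h => h)
      have hex : ∃ w ∈ S', w ∉ S := by
        by_contra hcon
        push Not at hcon
        exact hne' (Finset.Subset.antisymm hcon hSS')
      obtain ⟨w, hw, hwS⟩ := hex
      refine himp S' F hS'b hF hQ (hSS' hx) ⟨w, hw, ?_⟩ ?_
      · intro hwb
        have h1 := hfar x hx w (Finset.mem_sdiff.2 ⟨hw, hwS⟩)
        have h2 := mem_blk_pos hwb
        rw [ds_comm] at h2
        omega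
      · rw [Finset.disjoint_left]
        intro e he he'
        rw [Finset.mem_sdiff] at he'
        by_cases h5 : e ∈ S
        · exact he'.2 (hSb e h5)
        · have h6 := hfar x hx e (Finset.mem_sdiff.2 ⟨he, h5⟩)
          have h7 := mem_blk_pos he'.1
          rw [ds_comm] at h7
          omega
    · rw [hprod, pow_one, mul_one]
      refine hpr.trans ?_
      have h1 : ((1:ℕ):ℝ) / D = (1:ℝ) / D := by norm_num
      have h2 := ps_mul (r := 1) (D := D) le_rfl hD
      have h3 : ps 1 = 1 := by unfold ps; simp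
      rw [h3, one_mul] at h2
      rw [h2]
      have h4 : ps D ≤ ((3:ℕ):ℝ) ^ 2 * ps t' := ps_cmp (by norm_num) (by omega)
      push_cast at h4
      calc C * ps D ≤ C * (3 ^ 2 * ps t') := mul_le_mul_of_nonneg_left h4 (by linarith)
        _ = (9 * C) * ps t' := by ring
        _ ≤ a * ps t' := mul_le_mul_of_nonneg_right hCa (ps_pos _).le
  · refine ⟨fun _ => True, fun _ => x, fun y => if y = x then 0 else 1, ?_, ?_, htree, ?_⟩
    · intro F F' _
      rfl
    · intros
      trivial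
    · rw [hprod, pow_one, mul_one]
      have h0 : PQ (1 / 2) V (fun _ => True) ≤ 1 :=
        Pr_le_one (okq (by norm_num) (by norm_num)) _ _
      have h1 : ps t' = 1 := by
        unfold ps
        have : max 1 t' = 1 := by omega
        rw [this]; simp
      rw [h1, mul_one]
      linarith

/-- START: change of the radius. -/
theorem start (a : ℝ) (full : Prop) (t k : ℕ) (R : Finset Edg) (x : Edg) (ha : 4 ≤ a)
    (h : Good V B Q full t (t + 1) (max t (dm R)) a k R x) :
    Good V B Q full t (t + 1) (max (t + 1) (dm R)) a (k + 1) R x := by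
  obtain ⟨Ev, par, rk, h1, h2, h3, h4⟩ := h
  refine ⟨Ev, par, rk, h1, h2, h3, h4.trans ?_⟩
  have h5 : ps (max t (dm R)) ≤ ((2:ℕ):ℝ) ^ 2 * ps (max (t + 1) (dm R)) :=
    ps_cmp (by norm_num) (by omega)
  have h6 : 0 ≤ a ^ k * ∏ y ∈ R.erase x, ps (ds y (par y)) :=
    mul_nonneg (pow_nonneg (by linarith) _) (prod_ps_pos _ _).le
  have h7 := ps_pos (max (t + 1) (dm R))
  have h8 : ((2:ℕ):ℝ) ^ 2 * ps (max (t + 1) (dm R)) ≤ a * ps (max (t + 1) (dm R)) := by
    apply mul_le_mul_of_nonneg_right _ h7.le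
    norm_num
    linarith
  calc a ^ k * (∏ y ∈ R.erase x, ps (ds y (par y))) * ps (max t (dm R)) ≤
        a ^ k * (∏ y ∈ R.erase x, ps (ds y (par y))) *
          (a * ps (max (t + 1) (dm R))) := mul_le_mul_of_nonneg_left (h5.trans h8) h6
    _ = _ := by rw [pow_succ]; ring

/-- the comparison of the products of the one-arm bounds -/
theorem merge_ps {t : ℕ} {U R : Finset Edg} {b u : Edg} (hu : u ∈ U) (hb : b ∈ R)
    (hbu : ds b u ≤ t + 1) :
    ps (max (t + 1) (dm U)) * ps (max t (dm R)) ≤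
      36 * (ps (ds b u) * ps (max (t + 1) (dm (U ∪ R)))) := by
  have h1 := dm_union hu hb hbu
  have h2 : dm U ≤ dm (U ∪ R) := dm_mono subset_union_left
  have h3 : dm R ≤ dm (U ∪ R) := dm_mono subset_union_right
  obtain ⟨M, hM⟩ : ∃ M, M = max (t + 1) (dm U) := ⟨_, rfl⟩
  obtain ⟨M', hM'⟩ : ∃ M', M' = max (t + 1) (dm (U ∪ R)) := ⟨_, rfl⟩
  rw [← hM, ← hM']
  have p0 := ps_pos M
  have p1 := ps_pos (ds b u)
  have p2 := ps_pos M'
  have p3 := ps_pos (max t (dm R))
  rcases le_total (dm R) M with hc | hc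
  · have e1 : ps M ≤ ((3:ℕ):ℝ) ^ 2 * ps M' := ps_cmp (by norm_num) (by omega)
    have e2 : ps (max t (dm R)) ≤ ps t := ps_anti (le_max_left _ _)
    have e3 : ps t ≤ ((2:ℕ):ℝ) ^ 2 * ps (t + 1) := ps_cmp (by norm_num) (by omega)
    have e4 : ps (t + 1) ≤ ps (ds b u) := ps_anti hbu
    have e5 : ps (max t (dm R)) ≤ 4 * ps (ds b u) := by
      push_cast at e3
      linarith
    push_cast at e1
    calc ps M * ps (max t (dm R)) ≤ (3 ^ 2 * ps M') * (4 * ps (ds b u)) :=
          mul_le_mul e1 e5 p3.le (by positivity)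
      _ = 36 * (ps (ds b u) * ps M') := by ring
  · have e0 : max t (dm R) = dm R := max_eq_right (by omega)
    rw [e0]
    have e4 : ps M ≤ ps (ds b u) := ps_anti (by omega)
    have e5 : ps (dm R) ≤ ((3:ℕ):ℝ) ^ 2 * ps M' := ps_cmp (by norm_num) (by omega)
    push_cast at e5
    calc ps M * ps (dm R) ≤ ps (ds b u) * (3 ^ 2 * ps M') :=
          mul_le_mul e4 e5 (ps_pos _).le p1.le
      _ = 9 * (ps (ds b u) * ps M') := by ring
      _ ≤ _ := mul_le_mul_of_nonneg_right (by norm_num) (mul_pos p1 p2).le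

/-- MERGE: union of two sets at distance `t + 1`. -/
theorem merge (a : ℝ) (t k k' : ℕ) (U R : Finset Edg) (x b u : Edg) (ha : 36 ≤ a)
    (hx : x ∈ U) (hu : u ∈ U) (hb : b ∈ R) (hbu : ds b u ≤ t + 1)
    (hfar : ∀ v ∈ U, ∀ w ∈ R, t < ds v w)
    (hGU : Good V B Q False t (t + 1) (max (t + 1) (dm U)) a k U x)
    (hGR : Good V B Q False t (t + 1) (max t (dm R)) a k' R b) :
    Good V B Q True t (t + 1) (max (t + 1) (dm (U ∪ R))) a (k + k' + 1) (U ∪ R) x := by
  classical
  obtain ⟨EU, pU, rU, u1, u2, u3, u4⟩ := hGU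
  obtain ⟨ER, pR, rR, w1, w2, w3, w4⟩ := hGR
  have hdis : ∀ v ∈ U, v ∉ R := by
    intro v hv hv'
    have h1 := hfar v hv v hv'
    have h2 : ds v v = 0 := ds_self v
    omega
  have hUR : Disjoint U R := Finset.disjoint_left.2 hdis
  have hnbU : ∀ e ∈ nb U (t / 2), ∃ v ∈ U, ds e v ≤ t / 2 := by
    intro e he
    unfold nb at he
    obtain ⟨v, hv, h1⟩ := mem_biUnion.1 he
    exact ⟨v, hv, mem_blk_pos h1⟩
  have hnbR : ∀ e ∈ nb R (t / 2), ∃ v ∈ R, ds e v ≤ t / 2 := by
    intro e he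
    unfold nb at he
    obtain ⟨v, hv, h1⟩ := mem_biUnion.1 he
    exact ⟨v, hv, mem_blk_pos h1⟩
  have hsubU : nb U (t / 2) \ U ⊆ nb (U ∪ R) (t / 2) \ (U ∪ R) := by
    intro e he
    rw [mem_sdiff] at he ⊢
    obtain ⟨v, hv, h1⟩ := hnbU e he.1
    refine ⟨?_, ?_⟩
    · unfold nb at he ⊢
      exact Finset.biUnion_subset_biUnion_of_subset_left _ subset_union_left he.1
    · rw [mem_union]
      rintro (h | h)
      · exact he.2 h
      · have h2 := hfar v hv e h
        rw [ds_comm] at h2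
        omega
  have hsubR : nb R (t / 2) \ R ⊆ nb (U ∪ R) (t / 2) \ (U ∪ R) := by
    intro e he
    rw [mem_sdiff] at he ⊢
    obtain ⟨v, hv, h1⟩ := hnbR e he.1
    refine ⟨?_, ?_⟩
    · unfold nb at he ⊢
      exact Finset.biUnion_subset_biUnion_of_subset_left _ subset_union_right he.1
    · rw [mem_union]
      rintro (h | h)
      · have h2 := hfar e h v hv
        omega
      · exact he.2 h
  have hdreg : Disjoint (nb U (t / 2) \ U) (nb R (t / 2) \ R) := by
    rw [Finset.disjoint_left]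
    intro e he he'
    obtain ⟨v, hv, h1⟩ := hnbU e (mem_sdiff.1 he).1
    obtain ⟨w, hw, h2⟩ := hnbR e (mem_sdiff.1 he').1
    have h3 := hfar v hv w hw
    have h4 := ds_tri v e w
    rw [ds_comm v e] at h4
    omega
  have hres : ∀ {A B : Finset Edg}, A ⊆ B → ∀ {F F' : Finset Edg}, F ∩ B = F' ∩ B →
      F ∩ A = F' ∩ A := by
    intro A B hAB F F' h
    have e1 : F ∩ A = (F ∩ B) ∩ A := by
      rw [Finset.inter_assoc, Finset.inter_eq_right.mpr hAB]
    have e2 : F' ∩ A = (F' ∩ B) ∩ A := by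
      rw [Finset.inter_assoc, Finset.inter_eq_right.mpr hAB]
    rw [e1, e2, h]
  refine ⟨fun F => EU F ∧ ER F, fun y => if y ∈ U then pU y else if y = b then u else pR y,
    fun y => if y ∈ U then rU y else rR y + rU u + 1, ?_, ?_, ?_, ?_⟩
  · intro F F' hFF
    exact and_congr (u1 F F' (hres hsubU hFF)) (w1 F F' (hres hsubR hFF))
  · intro S' hS' hS'n _ hS'd F hF hQ
    refine ⟨u2 S' (subset_union_left.trans hS') hS'n (Or.inr ?_) ?_ F hF hQ,
      w2 S' (subset_union_right.trans hS') hS'n (Or.inr ?_) ?_ F hF hQ⟩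
    · intro h
      exact hdis b (h ▸ hS' (mem_union_right _ hb)) hb
    · intro v hv w hw
      by_cases hwR : w ∈ R
      · exact hfar v hv w hwR
      · refine hS'd v (mem_union_left _ hv) w ?_
        rw [mem_sdiff] at hw ⊢
        refine ⟨hw.1, ?_⟩
        rw [mem_union]
        rintro (h | h)
        · exact hw.2 h
        · exact hwR h
    · intro h
      exact hdis x hx (h ▸ hS' (mem_union_left _ hx))
    · intro v hv w hw
      by_cases hwU : w ∈ U
      · rw [ds_comm]
        exact hfar w hwU v hv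
      · refine hS'd v (mem_union_right _ hv) w ?_
        rw [mem_sdiff] at hw ⊢
        refine ⟨hw.1, ?_⟩
        rw [mem_union]
        rintro (h | h)
        · exact hwU h
        · exact hw.2 h
  · intro y hy hyx
    by_cases hyU : y ∈ U
    · obtain ⟨g1, g2, g3⟩ := u3 y hyU hyx
      simp only [if_pos hyU, if_pos g1]
      exact ⟨mem_union_left _ g1, g2, g3⟩
    · have hyR : y ∈ R := (mem_union.1 hy).resolve_left hyU
      by_cases hyb : y = b
      · simp only [if_neg hyU, if_pos hyb, if_pos hu]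
        refine ⟨mem_union_left _ hu, by omega, ?_⟩
        rw [hyb]
        exact hbu
      · obtain ⟨g1, g2, g3⟩ := w3 y hyR hyb
        have g4 : pR y ∉ U := fun h => hdis _ h g1
        simp only [if_neg hyU, if_neg hyb, if_neg g4]
        exact ⟨mem_union_right _ g1, by omega, g3⟩
  · -- the probability
    have ha0 : 0 ≤ a := by linarith
    have hind : PQ (1 / 2) V (fun F => EU F ∧ ER F) =
        PQ (1 / 2) V EU * PQ (1 / 2) V ER := by
      unfold PQ
      refine Pr_indep (S := (nb U (t / 2) \ U) ∩ V) (T := (nb R (t / 2) \ R) ∩ V)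
        inter_subset_right inter_subset_right ?_ ?_ ?_
      · exact hdreg.mono inter_subset_left inter_subset_left
      · intro F hF
        apply u1
        ext e
        simp only [mem_inter]
        constructor
        · rintro ⟨h1, h2⟩
          exact ⟨⟨h1, h2, hF h1⟩, h2⟩
        · rintro ⟨⟨h1, -⟩, h2⟩
          exact ⟨h1, h2⟩
      · intro F hF
        apply w1
        ext e
        simp only [mem_inter]
        constructor
        · rintro ⟨h1, h2⟩
          exact ⟨⟨h1, h2, hF h1⟩, h2⟩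
        · rintro ⟨⟨h1, -⟩, h2⟩
          exact ⟨h1, h2⟩
    rw [hind]
    obtain ⟨PU, hPU⟩ : ∃ PU : ℝ, PU = ∏ y ∈ U.erase x, ps (ds y (pU y)) := ⟨_, rfl⟩
    obtain ⟨PR, hPR⟩ : ∃ PR : ℝ, PR = ∏ y ∈ R.erase b, ps (ds y (pR y)) := ⟨_, rfl⟩
    have hPU0 : 0 ≤ PU := by rw [hPU]; exact (prod_ps_pos _ _).le
    have hPR0 : 0 ≤ PR := by rw [hPR]; exact (prod_ps_pos _ _).le
    have hprod : (∏ y ∈ (U ∪ R).erase x,
        ps (ds y (if y ∈ U then pU y else if y = b then u else pR y))) =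
        PU * (ps (ds b u) * PR) := by
      have e1 : (U ∪ R).erase x = (U.erase x) ∪ R := by
        rw [Finset.erase_union_distrib, Finset.erase_eq_of_notMem (hdis x hx)]
      have e2 : Disjoint (U.erase x) R := hUR.mono_left (Finset.erase_subset _ _)
      rw [e1, Finset.prod_union e2, hPU]
      congr 1
      · apply Finset.prod_congr rfl
        intro y hy
        rw [if_pos (Finset.mem_of_mem_erase hy)]
      · rw [← Finset.mul_prod_erase R _ hb, hPR]
        have hbU : b ∉ U := fun h => hdis b h hb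
        rw [if_neg hbU, if_pos rfl]
        congr 1
        apply Finset.prod_congr rfl
        intro y hy
        rw [if_neg (fun h => hdis y h (Finset.mem_of_mem_erase hy)),
          if_neg (Finset.ne_of_mem_erase hy)]
    rw [hprod]
    rw [← hPU] at u4
    rw [← hPR] at w4
    have hmp := merge_ps hu hb hbu
    have z1 := (ps_pos (max (t + 1) (dm U))).le
    have z2 := (ps_pos (max t (dm R))).le
    have z3 := (ps_pos (ds b u)).le
    have z4 := (ps_pos (max (t + 1) (dm (U ∪ R)))).le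
    have z5 : 0 ≤ PQ (1 / 2) V ER := Pr_nonneg (fun e => by norm_num) _ _
    have hak : 0 ≤ a ^ k := pow_nonneg ha0 _
    have hak' : 0 ≤ a ^ k' := pow_nonneg ha0 _
    calc PQ (1 / 2) V EU * PQ (1 / 2) V ER ≤
          (a ^ k * PU * ps (max (t + 1) (dm U))) *
            (a ^ k' * PR * ps (max t (dm R))) :=
          mul_le_mul u4 w4 z5 (by positivity)
      _ = a ^ k * a ^ k' * PU * PR *
            (ps (max (t + 1) (dm U)) * ps (max t (dm R))) := by ring
      _ ≤ a ^ k * a ^ k' * PU * PR *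
            (36 * (ps (ds b u) * ps (max (t + 1) (dm (U ∪ R))))) :=
          mul_le_mul_of_nonneg_left hmp (by positivity)
      _ ≤ a ^ k * a ^ k' * PU * PR *
            (a * (ps (ds b u) * ps (max (t + 1) (dm (U ∪ R))))) := by
          apply mul_le_mul_of_nonneg_left _ (by positivity)
          exact mul_le_mul_of_nonneg_right ha (mul_nonneg z3 z4)
      _ = _ := by rw [pow_succ, pow_add]; ring

/-- OUT: the annulus around `S`. -/
theorem out (hs : Sys V B N C Q) (a : ℝ) (t t' k : ℕ) (S : Finset Edg) (x : Edg)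
    (ha : 144 * C ≤ a) (ht : t + 1 ≤ t') (ht' : t' ≤ N) (hS : S ⊆ B) (hx : x ∈ S)
    (hG : Good V B Q False t (t + 1) (max (t + 1) (dm S)) a k S x) :
    Good V B Q False t' (t + 1) (max t' (dm S)) a (k + 1) S x := by
  classical
  have hC1 := hs.one_le
  have ha0 : 0 ≤ a := by linarith
  obtain ⟨Ev, par, rk, g1, g2, g3, g4⟩ := hG
  set s : ℕ := max (t + 1) (dm S) with hs'
  have hs1 : 1 ≤ s := le_trans (by omega) (le_max_left _ _)
  set r : ℕ := dm S + t + 2 with hr
  set D : ℕ := t' / 2 with hD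
  have hprod : 0 ≤ a ^ k * (∏ y ∈ S.erase x, ps (ds y (par y))) :=
    mul_nonneg (pow_nonneg ha0 k) (prod_ps_pos _ _).le
  have hnbm : ∀ {i j : ℕ}, i ≤ j → nb S i ⊆ nb S j := by
    intro i j hij
    unfold nb
    apply Finset.biUnion_mono
    intro e _
    apply blk_sub <;> simp <;> omega
  have hloc : ∀ F F' : Finset Edg, F ∩ (nb S (t' / 2) \ S) = F' ∩ (nb S (t' / 2) \ S) →
      (Ev F ↔ Ev F') := by
    intro F F' hFF
    apply g1
    have hsub : nb S (t / 2) \ S ⊆ nb S (t' / 2) \ S :=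
      Finset.sdiff_subset_sdiff (hnbm (by omega)) le_rfl
    have e1 : F ∩ (nb S (t / 2) \ S) = (F ∩ (nb S (t' / 2) \ S)) ∩ (nb S (t / 2) \ S) := by
      rw [Finset.inter_assoc, Finset.inter_eq_right.mpr hsub]
    have e2 : F' ∩ (nb S (t / 2) \ S) = (F' ∩ (nb S (t' / 2) \ S)) ∩ (nb S (t / 2) \ S) := by
      rw [Finset.inter_assoc, Finset.inter_eq_right.mpr hsub]
    rw [e1, e2, hFF]
  rcases le_or_gt r D with hrD | hrD
  · have hDt : D ≤ t' := Nat.div_le_self _ _
    obtain ⟨Ch, c1, c2, c3⟩ := hs.loc x r D (hS hx) (by omega) hrD (hDt.trans ht')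
    have hr1 : 1 ≤ r := by omega
    have hD1 : 1 ≤ D := by omega
    have hSb : S ⊆ blk (pos x) r := by
      intro e he
      apply mem_blk_of
      have := ds_le_dm he hx
      omega
    have hnbb : nb S (t / 2) ⊆ blk (pos x) r := by
      unfold nb
      rw [Finset.biUnion_subset]
      intro e he
      have := ds_le_dm he hx
      unfold ds at this
      apply blk_sub <;> simp only [pos] <;> omega
    have hbig : blk (pos x) D ⊆ nb S (t' / 2) :=
      Finset.subset_biUnion_of_mem (fun e => blk (pos e) (t' / 2)) hx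
    have hreg : blk (pos x) D \ blk (pos x) r ⊆ nb S (t' / 2) \ S := by
      intro e he
      obtain ⟨he1, he2⟩ := mem_sdiff.mp he
      exact mem_sdiff.mpr ⟨hbig he1, fun h => he2 (hSb h)⟩
    refine ⟨fun F => Ev F ∧ Ch F, par, rk, ?_, ?_, g3, ?_⟩
    · intro F F' hFF
      have e1 := hloc F F' hFF
      have e2 : Ch F ↔ Ch F' := by
        apply c1
        have e1 : F ∩ (blk (pos x) D \ blk (pos x) r) =
            (F ∩ (nb S (t' / 2) \ S)) ∩ (blk (pos x) D \ blk (pos x) r) := by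
          rw [Finset.inter_assoc, Finset.inter_eq_right.mpr hreg]
        have e2 : F' ∩ (blk (pos x) D \ blk (pos x) r) =
            (F' ∩ (nb S (t' / 2) \ S)) ∩ (blk (pos x) D \ blk (pos x) r) := by
          rw [Finset.inter_assoc, Finset.inter_eq_right.mpr hreg]
        rw [e1, e2, hFF]
      exact and_congr e1 e2
    · intro S' hSS' hS'b hne hfar F hF hQ
      have hne' : S' ≠ S := hne.resolve_left (fun h => h)
      refine ⟨g2 S' hSS' hS'b (Or.inr hne') (fun v hv w hw => ?_) F hF hQ, ?_⟩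
      · have := hfar v hv w hw
        omega
      · have hex : ∃ w ∈ S', w ∉ S := by
          by_contra hcon
          push Not at hcon
          exact hne' (Finset.Subset.antisymm hcon hSS')
        obtain ⟨w, hw, hwS⟩ := hex
        refine c2 S' F hS'b hF hQ (hSS' hx) ⟨w, hw, ?_⟩ ?_
        · intro hwb
          have h1 := hfar x hx w (Finset.mem_sdiff.2 ⟨hw, hwS⟩)
          have h2 := mem_blk_pos hwb
          rw [ds_comm] at h2
          omega
        · rw [Finset.disjoint_left]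
          intro e he he'
          rw [Finset.mem_sdiff] at he'
          by_cases h5 : e ∈ S
          · exact he'.2 (hSb h5)
          · have h6 := hfar x hx e (Finset.mem_sdiff.2 ⟨he, h5⟩)
            have h7 := mem_blk_pos he'.1
            rw [ds_comm] at h7
            omega
    · have hind : PQ (1 / 2) V (fun F => Ev F ∧ Ch F) =
          PQ (1 / 2) V Ev * PQ (1 / 2) V Ch := by
        unfold PQ
        refine Pr_indep (S := (nb S (t / 2) \ S) ∩ V)
          (T := (blk (pos x) D \ blk (pos x) r) ∩ V) inter_subset_right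
          inter_subset_right ?_ ?_ ?_
        · rw [Finset.disjoint_left]
          intro e he1 he2
          exact (mem_sdiff.mp (mem_inter.mp he2).1).2
            (hnbb (mem_sdiff.mp (mem_inter.mp he1).1).1)
        · intro F hF
          apply g1
          ext e
          simp only [mem_inter]
          constructor
          · rintro ⟨h1, h2⟩
            exact ⟨⟨h1, h2, hF h1⟩, h2⟩
          · rintro ⟨⟨h1, -⟩, h2⟩
            exact ⟨h1, h2⟩
        · intro F hF
          apply c1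
          ext e
          simp only [mem_inter]
          constructor
          · rintro ⟨h1, h2⟩
            exact ⟨⟨h1, h2, hF h1⟩, h2⟩
          · rintro ⟨⟨h1, -⟩, h2⟩
            exact ⟨h1, h2⟩
      rw [hind]
      have hr3 : r ≤ 3 * s := by
        rw [hs', hr]; omega
      have hmax : max t' (dm S) = t' := by
        apply max_eq_left
        omega
      rw [hmax, pow_succ]
      have u1 : ps s ≤ ((3:ℕ):ℝ) ^ 2 * ps r := ps_cmp (by norm_num) (by omega)
      have u2 : ps D ≤ ((4:ℕ):ℝ) ^ 2 * ps t' := ps_cmp (by norm_num) (by omega)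
      have u3 := ps_mul hr1 hrD
      push_cast at u1 u2
      have q0 : 0 ≤ ((r:ℝ) / D) ^ (5 / 4 : ℝ) := Real.rpow_nonneg (by positivity) _
      calc PQ (1 / 2) V Ev * PQ (1 / 2) V Ch
          ≤ (a ^ k * (∏ y ∈ S.erase x, ps (ds y (par y))) * ps s) *
            (C * ((r:ℝ) / D) ^ (5 / 4 : ℝ)) :=
            mul_le_mul g4 c3 (Pr_nonneg okh _ _) (mul_nonneg hprod (ps_pos _).le)
        _ = a ^ k * (∏ y ∈ S.erase x, ps (ds y (par y))) *
            (C * (ps s * ((r:ℝ) / D) ^ (5 / 4 : ℝ))) := by ring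
        _ ≤ a ^ k * (∏ y ∈ S.erase x, ps (ds y (par y))) *
            (C * ((3 ^ 2 * ps r) * ((r:ℝ) / D) ^ (5 / 4 : ℝ))) := by
            apply mul_le_mul_of_nonneg_left _ hprod
            apply mul_le_mul_of_nonneg_left _ (by linarith)
            exact mul_le_mul_of_nonneg_right u1 q0
        _ = a ^ k * (∏ y ∈ S.erase x, ps (ds y (par y))) * (9 * C * ps D) := by
            rw [← u3]; ring
        _ ≤ a ^ k * (∏ y ∈ S.erase x, ps (ds y (par y))) * (9 * C * (4 ^ 2 * ps t')) := by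
            apply mul_le_mul_of_nonneg_left _ hprod
            exact mul_le_mul_of_nonneg_left u2 (by linarith)
        _ = a ^ k * (∏ y ∈ S.erase x, ps (ds y (par y))) * ((144 * C) * ps t') := by ring
        _ ≤ a ^ k * (∏ y ∈ S.erase x, ps (ds y (par y))) * (a * ps t') := by
            apply mul_le_mul_of_nonneg_left _ hprod
            exact mul_le_mul_of_nonneg_right ha (ps_pos _).le
        _ = a ^ k * a * (∏ y ∈ S.erase x, ps (ds y (par y))) * ps t' := by ring
  · refine ⟨Ev, par, rk, hloc, ?_, g3, ?_⟩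
    · intro S' hSS' hS' hne hfar F hF hQ
      refine g2 S' hSS' hS' hne (fun v hv w hw => ?_) F hF hQ
      have := hfar v hv w hw
      omega
    · have u2 : ps s ≤ ((7:ℕ):ℝ) ^ 2 * ps (max t' (dm S)) := ps_cmp (by norm_num) (by omega)
      push_cast at u2
      rw [pow_succ]
      calc PQ (1 / 2) V Ev
          ≤ a ^ k * (∏ y ∈ S.erase x, ps (ds y (par y))) * ps s := g4
        _ ≤ a ^ k * (∏ y ∈ S.erase x, ps (ds y (par y))) * (7 ^ 2 * ps (max t' (dm S))) :=
            mul_le_mul_of_nonneg_left u2 hprod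
        _ ≤ a ^ k * (∏ y ∈ S.erase x, ps (ds y (par y))) * (a * ps (max t' (dm S))) := by
            apply mul_le_mul_of_nonneg_left _ hprod
            exact mul_le_mul_of_nonneg_right (by linarith) (ps_pos _).le
        _ = a ^ k * a * (∏ y ∈ S.erase x, ps (ds y (par y))) * ps (max t' (dm S)) := by ring

end

end Pool.Agent.U167.AL
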