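import Pool.Agent.U167.AL.Unif
import Pool.Agent.Y554.NC.Theta

/-!
The probability in infinite volume that the end points of an edge are connected by a path which
does not use this edge, as a function of the parameter, and its expansion at `1 / 2`.
-/

set_option autoImplicit false
set_option maxHeartbeats 1000000

namespace Pool.Agent.U167.AL

open H974 H12S Finset Filter Topology

/-- the probability in the box of radius `M` (parameters outside `[0, 1]` are projected) -/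
noncomputable def gM (M : ℕ) (q : ℝ) : ℝ := PQ (max 0 (min 1 q)) (boxE M) Ac

theorem cl_mem (q : ℝ) : 0 ≤ max 0 (min 1 q) ∧ max 0 (min 1 q) ≤ 1 :=
  ⟨le_max_left _ _, max_le zero_le_one (min_le_left _ _)⟩

theorem cl_id {q : ℝ} (h0 : 0 ≤ q) (h1 : q ≤ 1) : max 0 (min 1 q) = q := by
  rw [min_eq_right h1, max_eq_right h0]

theorem gM_id {M : ℕ} {q : ℝ} (h0 : 0 ≤ q) (h1 : q ≤ 1) : gM M q = PQ q (boxE M) Ac := by
  unfold gM
  rw [cl_id h0 h1]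

theorem gM_cont (M : ℕ) : Continuous (gM M) := by
  unfold gM PQ Pr Ex
  fun_prop

theorem gM_bd (M : ℕ) (q : ℝ) : 0 ≤ gM M q ∧ gM M q ≤ 1 := by
  obtain ⟨h0, h1⟩ := cl_mem q
  exact ⟨Pr_nonneg (okq h0 h1) _ _, Pr_le_one (okq h0 h1) _ _⟩

/-- uniform Cauchy property -/
theorem gM_cauchy : ∀ ε : ℝ, 0 < ε → ∃ n0 : ℕ, 1 ≤ n0 ∧ ∀ M M' : ℕ, n0 ≤ M → n0 ≤ M' → ∀ q : ℝ,
    |gM M q - gM M' q| ≤ ε := by
  intro ε hε
  obtain ⟨n0, hn0, h⟩ := e4_unif ε hε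
  refine ⟨n0, hn0, ?_⟩
  intro M M' hM hM' q
  obtain ⟨h0, h1⟩ := cl_mem q
  refine (change (okq h0 h1) (okq h0 h1) hn0 (boxE_mono hM) (boxE_mono hM')
    (fun _ _ => rfl)).trans ?_
  exact h n0 le_rfl _ h0 h1

/-- the limit -/
theorem hf_ex : ∃ h : ℝ → ℝ, ∀ ε : ℝ, 0 < ε → ∃ n0 : ℕ, 1 ≤ n0 ∧ ∀ M : ℕ, n0 ≤ M → ∀ q : ℝ,
    |gM M q - h q| ≤ ε := by
  have hc : ∀ q : ℝ, ∃ l : ℝ, Tendsto (fun M => gM M q) atTop (𝓝 l) := by
    intro q
    apply cauchySeq_tendsto_of_complete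
    rw [Metric.cauchySeq_iff]
    intro ε hε
    obtain ⟨n0, -, h⟩ := gM_cauchy (ε / 2) (by linarith)
    refine ⟨n0, fun m hm n hn => ?_⟩
    rw [Real.dist_eq]
    have := h m n hm hn q
    linarith
  choose h hh using hc
  refine ⟨h, fun ε hε => ?_⟩
  obtain ⟨n0, hn0, h1⟩ := gM_cauchy ε hε
  refine ⟨n0, hn0, fun M hM q => ?_⟩
  have h2 : Tendsto (fun M' => |gM M q - gM M' q|) atTop (𝓝 |gM M q - h q|) :=
    ((tendsto_const_nhds).sub (hh q)).abs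
  exact le_of_tendsto h2 (eventually_atTop.2 ⟨n0, fun M' hM' => h1 M M' hM hM' q⟩)

/-- the limit function -/
noncomputable def hf : ℝ → ℝ := hf_ex.choose

theorem hf_spec : ∀ ε : ℝ, 0 < ε → ∃ n0 : ℕ, 1 ≤ n0 ∧ ∀ M : ℕ, n0 ≤ M → ∀ q : ℝ,
    |gM M q - hf q| ≤ ε := hf_ex.choose_spec

theorem hf_tendsto (q : ℝ) : Tendsto (fun M => gM M q) atTop (𝓝 (hf q)) := by
  rw [Metric.tendsto_atTop]
  intro ε hε
  obtain ⟨n0, -, h⟩ := hf_spec (ε / 2) (by linarith)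
  refine ⟨n0, fun n hn => ?_⟩
  rw [Real.dist_eq]
  have := h n hn q
  linarith

theorem hf_cont : Continuous hf := by
  have h1 : TendstoUniformly gM hf atTop := by
    rw [Metric.tendstoUniformly_iff]
    intro ε hε
    obtain ⟨n0, -, h⟩ := hf_spec (ε / 2) (by linarith)
    refine eventually_atTop.2 ⟨n0, fun n hn q => ?_⟩
    rw [Real.dist_eq, abs_sub_comm]
    have := h n hn q
    linarith
  exact h1.continuous (Eventually.of_forall gM_cont).frequently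

theorem hf_bd (q : ℝ) : 0 ≤ hf q ∧ hf q ≤ 1 :=
  ⟨ge_of_tendsto' (hf_tendsto q) (fun M => (gM_bd M q).1),
    le_of_tendsto' (hf_tendsto q) (fun M => (gM_bd M q).2)⟩

/-- Expansion in finite volume. -/
theorem expand_fin : ∃ β C : ℝ, 0 < β ∧ β ≤ 1 / 4 ∧ 1 ≤ C ∧ ∀ (M n : ℕ) (t : ℝ), 1 ≤ n →
    5 * n ≤ M → |t| ≤ β * (n:ℝ) ^ (-(3 / 4) : ℝ) →
    |gM M (1 / 2 + t) - gM M (1 / 2) - t * cD M n| ≤
      C * (t ^ 2 * (n:ℝ) ^ (1 / 4 : ℝ)) + C * (n:ℝ) ^ (-(5 / 4) : ℝ) := by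
  obtain ⟨C1, hC1, h1⟩ := qbound
  obtain ⟨b, C2, hb, hb4, hC2, h2⟩ := tbound
  refine ⟨min b (1 / C1), max C1 C2, lt_min hb (by positivity), (min_le_left _ _).trans hb4,
    hC1.trans (le_max_left _ _), ?_⟩
  intro M n t hn hM ht
  have hnr : (1:ℝ) ≤ n := by exact_mod_cast hn
  have hn0 : (0:ℝ) < n := by linarith
  have hp : 0 < (n:ℝ) ^ (-(3 / 4) : ℝ) := by positivity
  have hp1 : (n:ℝ) ^ (-(3 / 4) : ℝ) ≤ 1 := Real.rpow_le_one_of_one_le_of_nonpos hnr (by norm_num)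
  have t1 : |t| ≤ b * (n:ℝ) ^ (-(3 / 4) : ℝ) :=
    ht.trans (mul_le_mul_of_nonneg_right (min_le_left _ _) hp.le)
  have t2 : |t| ≤ 1 / C1 * (n:ℝ) ^ (-(3 / 4) : ℝ) :=
    ht.trans (mul_le_mul_of_nonneg_right (min_le_right _ _) hp.le)
  have t3 : C1 * |t| * (n:ℝ) ^ (3 / 4 : ℝ) ≤ 1 := by
    have e : (n:ℝ) ^ (-(3 / 4) : ℝ) * (n:ℝ) ^ (3 / 4 : ℝ) = 1 := by
      rw [← Real.rpow_add hn0]
      norm_num
    calc C1 * |t| * (n:ℝ) ^ (3 / 4 : ℝ) ≤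
          C1 * (1 / C1 * (n:ℝ) ^ (-(3 / 4) : ℝ)) * (n:ℝ) ^ (3 / 4 : ℝ) := by
          apply mul_le_mul_of_nonneg_right _ (by positivity)
          exact mul_le_mul_of_nonneg_left t2 (by linarith)
      _ = (n:ℝ) ^ (-(3 / 4) : ℝ) * (n:ℝ) ^ (3 / 4 : ℝ) := by field_simp
      _ = 1 := e
  have t4 : |t| ≤ 1 / 4 := by
    calc |t| ≤ b * (n:ℝ) ^ (-(3 / 4) : ℝ) := t1
      _ ≤ (1 / 4) * 1 := mul_le_mul hb4 hp1 hp.le (by norm_num)
      _ = 1 / 4 := mul_one _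
  have t5 := t4
  rw [abs_le] at t5
  have k1 := h1 M n t hn hM t3
  have k2 := h2 M n t hn (by omega) t1
  have e1 : gM M (1 / 2 + t) = PQ (1 / 2 + t) (boxE M) Ac :=
    gM_id (by linarith) (by linarith)
  have e2 : gM M (1 / 2) = Ex (fun _ : Edg => (1 / 2 : ℝ)) (boxE M) fA :=
    gM_id (by norm_num) (by norm_num)
  rw [e1, e2]
  have hx : 0 ≤ t ^ 2 * (n:ℝ) ^ (1 / 4 : ℝ) := by positivity
  have hy : 0 ≤ (n:ℝ) ^ (-(5 / 4) : ℝ) := by positivity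
  have l1 : C1 * (t ^ 2 * (n:ℝ) ^ (1 / 4 : ℝ)) ≤ max C1 C2 * (t ^ 2 * (n:ℝ) ^ (1 / 4 : ℝ)) :=
    mul_le_mul_of_nonneg_right (le_max_left _ _) hx
  have l2 : C2 * (n:ℝ) ^ (-(5 / 4) : ℝ) ≤ max C1 C2 * (n:ℝ) ^ (-(5 / 4) : ℝ) :=
    mul_le_mul_of_nonneg_right (le_max_right _ _) hy
  obtain ⟨a1, a2⟩ := abs_le.1 k1
  obtain ⟨a3, a4⟩ := abs_le.1 k2
  rw [abs_le]
  constructor <;> linarith

/-- limits of bounded sequences along the hyperfilter -/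
theorem ulim (x : ℕ → ℝ) (K : ℝ) (h : ∀ᶠ n in atTop, |x n| ≤ K) :
    ∃ l : ℝ, Tendsto x (hyperfilter ℕ : Filter ℕ) (𝓝 l) := by
  have h1 : Set.Icc (-K) K ∈ ((hyperfilter ℕ).map x : Filter ℝ) := by
    have h2 : ∀ᶠ n in (hyperfilter ℕ : Filter ℕ), |x n| ≤ K := by
      have h3 : (hyperfilter ℕ : Filter ℕ) ≤ atTop := by
        rw [← Nat.cofinite_eq_atTop]
        exact hyperfilter_le_cofinite
      exact h.filter_mono h3
    have h4 : ∀ᶠ n in (hyperfilter ℕ : Filter ℕ), x n ∈ Set.Icc (-K) K :=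
      h2.mono (fun n hn => abs_le.1 hn)
    exact h4
  obtain ⟨l, -, hl⟩ := isCompact_Icc.ultrafilter_le_nhds ((hyperfilter ℕ).map x)
    (le_principal_iff.2 h1)
  exact ⟨l, hl⟩

/-- Expansion in infinite volume. -/
theorem expand_inf : ∃ h1 C : ℝ, 1 ≤ C ∧ ∀ t : ℝ, |t| ≤ 1 / 2 →
    |hf (1 / 2 + t) - hf (1 / 2) - h1 * t| ≤ C * |t| ^ (5 / 3 : ℝ) := by
  obtain ⟨β, C1, hβ, hβ4, hC1, hexp⟩ := expand_fin
  obtain ⟨C2, hC2, hD⟩ := dbound
  obtain ⟨C3, hC3, hcf⟩ := cf_bound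
  have hU : (hyperfilter ℕ : Filter ℕ) ≤ atTop := by
    rw [← Nat.cofinite_eq_atTop]
    exact hyperfilter_le_cofinite
  -- the sums of the linear coefficients
  have hbd1 : ∀ M : ℕ, 2 ≤ M → |cD M 1| ≤ (boxE 1).card * C3 := by
    intro M hM
    unfold cD
    refine (abs_sum_le_sum_abs _ _).trans ?_
    rw [← nsmul_eq_mul, ← sum_const]
    apply sum_le_sum
    intro s hs
    refine (hcf M 1 s le_rfl (by omega) hs).trans ?_
    have h1 := ps_le_one (Pool.Agent.Y554.NE.ds s eo)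
    have h2 := ps_pos (Pool.Agent.Y554.NE.ds s eo)
    have h3 : (ps (Pool.Agent.Y554.NE.ds s eo)) ^ 2 ≤ 1 := by nlinarith
    nlinarith
  have hd : ∀ n : ℕ, ∃ l : ℝ, 1 ≤ n → Tendsto (fun M => cD M n) (hyperfilter ℕ : Filter ℕ) (𝓝 l) := by
    intro n
    by_cases hn : 1 ≤ n
    · obtain ⟨l, hl⟩ := ulim (fun M => cD M n) ((boxE 1).card * C3 + C2) (by
        refine eventually_atTop.2 ⟨2 * n, fun M hM => ?_⟩
        have h1 := hbd1 M (by omega)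
        have h2 := hD M n 1 le_rfl hn hM
        rw [Nat.cast_one, Real.one_rpow, mul_one] at h2
        have e : cD M n = (cD M n - cD M 1) + cD M 1 := by ring
        rw [e]
        refine (abs_add_le _ _).trans ?_
        linarith)
      exact ⟨l, fun _ => hl⟩
    · exact ⟨0, fun h => absurd h hn⟩
  choose d hd using hd
  have hdd : ∀ m n : ℕ, 1 ≤ n → n ≤ m → |d m - d n| ≤ C2 * (n:ℝ) ^ (-(1 / 2) : ℝ) := by
    intro m n hn hnm
    have h1 : Tendsto (fun M => |cD M m - cD M n|) (hyperfilter ℕ : Filter ℕ) (𝓝 |d m - d n|) :=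
      ((hd m (by omega)).sub (hd n hn)).abs
    refine le_of_tendsto h1 ?_
    exact (eventually_atTop.2 ⟨2 * m, fun M hM => hD M m n hn hnm hM⟩ :
      ∀ᶠ M in atTop, |cD M m - cD M n| ≤ C2 * (n:ℝ) ^ (-(1 / 2) : ℝ)).filter_mono hU
  have hpow0 : Tendsto (fun n : ℕ => C2 * (n:ℝ) ^ (-(1 / 2) : ℝ)) atTop (𝓝 0) := by
    have h1 : Tendsto (fun n : ℕ => (n:ℝ) ^ (-(1 / 2) : ℝ)) atTop (𝓝 0) :=
      (tendsto_rpow_neg_atTop (show (0:ℝ) < 1 / 2 by norm_num)).comp tendsto_natCast_atTop_atTop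
    simpa using h1.const_mul C2
  obtain ⟨h1, hh1⟩ : ∃ h1 : ℝ, Tendsto d atTop (𝓝 h1) := by
    apply cauchySeq_tendsto_of_complete
    rw [Metric.cauchySeq_iff']
    intro ε hε
    obtain ⟨N, hN⟩ := eventually_atTop.1 (hpow0.eventually (gt_mem_nhds hε))
    refine ⟨max N 1, fun n hn => ?_⟩
    rw [Real.dist_eq]
    exact (hdd n (max N 1) (le_max_right _ _) hn).trans_lt (hN _ (le_max_left _ _))
  have hdn : ∀ n : ℕ, 1 ≤ n → |h1 - d n| ≤ C2 * (n:ℝ) ^ (-(1 / 2) : ℝ) := by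
    intro n hn
    have h2 : Tendsto (fun m => |d m - d n|) atTop (𝓝 |h1 - d n|) :=
      (hh1.sub tendsto_const_nhds).abs
    exact le_of_tendsto h2 (eventually_atTop.2 ⟨n, fun m hm => hdd m n hn hm⟩)
  have hex : ∀ (n : ℕ) (t : ℝ), 1 ≤ n → |t| ≤ β * (n:ℝ) ^ (-(3 / 4) : ℝ) →
      |hf (1 / 2 + t) - hf (1 / 2) - t * d n| ≤
        C1 * (t ^ 2 * (n:ℝ) ^ (1 / 4 : ℝ)) + C1 * (n:ℝ) ^ (-(5 / 4) : ℝ) := by
    intro n t hn ht
    have h2 : Tendsto (fun M => |gM M (1 / 2 + t) - gM M (1 / 2) - t * cD M n|)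
        (hyperfilter ℕ : Filter ℕ) (𝓝 |hf (1 / 2 + t) - hf (1 / 2) - t * d n|) :=
      ((((hf_tendsto _).mono_left hU).sub ((hf_tendsto _).mono_left hU)).sub
        ((hd n hn).const_mul t)).abs
    refine le_of_tendsto h2 ?_
    exact (eventually_atTop.2 ⟨5 * n, fun M hM => hexp M n t hn hM ht⟩ :
      ∀ᶠ M in atTop, |gM M (1 / 2 + t) - gM M (1 / 2) - t * cD M n| ≤
        C1 * (t ^ 2 * (n:ℝ) ^ (1 / 4 : ℝ)) + C1 * (n:ℝ) ^ (-(5 / 4) : ℝ)).filter_mono hU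
  -- the constant
  obtain ⟨K, hK⟩ : ∃ K : ℝ, K = C1 * β ^ (1 / 3 : ℝ) + C1 * (4 * β ^ (-(5 / 3) : ℝ)) +
      C2 * (2 * β ^ (-(2 / 3) : ℝ)) := ⟨_, rfl⟩
  have hK0 : 0 ≤ K := by rw [hK]; positivity
  refine ⟨h1, 1 + K + (1 + |h1|) * β ^ (-(5 / 3) : ℝ), ?_, ?_⟩
  · have : 0 ≤ (1 + |h1|) * β ^ (-(5 / 3) : ℝ) := by positivity
    linarith
  intro t ht
  obtain ⟨s, hs⟩ : ∃ s : ℝ, s = |t| := ⟨_, rfl⟩
  have hs0 : 0 ≤ s := by rw [hs]; exact abs_nonneg t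
  rw [← hs] at ht ⊢
  have hX : 0 ≤ (1 + |h1|) * β ^ (-(5 / 3) : ℝ) := by positivity
  have hs53 : 0 ≤ s ^ (5 / 3 : ℝ) := Real.rpow_nonneg hs0 _
  rcases hs0.eq_or_lt with h0 | hspos
  · have ht0 : t = 0 := by
      rw [← abs_eq_zero, ← hs, ← h0]
    rw [ht0]
    simp only [add_zero, sub_self, mul_zero, abs_zero]
    apply mul_nonneg _ hs53
    linarith
  rcases lt_or_ge β s with hbs | hbs
  · -- far from the critical point
    have k1 := hf_bd (1 / 2 + t)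
    have k2 := hf_bd (1 / 2)
    have k3 : |hf (1 / 2 + t) - hf (1 / 2) - h1 * t| ≤ 1 + |h1| := by
      have e1 : |h1 * t| ≤ |h1| := by
        rw [abs_mul, ← hs]
        have := abs_nonneg h1
        nlinarith
      have e2 : |hf (1 / 2 + t) - hf (1 / 2)| ≤ 1 := by
        rw [abs_le]
        constructor <;> linarith [k1.1, k1.2, k2.1, k2.2]
      calc |hf (1 / 2 + t) - hf (1 / 2) - h1 * t| ≤
            |hf (1 / 2 + t) - hf (1 / 2)| + |h1 * t| := abs_sub _ _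
        _ ≤ 1 + |h1| := by linarith
    have k4 : 1 ≤ β ^ (-(5 / 3) : ℝ) * s ^ (5 / 3 : ℝ) := by
      have h2 : β ^ (5 / 3 : ℝ) ≤ s ^ (5 / 3 : ℝ) := Real.rpow_le_rpow hβ.le hbs.le (by norm_num)
      rw [Real.rpow_neg hβ.le, ← div_eq_inv_mul, le_div_iff₀ (Real.rpow_pos_of_pos hβ _), one_mul]
      exact h2
    calc |hf (1 / 2 + t) - hf (1 / 2) - h1 * t| ≤ (1 + |h1|) * 1 := by linarith
      _ ≤ (1 + |h1|) * (β ^ (-(5 / 3) : ℝ) * s ^ (5 / 3 : ℝ)) :=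
          mul_le_mul_of_nonneg_left k4 (by positivity)
      _ = ((1 + |h1|) * β ^ (-(5 / 3) : ℝ)) * s ^ (5 / 3 : ℝ) := by ring
      _ ≤ _ := by
          apply mul_le_mul_of_nonneg_right _ hs53
          linarith
  · obtain ⟨n, hn1, hwin, hnx, hxn⟩ := Pool.Agent.Y554.NC.scale_exists hβ hspos hbs
    have hn0 : (0:ℝ) < n := by exact_mod_cast hn1
    have hx0 : 0 < (β / s) ^ (4 / 3 : ℝ) := by positivity
    have k1 := hex n t hn1 (by rw [← hs]; exact hwin)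
    have k2 := hdn n hn1
    -- the three powers
    have p1 : t ^ 2 * (n:ℝ) ^ (1 / 4 : ℝ) ≤ β ^ (1 / 3 : ℝ) * s ^ (5 / 3 : ℝ) := by
      have e1 : t ^ 2 = s ^ (2 : ℝ) := by
        rw [hs, Real.rpow_two, sq_abs]
      have e2 : (n:ℝ) ^ (1 / 4 : ℝ) ≤ (β / s) ^ (1 / 3 : ℝ) := by
        calc (n:ℝ) ^ (1 / 4 : ℝ) ≤ ((β / s) ^ (4 / 3 : ℝ)) ^ (1 / 4 : ℝ) :=
              Real.rpow_le_rpow hn0.le hnx (by norm_num)
          _ = (β / s) ^ (1 / 3 : ℝ) := by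
              rw [← Real.rpow_mul (by positivity)]
              norm_num
      rw [e1]
      calc s ^ (2 : ℝ) * (n:ℝ) ^ (1 / 4 : ℝ) ≤ s ^ (2 : ℝ) * (β / s) ^ (1 / 3 : ℝ) :=
            mul_le_mul_of_nonneg_left e2 (by positivity)
        _ = β ^ (1 / 3 : ℝ) * (s ^ (2 : ℝ) * s ^ (-(1 / 3) : ℝ)) := by
            rw [Real.div_rpow hβ.le hspos.le, Real.rpow_neg hspos.le]
            ring
        _ = _ := by
            rw [← Real.rpow_add hspos]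
            norm_num
    have p2 : (n:ℝ) ^ (-(5 / 4) : ℝ) ≤ 4 * β ^ (-(5 / 3) : ℝ) * s ^ (5 / 3 : ℝ) := by
      calc (n:ℝ) ^ (-(5 / 4) : ℝ) ≤ ((β / s) ^ (4 / 3 : ℝ) / 2) ^ (-(5 / 4) : ℝ) :=
            Real.rpow_le_rpow_of_nonpos (by positivity) (by linarith) (by norm_num)
        _ = (2:ℝ) ^ (5 / 4 : ℝ) * ((β / s) ^ (4 / 3 : ℝ)) ^ (-(5 / 4) : ℝ) := by
            rw [Real.div_rpow hx0.le (by norm_num), Real.rpow_neg (by norm_num : (0:ℝ) ≤ 2),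
              div_inv_eq_mul, mul_comm]
        _ = (2:ℝ) ^ (5 / 4 : ℝ) * (β / s) ^ (-(5 / 3) : ℝ) := by
            rw [← Real.rpow_mul (by positivity)]
            norm_num
        _ = (2:ℝ) ^ (5 / 4 : ℝ) * β ^ (-(5 / 3) : ℝ) * s ^ (5 / 3 : ℝ) := by
            rw [Real.div_rpow hβ.le hs0, Real.rpow_neg hs0, div_inv_eq_mul, mul_assoc]
        _ ≤ _ := by
            apply mul_le_mul_of_nonneg_right _ hs53
            apply mul_le_mul_of_nonneg_right _ (by positivity)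
            calc (2:ℝ) ^ (5 / 4 : ℝ) ≤ (2:ℝ) ^ (2:ℝ) :=
                  Real.rpow_le_rpow_of_exponent_le (by norm_num) (by norm_num)
              _ = 4 := by norm_num
    have p3 : (n:ℝ) ^ (-(1 / 2) : ℝ) * s ≤ 2 * β ^ (-(2 / 3) : ℝ) * s ^ (5 / 3 : ℝ) := by
      have e1 : (n:ℝ) ^ (-(1 / 2) : ℝ) ≤ 2 * β ^ (-(2 / 3) : ℝ) * s ^ (2 / 3 : ℝ) := by
        calc (n:ℝ) ^ (-(1 / 2) : ℝ) ≤ ((β / s) ^ (4 / 3 : ℝ) / 2) ^ (-(1 / 2) : ℝ) :=
              Real.rpow_le_rpow_of_nonpos (by positivity) (by linarith) (by norm_num)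
          _ = (2:ℝ) ^ (1 / 2 : ℝ) * ((β / s) ^ (4 / 3 : ℝ)) ^ (-(1 / 2) : ℝ) := by
              rw [Real.div_rpow hx0.le (by norm_num), Real.rpow_neg (by norm_num : (0:ℝ) ≤ 2),
                div_inv_eq_mul, mul_comm]
          _ = (2:ℝ) ^ (1 / 2 : ℝ) * (β / s) ^ (-(2 / 3) : ℝ) := by
              rw [← Real.rpow_mul (by positivity)]
              norm_num
          _ = (2:ℝ) ^ (1 / 2 : ℝ) * β ^ (-(2 / 3) : ℝ) * s ^ (2 / 3 : ℝ) := by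
              rw [Real.div_rpow hβ.le hs0, Real.rpow_neg hs0, div_inv_eq_mul, mul_assoc]
          _ ≤ _ := by
              apply mul_le_mul_of_nonneg_right _ (by positivity)
              apply mul_le_mul_of_nonneg_right _ (by positivity)
              calc (2:ℝ) ^ (1 / 2 : ℝ) ≤ (2:ℝ) ^ (1:ℝ) :=
                    Real.rpow_le_rpow_of_exponent_le (by norm_num) (by norm_num)
                _ = 2 := by norm_num
      have e2 : s ^ (5 / 3 : ℝ) = s ^ (2 / 3 : ℝ) * s := by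
        have : (5 / 3 : ℝ) = 2 / 3 + 1 := by norm_num
        rw [this, Real.rpow_add hspos, Real.rpow_one]
      rw [e2, ← mul_assoc]
      exact mul_le_mul_of_nonneg_right e1 hs0
    have k3 : |(d n - h1) * t| ≤ C2 * ((n:ℝ) ^ (-(1 / 2) : ℝ) * s) := by
      rw [abs_mul, abs_sub_comm, ← hs]
      calc |h1 - d n| * s ≤ (C2 * (n:ℝ) ^ (-(1 / 2) : ℝ)) * s :=
            mul_le_mul_of_nonneg_right k2 hs0
        _ = _ := by ring
    have e : hf (1 / 2 + t) - hf (1 / 2) - h1 * t =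
        (hf (1 / 2 + t) - hf (1 / 2) - t * d n) + (d n - h1) * t := by ring
    rw [e]
    have q1 := mul_le_mul_of_nonneg_left p1 (by linarith : (0:ℝ) ≤ C1)
    have q2 := mul_le_mul_of_nonneg_left p2 (by linarith : (0:ℝ) ≤ C1)
    have q3 := mul_le_mul_of_nonneg_left p3 (by linarith : (0:ℝ) ≤ C2)
    have q4 : |(hf (1 / 2 + t) - hf (1 / 2) - t * d n) + (d n - h1) * t| ≤ K * s ^ (5 / 3 : ℝ) := by
      refine (abs_add_le _ _).trans ?_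
      rw [hK]
      linarith
    refine q4.trans (mul_le_mul_of_nonneg_right ?_ hs53)
    linarith

end Pool.Agent.U167.AL
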