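import Pool.Agent.U167.AL.Sum
import Pool.Agent.U167.AL.Exp
import Pool.Agent.Y381.SN.Bulk

/-!
The event that the end points of the edge at the origin are connected by a path which does not use
this edge: the local events implied by pivotality, and the expansion around the parameter `1 / 2`.
-/

set_option autoImplicit false
set_option maxHeartbeats 1000000

namespace Pool.Agent.U167.AL

open H974 H12S H389NS Finset Pool.Agent.Y554.SN Pool.Agent.Y554.NE
open Pool.Agent.Y239.NE.Dec (okh ds_tri mem_blk_pos)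
open Pool.Agent.Y239.NE.Out (blk_sub mem_blk_of ds_le_dm)
open Pool.Agent.Y968.NE (ds_comm ds_zero ds_self)

/-- the edge at the origin -/
def eo : Edg := (0, 0, true)

/-- the ends of the edge at the origin are connected without this edge -/
def Ac (F : Finset Edg) : Prop := Reach (↑(F.erase eo) : Set Edg) (0, 0) (1, 0)

/-- the edge `e` is pivotal -/
def Pvc (e : Edg) (F : Finset Edg) : Prop := Ac (insert e F) ∧ ¬ Ac (F.erase e)

theorem Ac_mono {F G : Finset Edg} (h : F ⊆ G) (hF : Ac F) : Ac G := by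
  unfold Ac at hF ⊢
  exact hF.mono (by exact_mod_cast Finset.erase_subset_erase eo h)

theorem Pvc_ind (e : Edg) (F : Finset Edg) (h : ¬ Pvc e F) :
    ind (Ac (insert e F)) = ind (Ac (F.erase e)) := by
  refine ind_congr ⟨fun h1 => ?_, fun h1 => ?_⟩
  · by_contra h2
    exact h ⟨h1, h2⟩
  · exact Ac_mono ((Finset.erase_subset e F).trans (Finset.subset_insert e F)) h1

/-- the set `S` contains the edge at the origin, and its other edges are pivotal for some choice of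
the configuration in `S` -/
def Qc (S F : Finset Edg) : Prop :=
  eo ∈ S ∧ ∀ e ∈ S, e ≠ eo → ∃ T ⊆ S, Pvc e ((F \ S) ∪ T)

/-- the clusters of the ends of a pivotal edge -/
theorem pvc_ends {s : Edg} (hs : s ≠ eo) {G : Finset Edg} (h : Pvc s G) :
    ∃ a b : Vtx, ((src s = a ∧ tgt s = b) ∨ (src s = b ∧ tgt s = a)) ∧
      Reach (↑((G.erase s).erase eo) : Set Edg) (0, 0) a ∧
      Reach (↑((G.erase s).erase eo) : Set Edg) b (1, 0) ∧
      ¬ Reach (↑((G.erase s).erase eo) : Set Edg) (0, 0) (1, 0) := by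
  obtain ⟨h1, h2⟩ := h
  unfold Ac at h1 h2
  have e1 : (↑((insert s G).erase eo) : Set Edg) = insert s (↑(G.erase eo) : Set Edg) := by
    rw [Finset.erase_insert_of_ne hs, Finset.coe_insert]
  have e2 : (↑(G.erase eo) : Set Edg) \ {s} = (↑((G.erase s).erase eo) : Set Edg) := by
    rw [Finset.erase_right_comm, ← Finset.coe_erase]
  rw [e1] at h1
  rcases reach_insert h1 with k | ⟨k1, k2⟩ | ⟨k1, k2⟩
  · rw [e2] at k
    exact absurd k h2
  · rw [e2] at k1 k2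
    exact ⟨src s, tgt s, Or.inl ⟨rfl, rfl⟩, k1, k2, h2⟩
  · rw [e2] at k1 k2
    exact ⟨tgt s, src s, Or.inr ⟨rfl, rfl⟩, k1, k2, h2⟩

/-- a path from the inner box to the exterior of the outer box crosses the annulus -/
theorem crossing {c : ℤ × ℤ} {r D : ℕ} (hrD : r ≤ D) {G : Set Edg} {x y : Vtx}
    (hx : inR (c.1 - r) (c.1 + r) (c.2 - r) (c.2 + r) x)
    (hy : y.1 ≤ c.1 - D ∨ c.1 + D ≤ y.1 ∨ y.2 ≤ c.2 - D ∨ c.2 + D ≤ y.2) (h : Reach G x y) :
    ∃ w ∈ bdB c r, (∃ w' ∈ bdB c D, Reach (G ∩ ↑(blk c D \ blk c r)) w w') ∧ Reach G x w := by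
  have hx' : inR (c.1 - D) (c.1 + D) (c.2 - D) (c.2 + D) x := by
    unfold inR at hx ⊢
    omega
  obtain ⟨w', k1, k2, k3⟩ := first_exit hx' h hy
  obtain ⟨w, l1, l2, l3⟩ := E1b.last_exit (c := c) (d := r) (k := D) hrD
    (G := G ∩ ↑(RE (c.1 - D) (c.1 + D) (c.2 - D) (c.2 + D))) (F := G) Set.inter_subset_left
    (fun e he => mem_coe.1 he.2) (w := w') (by omega) k3.symm hx
  refine ⟨w, S4C_bdB_of l1 l2, ⟨w', S4C_bdB_of k1 k2, l3⟩, ?_⟩
  exact (k3.mono Set.inter_subset_left).trans (l3.symm.mono Set.inter_subset_left)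

/-- two distinct clusters which cross the annulus -/
theorem two_cross {c : ℤ × ℤ} {r D : ℕ} (hrD : r ≤ D) {G F : Set Edg} {a1 a2 b1 b2 : Vtx}
    (hG : G ∩ ↑(blk c D \ blk c r) = F ∩ ↑(blk c D \ blk c r))
    (h1 : inR (c.1 - r) (c.1 + r) (c.2 - r) (c.2 + r) a1)
    (h2 : inR (c.1 - r) (c.1 + r) (c.2 - r) (c.2 + r) a2)
    (h3 : b1.1 ≤ c.1 - D ∨ c.1 + D ≤ b1.1 ∨ b1.2 ≤ c.2 - D ∨ c.2 + D ≤ b1.2)
    (h4 : b2.1 ≤ c.1 - D ∨ c.1 + D ≤ b2.1 ∨ b2.2 ≤ c.2 - D ∨ c.2 + D ≤ b2.2)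
    (k1 : Reach G a1 b1) (k2 : Reach G a2 b2) (k3 : ¬ Reach G a1 a2) : A4a c r D F := by
  obtain ⟨w1, l1, l2, l3⟩ := crossing hrD h1 h3 k1
  obtain ⟨w2, m1, m2, m3⟩ := crossing hrD h2 h4 k2
  refine ⟨w1, l1, w2, m1, ?_, ?_, ?_⟩
  · rw [← hG]; exact l2
  · rw [← hG]; exact m2
  · rw [← hG]
    intro h
    exact k3 (l3.trans ((h.mono Set.inter_subset_left).trans m3.symm))

theorem eo_in {c : ℤ × ℤ} {r : ℕ} (h : eo ∈ blk c r) :
    inR (c.1 - r) (c.1 + r) (c.2 - r) (c.2 + r) (0, 0) ∧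
      inR (c.1 - r) (c.1 + r) (c.2 - r) (c.2 + r) (1, 0) := by
  unfold blk eo at h
  rw [mem_RE_true] at h
  unfold inR
  simp only
  omega

theorem eo_out {c : ℤ × ℤ} {D : ℕ} (h : eo ∉ blk c D) :
    ((0:ℤ) ≤ c.1 - D ∨ c.1 + D ≤ 0 ∨ 0 ≤ c.2 - D ∨ c.2 + D ≤ 0) ∧
      ((1:ℤ) ≤ c.1 - D ∨ c.1 + D ≤ 1 ∨ 0 ≤ c.2 - D ∨ c.2 + D ≤ 0) := by
  unfold blk eo at h
  rw [mem_RE_true] at h
  omega

theorem out_far {c : ℤ × ℤ} {D : ℕ} {s : Edg} (h : s ∉ blk c D) :
    ((src s).1 ≤ c.1 - D ∨ c.1 + D ≤ (src s).1 ∨ (src s).2 ≤ c.2 - D ∨ c.2 + D ≤ (src s).2) ∧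
      ((tgt s).1 ≤ c.1 - D ∨ c.1 + D ≤ (tgt s).1 ∨ (tgt s).2 ≤ c.2 - D ∨
        c.2 + D ≤ (tgt s).2) := by
  obtain ⟨x, y, _ | _⟩ := s
  · unfold blk at h
    rw [mem_RE_false] at h
    simp only [src_mk, tgt_false]
    omega
  · unfold blk at h
    rw [mem_RE_true] at h
    simp only [src_mk, tgt_true]
    omega

/-- The local events. -/
theorem sys : ∃ C : ℝ, ∀ (M n N : ℕ), n + N ≤ M → Sys (boxE M) (boxE n) N C Qc := by
  obtain ⟨C, hC, hA⟩ := A4a_sharp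
  refine ⟨max 1 C, fun M n N hM => ⟨le_max_left _ _, ?_⟩⟩
  intro x r D hx hr hrD hDN
  refine ⟨fun F => A4a (pos x) r D (↑F : Set Edg), ?_, ?_, ?_⟩
  · intro F F' h
    show A4a (pos x) r D (↑F : Set Edg) ↔ A4a (pos x) r D (↑F' : Set Edg)
    rw [E2a.A4a_loc F, E2a.A4a_loc F', h]
  · intro S F hSB hF hQ hxS hex hdis
    obtain ⟨heo, hpiv⟩ := hQ
    obtain ⟨w, hw, hwD⟩ := hex
    -- the configuration in the annulus
    have hcfg : ∀ (s : Edg), s ∈ S → ∀ T ⊆ S,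
        (↑((((F \ S) ∪ T).erase s).erase eo) : Set Edg) ∩ ↑(blk (pos x) D \ blk (pos x) r) =
        (↑F : Set Edg) ∩ ↑(blk (pos x) D \ blk (pos x) r) := by
      intro s hs T hT
      rw [← Finset.coe_inter, ← Finset.coe_inter]
      congr 1
      ext e
      rw [mem_inter, mem_inter, mem_erase, mem_erase, mem_union, Finset.mem_sdiff (s := F)]
      constructor
      · rintro ⟨⟨-, -, h1 | h1⟩, h2⟩
        · exact ⟨h1.1, h2⟩
        · exact absurd h2 (fun h2 => Finset.disjoint_left.1 hdis (hT h1) h2)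
      · rintro ⟨h1, h2⟩
        have h3 : e ∉ S := fun h3 => Finset.disjoint_left.1 hdis h3 h2
        exact ⟨⟨fun h => h3 (h ▸ heo), fun h => h3 (h ▸ hs), Or.inl ⟨h1, h3⟩⟩, h2⟩
    by_cases hD : eo ∈ blk (pos x) D
    · have heor : eo ∈ blk (pos x) r := by
        by_contra h
        exact Finset.disjoint_left.1 hdis heo (Finset.mem_sdiff.2 ⟨hD, h⟩)
      have hne : w ≠ eo := fun h => hwD (h ▸ hD)
      obtain ⟨T, hT, hP⟩ := hpiv w hw hne
      obtain ⟨a, b, hab, k1, k2, k3⟩ := pvc_ends hne hP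
      obtain ⟨i1, i2⟩ := eo_in heor
      obtain ⟨o1, o2⟩ := out_far hwD
      refine two_cross hrD (hcfg w hw T hT) i1 i2 ?_ ?_ k1 k2.symm k3
      · rcases hab with ⟨h1, -⟩ | ⟨-, h1⟩
        · rw [← h1]; exact o1
        · rw [← h1]; exact o2
      · rcases hab with ⟨-, h1⟩ | ⟨h1, -⟩
        · rw [← h1]; exact o2
        · rw [← h1]; exact o1
    · have hxr : x ∈ blk (pos x) r := mem_blk_of (by rw [ds_self]; exact hr)
      have hxD : x ∈ blk (pos x) D := mem_blk_of (by rw [ds_self]; omega)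
      have hne : x ≠ eo := fun h => hD (h ▸ hxD)
      obtain ⟨T, hT, hP⟩ := hpiv x hxS hne
      obtain ⟨a, b, hab, k1, k2, k3⟩ := pvc_ends hne hP
      obtain ⟨o1, o2⟩ := eo_out hD
      obtain ⟨i1, i2⟩ := ends_RE (show x ∈ RE ((pos x).1 - r) ((pos x).1 + r) ((pos x).2 - r)
        ((pos x).2 + r) from hxr)
      refine two_cross hrD (hcfg x hxS T hT) (a1 := a) (a2 := b) (b1 := (0, 0)) (b2 := (1, 0))
        ?_ ?_ o1 o2 k1.symm k2 ?_
      · rcases hab with ⟨h1, -⟩ | ⟨-, h1⟩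
        · rw [← h1]; exact i1
        · rw [← h1]; exact i2
      · rcases hab with ⟨-, h1⟩ | ⟨h1, -⟩
        · rw [← h1]; exact i2
        · rw [← h1]; exact i1
      · intro h
        exact k3 (k1.trans (h.trans k2))
  · have hsub : blk (pos x) D ⊆ boxE M := by
      have h1 := Pool.Agent.Y239.NE.Out.pos_le hx
      rw [abs_le, abs_le] at h1
      unfold blk boxE
      apply RE_subset <;> omega
    refine (hA (pos x) r D hr hrD (boxE M) hsub).trans ?_
    exact mul_le_mul_of_nonneg_right (le_max_right _ _) (Real.rpow_nonneg (by positivity) _)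

end Pool.Agent.U167.AL
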