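import Pool.Agent.U167.AL.Hf
import Pool.Agent.U167.AL.Comp

/-!
The mean number of clusters in a box and its derivative.
-/

set_option autoImplicit false
set_option maxHeartbeats 1000000

namespace Pool.Agent.U167.AL

open H974 H12S Finset Filter Topology

/-- the ends of the edge `e` are connected without this edge -/
def AcE (e : Edg) (F : Finset Edg) : Prop := Reach (↑(F.erase e) : Set Edg) (src e) (tgt e)

theorem acE_eo (F : Finset Edg) : AcE eo F ↔ Ac F := Iff.rfl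

theorem acE_sym (g : LSym) (e : Edg) (F : Finset Edg) : AcE (g.φ e) (g.mp F) ↔ AcE e F := by
  have h1 : (↑((g.mp F).erase (g.φ e)) : Set Edg) = g.φ '' (↑(F.erase e) : Set Edg) := by
    ext x
    simp only [mem_coe, mem_erase, LSym.mem_mp, Set.mem_image]
    constructor
    · rintro ⟨h1, h2⟩
      exact ⟨g.φ.symm x, ⟨fun h => h1 (by rw [← h]; simp), h2⟩, by simp⟩
    · rintro ⟨y, ⟨h1, h2⟩, rfl⟩
      exact ⟨fun h => h1 (g.φ.injective h), by simpa using h2⟩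
  unfold AcE
  rw [h1]
  rcases g.compat e with ⟨k1, k2⟩ | ⟨k1, k2⟩
  · rw [k1, k2]
    exact g.reach_iff
  · rw [k1, k2]
    exact ⟨fun h => (g.reach_iff.1 h).symm, fun h => g.reach_iff.2 h.symm⟩

theorem pr_acE_sym (g : LSym) (q : ℝ) (S : Finset Edg) (e : Edg) :
    Pr (fun _ => q) (g.mp S) (AcE (g.φ e)) = Pr (fun _ => q) S (AcE e) := by
  rw [LSym.pr]
  apply Pr_congr
  intro F _
  exact acE_sym g e F

/-- the edges of the box `[0, n-1]²` -/
noncomputable def bE (n : ℕ) : Finset Edg := RE 0 (n - 1) 0 (n - 1)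

/-- the vertices of the box `[0, n-1]²` -/
noncomputable def bV (n : ℕ) : Finset Vtx := Finset.Icc 0 ((n:ℤ) - 1) ×ˢ Finset.Icc 0 ((n:ℤ) - 1)

/-- comparison of the probability for an edge in the bulk with the limit -/
theorem bulk_edge {q : ℝ} (h0 : 0 ≤ q) (h1 : q ≤ 1) {n m : ℕ} (hm : 1 ≤ m) {x y : ℤ} {b : Bool}
    (hx : (m:ℤ) ≤ x ∧ x + m ≤ n - 1) (hy : (m:ℤ) ≤ y ∧ y + m ≤ n - 1) :
    |Pr (fun _ => q) (bE n) (AcE (x, y, b)) - gM m q| ≤ PQ q (boxE m) (E4 m) := by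
  have ok : Ok (fun _ : Edg => q) := okq h0 h1
  rw [gM_id h0 h1]
  cases b
  · -- vertical edge
    have e1 := pr_acE_sym (trl (-x) (-y)) q (bE n) (x, y, false)
    have e2 := pr_acE_sym tps q ((trl (-x) (-y)).mp (bE n)) ((trl (-x) (-y)).φ (x, y, false))
    rw [← e1, ← e2]
    have e3 : tps.φ ((trl (-x) (-y)).φ (x, y, false)) = eo := by
      simp [eo]
    rw [e3]
    unfold bE
    rw [trl_RE, tps_RE]
    refine change ok ok hm ?_ (Finset.Subset.refl _) (fun _ _ => rfl)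
    unfold boxE
    apply RE_subset <;> omega
  · have e1 := pr_acE_sym (trl (-x) (-y)) q (bE n) (x, y, true)
    rw [← e1]
    have e3 : (trl (-x) (-y)).φ (x, y, true) = eo := by
      simp [eo]
    rw [e3]
    unfold bE
    rw [trl_RE]
    refine change ok ok hm ?_ (Finset.Subset.refl _) (fun _ _ => rfl)
    unfold boxE
    apply RE_subset <;> omega

/-- the mean number of clusters in the box -/
noncomputable def mK (n : ℕ) (q : ℝ) : ℝ := Ex (fun _ => q) (bE n) (fun F => (nc (bV n) F : ℝ))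

theorem ends_bV {n : ℕ} {e : Edg} (h : e ∈ bE n) : src e ∈ bV n ∧ tgt e ∈ bV n := by
  unfold bE at h
  obtain ⟨h1, h2⟩ := ends_RE h
  unfold inR at h1 h2
  unfold bV
  rw [mem_product, mem_product, Finset.mem_Icc, Finset.mem_Icc, Finset.mem_Icc, Finset.mem_Icc]
  exact ⟨h1, h2⟩

/-- the derivative of the mean number of clusters -/
theorem mK_deriv (n : ℕ) (q : ℝ) : HasDerivAt (mK n)
    (∑ e ∈ bE n, (Pr (fun _ => q) (bE n) (AcE e) - 1)) q := by
  have h1 := Ex_hasDerivAt (fun q (_ : Edg) => q) (fun _ => 1) q (fun _ => hasDerivAt_id q)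
    (bE n) (fun F => (nc (bV n) F : ℝ))
  have h2 : ∑ e ∈ bE n, (1:ℝ) * Ex (fun _ : Edg => q) ((bE n).erase e)
      (fun F => (nc (bV n) (insert e F) : ℝ) - nc (bV n) F) =
      ∑ e ∈ bE n, (Pr (fun _ => q) (bE n) (AcE e) - 1) := by
    apply sum_congr rfl
    intro e he
    obtain ⟨k1, k2⟩ := ends_bV he
    have e1 : Ex (fun _ : Edg => q) ((bE n).erase e)
        (fun F => (nc (bV n) (insert e F) : ℝ) - nc (bV n) F) =
        Ex (fun _ : Edg => q) ((bE n).erase e)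
        (fun F => ind (Reach (↑F : Set Edg) (src e) (tgt e)) - 1) := by
      apply Ex_congr
      intro F _
      rw [nc_insert k1 k2, ind_not]
      ring
    rw [one_mul, e1, Ex_sub, Ex_const]
    congr 1
    have e2 := Pr_local (p := fun _ : Edg => q) (Finset.erase_subset e (bE n)) (A := AcE e)
      (fun F hF => by
        unfold AcE
        have : (F ∩ (bE n).erase e).erase e = F.erase e := by
          ext x
          simp only [mem_erase, mem_inter]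
          constructor
          · rintro ⟨h1, h2, -⟩
            exact ⟨h1, h2⟩
          · rintro ⟨h1, h2⟩
            exact ⟨h1, h2, h1, hF h2⟩
        rw [this])
    rw [e2]
    show Pr _ _ _ = Pr _ _ _
    apply Pr_congr
    intro F hF
    unfold AcE
    rw [erase_eq_of_notMem (fun h => (mem_erase.1 (hF h)).1 rfl)]
  rw [h2] at h1
  exact h1

theorem bV_card (n : ℕ) : (bV n).card = n ^ 2 := by
  unfold bV
  rw [card_product, Int.card_Icc]
  have : ((n:ℤ) - 1 + 1 - 0).toNat = n := by omega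
  rw [this, sq]

theorem mK_zero (n : ℕ) : mK n 0 = (n:ℝ) ^ 2 := by
  unfold mK Ex
  rw [sum_eq_single ∅]
  · simp [nc_empty, bV_card]
  · intro F hF hne
    obtain ⟨e, he⟩ := Finset.nonempty_iff_ne_empty.2 hne
    rw [prod_eq_zero he rfl]
    ring
  · intro h
    exact absurd (empty_mem_powerset _) h

/-- number of edges -/
theorem bE_card (n : ℕ) : ((bE n).card : ℝ) ≤ 2 * (n:ℝ) ^ 2 := by
  have h1 : bE n ⊆ (Finset.Icc 0 ((n:ℤ) - 1)) ×ˢ ((Finset.Icc 0 ((n:ℤ) - 1)) ×ˢ (univ : Finset Bool)) := by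
    unfold bE RE
    exact filter_subset _ _
  have h2 := card_le_card h1
  rw [card_product, card_product, Int.card_Icc, card_univ, Fintype.card_bool] at h2
  have : ((n:ℤ) - 1 + 1 - 0).toNat = n := by omega
  rw [this] at h2
  have h3 : ((bE n).card : ℝ) ≤ n * (n * 2) := by exact_mod_cast h2
  nlinarith

/-- the bulk edges -/
noncomputable def bB (n m : ℕ) : Finset Edg :=
  (Finset.Icc (m:ℤ) ((n:ℤ) - 1 - m)) ×ˢ ((Finset.Icc (m:ℤ) ((n:ℤ) - 1 - m)) ×ˢ (univ : Finset Bool))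

theorem bB_sub {n m : ℕ} (hm : 1 ≤ m) : bB n m ⊆ bE n := by
  rintro ⟨x, y, b⟩ h
  unfold bB at h
  rw [mem_product, mem_product, Finset.mem_Icc, Finset.mem_Icc] at h
  simp only at h
  unfold bE
  cases b
  · rw [mem_RE_false]; omega
  · rw [mem_RE_true]; omega

theorem bB_card {n m : ℕ} (h : 2 * m ≤ n) : ((bB n m).card : ℝ) = 2 * ((n:ℝ) - 2 * m) ^ 2 := by
  unfold bB
  rw [card_product, card_product, Int.card_Icc, card_univ, Fintype.card_bool]
  have h1 : ((n:ℤ) - 1 - m + 1 - m).toNat = n - 2 * m := by omega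
  rw [h1]
  push_cast
  rw [Nat.cast_sub h]
  push_cast
  ring

/-- uniform convergence of the derivatives -/
theorem deriv_unif : ∀ ε : ℝ, 0 < ε → ∃ n0 : ℕ, 1 ≤ n0 ∧ ∀ n : ℕ, n0 ≤ n → ∀ q : ℝ,
    0 ≤ q → q ≤ 1 →
    |(∑ e ∈ bE n, (Pr (fun _ => q) (bE n) (AcE e) - 1)) / (n:ℝ) ^ 2 - 2 * (hf q - 1)| ≤ ε := by
  intro ε hε
  obtain ⟨m1, hm1, h1⟩ := e4_unif (ε / 8) (by linarith)
  obtain ⟨m2, hm2, h2⟩ := hf_spec (ε / 8) (by linarith)
  obtain ⟨m, hm⟩ : ∃ m, m = max m1 m2 := ⟨_, rfl⟩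
  have hmm1 : m1 ≤ m := by rw [hm]; exact le_max_left _ _
  have hmm2 : m2 ≤ m := by rw [hm]; exact le_max_right _ _
  obtain ⟨n1, hn1⟩ := exists_nat_gt (32 * (m:ℝ) / ε)
  refine ⟨max n1 (2 * m), by omega, ?_⟩
  intro n hn q h0 hq1
  have hnn1 : n1 ≤ n := (le_max_left _ _).trans hn
  have hn2m : 2 * m ≤ n := (le_max_right _ _).trans hn
  have hnpos : (0:ℝ) < n := by
    have : 0 < n := by omega
    exact_mod_cast this
  have ok : Ok (fun _ : Edg => q) := okq h0 hq1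
  have hsub : bB n m ⊆ bE n := bB_sub (by omega)
  have hb : ∀ e ∈ bB n m, |(Pr (fun _ => q) (bE n) (AcE e) - 1) - (hf q - 1)| ≤ ε / 4 := by
    rintro ⟨x, y, b⟩ he
    unfold bB at he
    rw [mem_product, mem_product, Finset.mem_Icc, Finset.mem_Icc] at he
    simp only at he
    have k1 := bulk_edge (b := b) h0 hq1 (n := n) (m := m) (by omega) (x := x) (y := y)
      (by omega) (by omega)
    have k2 := h1 m hmm1 q h0 hq1
    have k3 := h2 m hmm2 q
    obtain ⟨a1, a2⟩ := abs_le.1 k1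
    obtain ⟨a3, a4⟩ := abs_le.1 k3
    rw [abs_le]
    constructor <;> linarith
  have hc1 := bB_card hn2m
  have hc2 := bE_card n
  have hhf := hf_bd q
  -- the sum over the other edges
  have hs1 : |∑ e ∈ bE n \ bB n m, (Pr (fun _ => q) (bE n) (AcE e) - 1)| ≤
      ((bE n \ bB n m).card : ℝ) := by
    refine (abs_sum_le_sum_abs _ _).trans ?_
    rw [← nsmul_one, ← sum_const]
    apply sum_le_sum
    intro e _
    have k1 := Pr_nonneg ok (bE n) (AcE e)
    have k2 := Pr_le_one ok (bE n) (AcE e)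
    rw [abs_le]
    constructor <;> linarith
  have hs2 : ((bE n \ bB n m).card : ℝ) ≤ 8 * m * n := by
    have k1 : ((bE n \ bB n m).card : ℝ) = (bE n).card - (bB n m).card := by
      rw [card_sdiff_of_subset hsub, Nat.cast_sub (card_le_card hsub)]
    rw [k1, hc1]
    have : (0:ℝ) ≤ m := Nat.cast_nonneg m
    nlinarith
  have hs3 : |∑ e ∈ bB n m, ((Pr (fun _ => q) (bE n) (AcE e) - 1) - (hf q - 1))| ≤
      (bB n m).card * (ε / 4) := by
    refine (abs_sum_le_sum_abs _ _).trans ?_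
    rw [← nsmul_eq_mul, ← sum_const]
    exact sum_le_sum hb
  have hs4 : ∑ e ∈ bE n, (Pr (fun _ => q) (bE n) (AcE e) - 1) =
      ∑ e ∈ bE n \ bB n m, (Pr (fun _ => q) (bE n) (AcE e) - 1) +
      (∑ e ∈ bB n m, ((Pr (fun _ => q) (bE n) (AcE e) - 1) - (hf q - 1)) +
        (bB n m).card * (hf q - 1)) := by
    have k1 : ∑ e ∈ bB n m, ((Pr (fun _ => q) (bE n) (AcE e) - 1) - (hf q - 1)) =
        ∑ e ∈ bB n m, (Pr (fun _ => q) (bE n) (AcE e) - 1) - (bB n m).card * (hf q - 1) := by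
      rw [sum_sub_distrib (f := fun e => Pr (fun _ => q) (bE n) (AcE e) - 1), sum_const,
        nsmul_eq_mul]
    rw [← sum_sdiff hsub, k1]
    ring
  have hmn : 32 * (m:ℝ) ≤ ε * n := by
    rw [div_lt_iff₀ hε] at hn1
    have : (n1:ℝ) ≤ n := by exact_mod_cast hnn1
    nlinarith
  have hfin : |(∑ e ∈ bE n, (Pr (fun _ => q) (bE n) (AcE e) - 1)) - 2 * (hf q - 1) * (n:ℝ) ^ 2| ≤
      ε * (n:ℝ) ^ 2 := by
    rw [hs4, hc1]
    rw [hc1] at hs3
    have hm0 : (0:ℝ) ≤ m := Nat.cast_nonneg m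
    have hnm : 2 * (m:ℝ) ≤ n := by exact_mod_cast hn2m
    obtain ⟨a1, a2⟩ := abs_le.1 (hs1.trans hs2)
    obtain ⟨a3, a4⟩ := abs_le.1 hs3
    have b1 : 2 * ((n:ℝ) - 2 * m) ^ 2 ≤ 2 * (n:ℝ) ^ 2 := by nlinarith
    have b2 : 2 * (n:ℝ) ^ 2 - 2 * ((n:ℝ) - 2 * m) ^ 2 ≤ 8 * m * n := by nlinarith
    have b3 : 2 * ((n:ℝ) - 2 * m) ^ 2 * (ε / 4) ≤ 2 * (n:ℝ) ^ 2 * (ε / 4) :=
      mul_le_mul_of_nonneg_right b1 (by linarith)
    have b4 : 8 * (m:ℝ) * n ≤ ε / 4 * (n:ℝ) ^ 2 := by nlinarith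
    have b5 : |(2 * ((n:ℝ) - 2 * m) ^ 2 - 2 * (n:ℝ) ^ 2) * (hf q - 1)| ≤ 8 * (m:ℝ) * n := by
      rw [abs_mul]
      have c1 : |2 * ((n:ℝ) - 2 * m) ^ 2 - 2 * (n:ℝ) ^ 2| ≤ 8 * (m:ℝ) * n := by
        rw [abs_le]
        constructor <;> linarith
      have c2 : |hf q - 1| ≤ 1 := by
        rw [abs_le]
        constructor <;> linarith [hhf.1, hhf.2]
      calc |2 * ((n:ℝ) - 2 * m) ^ 2 - 2 * (n:ℝ) ^ 2| * |hf q - 1| ≤ (8 * (m:ℝ) * n) * 1 :=
            mul_le_mul c1 c2 (abs_nonneg _) (by positivity)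
        _ = _ := mul_one _
    obtain ⟨a5, a6⟩ := abs_le.1 b5
    have hn2 : 0 ≤ ε * (n:ℝ) ^ 2 := by positivity
    rw [abs_le]
    constructor <;> nlinarith
  have e : (∑ e ∈ bE n, (Pr (fun _ => q) (bE n) (AcE e) - 1)) / (n:ℝ) ^ 2 - 2 * (hf q - 1) =
      ((∑ e ∈ bE n, (Pr (fun _ => q) (bE n) (AcE e) - 1)) - 2 * (hf q - 1) * (n:ℝ) ^ 2) /
        (n:ℝ) ^ 2 := by
    field_simp
  rw [e, abs_div, abs_of_pos (by positivity : (0:ℝ) < (n:ℝ) ^ 2), div_le_iff₀ (by positivity)]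
  exact hfin

end Pool.Agent.U167.AL
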