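import Pool.Agent.U167.AL.Good

/-!
Polymer bounds for sets of edges all of which are pivotal, abstract form: the bound for a connected
set.
-/

set_option autoImplicit false

namespace Pool.Agent.U167.AL

open H974 H12S Finset Pool.Agent.Y554.SN Pool.Agent.Y554.NE
open Pool.Agent.Y239.NE.Dec (okh ds_tri mem_blk_pos)
open Pool.Agent.Y239.NE.Out (blk_sub mem_blk_of ds_le_dm)
open Pool.Agent.Y968.NE (ds_comm ds_zero ds_self cmp cmp_sub self_cmp cmp_far cmp_ind cmp_conn)

section
variable {V B : Finset Edg} {N : ℕ} {C : ℝ} {Q : Finset Edg → Finset Edg → Prop}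

/-- growth of a set by components -/
theorem grow (a : ℝ) (t : ℕ) (S : Finset Edg) (x : Edg) (ha : 36 ≤ a)
    (hc : conn (t + 1) S)
    (hcmp : ∀ b ∈ S, cmp t S b ≠ S → Good V B Q False t (t + 1) (max t (dm (cmp t S b))) a
      (4 * (cmp t S b).card - 3) (cmp t S b) b) :
    ∀ m : ℕ, ∀ U : Finset Edg, (S \ U).card = m → U ⊆ S → U ≠ S → x ∈ U →
      (∀ y ∈ U, ∀ z ∈ S, z ∉ U → t < ds y z) →
      Good V B Q False t (t + 1) (max (t + 1) (dm U)) a (4 * U.card - 2) U x →
      Good V B Q True t (t + 1) (max (t + 1) (dm S)) a (4 * S.card - 4) S x := by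
  classical
  have ha1 : 1 ≤ a := by linarith
  intro m
  induction m using Nat.strong_induction_on with
  | _ m ihm =>
    intro U hUm hUS hUne hxU hcl hG
    have hne : (S \ U).Nonempty := by
      rw [Finset.sdiff_nonempty]
      intro h
      exact hUne (Finset.Subset.antisymm hUS h)
    obtain ⟨u, hu, b, hb', hub⟩ := hc U hUS ⟨x, hxU⟩ hne
    obtain ⟨hbS, hbU⟩ := Finset.mem_sdiff.1 hb'
    have hRS := cmp_sub t S b
    have hbR : b ∈ cmp t S b := self_cmp hbS
    have hRU : ∀ z ∈ cmp t S b, z ∉ U := by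
      refine cmp_ind hbS hbU ?_
      intro v hv w hw hvU hvw hwU
      have := hcl w hwU v (hRS hv) hvU
      rw [ds_comm] at this
      omega
    have hdisj : Disjoint U (cmp t S b) := by
      rw [Finset.disjoint_right]
      exact hRU
    have hRne : cmp t S b ≠ S := by
      intro h
      exact hRU x (by rw [h]; exact hUS hxU) hxU
    have hfar : ∀ v ∈ U, ∀ w ∈ cmp t S b, t < ds v w := fun v hv w hw =>
      hcl v hv w (hRS hw) (hRU w hw)
    have hM := merge a t _ _ U (cmp t S b) x b u ha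
      hxU hu hbR (by rw [ds_comm]; exact hub) hfar hG (hcmp b hbS hRne)
    have hcard : (U ∪ cmp t S b).card = U.card + (cmp t S b).card :=
      Finset.card_union_of_disjoint hdisj
    have hc1 : 1 ≤ U.card := Finset.card_pos.2 ⟨x, hxU⟩
    have hc2 : 1 ≤ (cmp t S b).card := Finset.card_pos.2 ⟨b, hbR⟩
    have e : 4 * U.card - 2 + (4 * (cmp t S b).card - 3) + 1 =
        4 * (U ∪ cmp t S b).card - 4 := by omega
    rw [e] at hM
    have hU'S : U ∪ cmp t S b ⊆ S := Finset.union_subset hUS hRS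
    by_cases hfin : U ∪ cmp t S b = S
    · rw [hfin] at hM
      exact hM
    · refine ihm (S \ (U ∪ cmp t S b)).card ?_ (U ∪ cmp t S b) rfl hU'S hfin
        (Finset.mem_union_left _ hxU) ?_ ((hM.weak).mono le_rfl (by omega) ha1)
      · rw [← hUm]
        apply Finset.card_lt_card
        rw [Finset.ssubset_iff_of_subset
          (Finset.sdiff_subset_sdiff (Finset.Subset.refl S) Finset.subset_union_left)]
        exact ⟨b, hb', fun h => (Finset.mem_sdiff.1 h).2 (Finset.mem_union_right _ hbR)⟩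
      · intro y hy z hz hzn
        rw [Finset.mem_union, not_or] at hzn
        rcases Finset.mem_union.1 hy with hy | hy
        · exact hcl y hy z hz hzn.1
        · exact cmp_far hy hz hzn.2

/-- the bound for a `t + 1`-connected set which is not `t`-connected -/
theorem full_of (a : ℝ) (t : ℕ) (S : Finset Edg) (x : Edg) (ha : 36 ≤ a)
    (hx : x ∈ S) (hc : conn (t + 1) S) (hall : cmp t S x ≠ S)
    (hcmp : ∀ b ∈ S, cmp t S b ≠ S → Good V B Q False t (t + 1) (max t (dm (cmp t S b))) a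
      (4 * (cmp t S b).card - 3) (cmp t S b) b) :
    Good V B Q True t (t + 1) (max (t + 1) (dm S)) a (4 * S.card - 4) S x := by
  have h1 := start a False t _ (cmp t S x) x (by linarith) (hcmp x hx hall)
  have hc1 : 1 ≤ (cmp t S x).card := Finset.card_pos.2 ⟨x, self_cmp hx⟩
  have e1 : 4 * (cmp t S x).card - 3 + 1 = 4 * (cmp t S x).card - 2 := by omega
  rw [e1] at h1
  exact grow a t S x ha hc hcmp _ (cmp t S x) rfl (cmp_sub t S x) hall (self_cmp hx)
    (fun y hy z hz hzn => cmp_far hy hz hzn) h1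

/-- KEY: the bound for a `t`-connected set. -/
theorem key (hs : Sys V B N C Q) (a : ℝ) (ha : 144 * C ≤ a) :
    ∀ (t t' : ℕ) (S : Finset Edg) (x : Edg), t ≤ t' → t' ≤ N → S ⊆ B → x ∈ S → conn t S →
      Good V B Q False t' t (max t' (dm S)) a (4 * S.card - 3) S x := by
  classical
  have hC1 := hs.one_le
  have ha1 : 1 ≤ a := by linarith
  intro t
  induction t with
  | zero =>
    intro t' S x _ ht' hS hx hc
    have h0 : ∀ y ∈ S, ds y x = 0 := by
      by_contra hcon
      push Not at hcon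
      obtain ⟨z, hz, hzx⟩ := hcon
      obtain ⟨u, hu, v, hv, huv⟩ := hc (S.filter (fun y => ds y x = 0)) (Finset.filter_subset _ _)
        ⟨x, Finset.mem_filter.2 ⟨hx, ds_self x⟩⟩
        ⟨z, Finset.mem_sdiff.2 ⟨hz, fun h => hzx (Finset.mem_filter.1 h).2⟩⟩
      rw [Finset.mem_filter] at hu
      rw [Finset.mem_sdiff, Finset.mem_filter] at hv
      exact hv.2 ⟨hv.1, ds_zero (Nat.le_zero.1 huv) hu.2⟩
    have hcard : 1 ≤ S.card := Finset.card_pos.2 ⟨x, hx⟩
    exact (base hs a t' S x (by linarith) ht' hS hx h0).mono le_rfl (by omega) ha1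
  | succ t ih =>
    intro t' S x htt' ht' hS hx hc
    by_cases hall : cmp t S x = S
    · have hct : conn t S := by
        rw [← hall]
        exact cmp_conn hx
      exact (ih t' S x (by omega) ht' hS hx hct).mono (Nat.le_succ t) le_rfl ha1
    · have hcmp : ∀ b ∈ S, cmp t S b ≠ S →
          Good V B Q False t (t + 1) (max t (dm (cmp t S b))) a
          (4 * (cmp t S b).card - 3) (cmp t S b) b := by
        intro b hb' _
        exact (ih t (cmp t S b) b le_rfl (by omega) ((cmp_sub t S b).trans hS)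
          (self_cmp hb') (cmp_conn hb')).mono (Nat.le_succ t) le_rfl ha1
      have h2 := full_of a t S x (by linarith) hx hc hall hcmp
      have h3 := out hs a t t' _ S x (by linarith) htt' ht' hS hx h2.weak
      have hc3 : 1 ≤ S.card := Finset.card_pos.2 ⟨x, hx⟩
      exact h3.mono le_rfl (by omega) ha1

/-- The bound for all sets. -/
theorem keyF (hs : Sys V B N C Q) (a : ℝ) (ha : 144 * C ≤ a) (S : Finset Edg) (x : Edg)
    (hS : S ⊆ B) (hx : x ∈ S) (hN : dm S ≤ N) :
    ∃ (par : Edg → Edg) (rk : Edg → ℕ), (∀ y ∈ S, y ≠ x → par y ∈ S ∧ rk (par y) < rk y) ∧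
      PQ (1 / 2) V (Q S) ≤ a ^ (4 * S.card) * (∏ y ∈ S.erase x, ps (ds y (par y))) *
        ps (dm S) := by
  classical
  have hC1 := hs.one_le
  have ha1 : 1 ≤ a := by linarith
  have hdm : ∀ u ∈ S, ∀ v ∈ S, ds u v ≤ dm S := fun u hu v hv => ds_le_dm hu hv
  have hex : ∃ t, conn t S := by
    refine ⟨dm S, ?_⟩
    rintro A hA ⟨u, hu⟩ ⟨v, hv⟩
    exact ⟨u, hu, v, hv, hdm u (hA hu) v (Finset.mem_sdiff.1 hv).1⟩
  obtain ⟨t, ht, hmin⟩ : ∃ t, conn t S ∧ ∀ t' < t, ¬ conn t' S :=
    ⟨Nat.find hex, Nat.find_spec hex, fun t' h => Nat.find_min hex h⟩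
  rcases Nat.eq_zero_or_pos t with h0 | hpos
  · -- all at the same position
    subst h0
    have h0 : ∀ y ∈ S, ds y x = 0 := by
      by_contra hcon
      push Not at hcon
      obtain ⟨z, hz, hzx⟩ := hcon
      obtain ⟨u, hu, v, hv, huv⟩ := ht (S.filter (fun y => ds y x = 0)) (Finset.filter_subset _ _)
        ⟨x, Finset.mem_filter.2 ⟨hx, ds_self x⟩⟩
        ⟨z, Finset.mem_sdiff.2 ⟨hz, fun h => hzx (Finset.mem_filter.1 h).2⟩⟩
      rw [Finset.mem_filter] at hu
      rw [Finset.mem_sdiff, Finset.mem_filter] at hv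
      exact hv.2 ⟨hv.1, ds_zero (Nat.le_zero.1 huv) hu.2⟩
    refine ⟨fun _ => x, fun y => if y = x then 0 else 1, ?_, ?_⟩
    · intro y hy hyx
      exact ⟨hx, by simp [hyx]⟩
    · have hprod : ∏ y ∈ S.erase x, ps (ds y x) = 1 := by
        refine Finset.prod_eq_one fun y hy => ?_
        rw [h0 y (Finset.mem_of_mem_erase hy)]
        unfold ps
        simp
      have hdm0 : dm S = 0 := by
        apply Nat.le_zero.1
        apply dm_le_of
        intro u hu v hv
        exact (ds_zero (by rw [ds_comm]; exact h0 u hu) (by rw [ds_comm]; exact h0 v hv)).le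
      have hp0 : ps 0 = 1 := by unfold ps; simp
      have h1 : PQ (1 / 2) V (Q S) ≤ 1 := Pr_le_one okh _ _
      rw [hdm0, hp0, mul_one]
      have e : ∏ y ∈ S.erase x, ps (ds y ((fun _ => x) y)) = 1 := hprod
      rw [e, mul_one]
      exact h1.trans (one_le_pow₀ ha1)
  · obtain ⟨t, rfl⟩ : ∃ u, t = u + 1 := ⟨t - 1, by omega⟩
    have htN : t + 1 ≤ dm S := by
      by_contra hcon
      push Not at hcon
      apply hmin (dm S) hcon
      rintro A hA ⟨u, hu⟩ ⟨v, hv⟩
      exact ⟨u, hu, v, hv, hdm u (hA hu) v (Finset.mem_sdiff.1 hv).1⟩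
    have hall : cmp t S x ≠ S := by
      intro h
      apply hmin t (Nat.lt_succ_self t)
      rw [← h]
      exact cmp_conn hx
    have hcmp : ∀ b ∈ S, cmp t S b ≠ S →
        Good V B Q False t (t + 1) (max t (dm (cmp t S b))) a
        (4 * (cmp t S b).card - 3) (cmp t S b) b := by
      intro b hb' _
      exact (key hs a ha t t (cmp t S b) b le_rfl (by omega) ((cmp_sub t S b).trans hS)
        (self_cmp hb') (cmp_conn hb')).mono (Nat.le_succ t) le_rfl ha1
    obtain ⟨Ev, par, rk, -, g2, g3, g4⟩ := full_of a t S x (by linarith) hx ht hall hcmp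
    refine ⟨par, rk, fun y hy hyx => ⟨(g3 y hy hyx).1, (g3 y hy hyx).2.1⟩, ?_⟩
    have h1 : PQ (1 / 2) V (Q S) ≤ PQ (1 / 2) V Ev := by
      refine Pr_mono okh ?_
      intro F hF hQ
      refine g2 S (Finset.Subset.refl S) hS (Or.inl trivial) ?_ F hF hQ
      intro v _ w hw
      rw [Finset.sdiff_self] at hw
      exact absurd hw (Finset.notMem_empty w)
    refine h1.trans (g4.trans ?_)
    rw [max_eq_right htN]
    refine mul_le_mul_of_nonneg_right ?_ (ps_pos _).le
    refine mul_le_mul_of_nonneg_right ?_ (prod_ps_pos _ _).le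
    exact pow_le_pow_right₀ ha1 (by omega)

end

end Pool.Agent.U167.AL
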