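import Pool.Agent.U167.AL.Fin

/-!
The number of clusters in a box for the infinite-volume measure.
-/

set_option autoImplicit false
set_option maxHeartbeats 1000000

namespace Pool.Agent.U167.AL

open H974 H12S Finset Filter Topology MeasureTheory

theorem mem_bV {n : ℕ} {v : Vtx} : v ∈ bV n ↔ (0 ≤ v.1 ∧ v.1 < n) ∧ (0 ≤ v.2 ∧ v.2 < n) := by
  unfold bV
  rw [mem_product, Finset.mem_Icc, Finset.mem_Icc]
  omega

theorem mem_bE {n : ℕ} {e : Edg} : e ∈ bE n ↔ src e ∈ bV n ∧ tgt e ∈ bV n := by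
  constructor
  · exact ends_bV
  · obtain ⟨x, y, _ | _⟩ := e
    · rintro ⟨h1, h2⟩
      rw [mem_bV] at h1 h2
      simp only [src_mk, tgt_false] at h1 h2
      unfold bE
      rw [mem_RE_false]
      omega
    · rintro ⟨h1, h2⟩
      rw [mem_bV] at h1 h2
      simp only [src_mk, tgt_true] at h1 h2
      unfold bE
      rw [mem_RE_true]
      omega

theorem induce_reach (n : ℕ) (ω : sqLattice.edgeSet → Bool) (B : Set Vtx)
    (hB : ∀ v, v ∈ B ↔ v ∈ bV n) (u v : B) :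
    ((openGraph ω).induce B).Reachable u v ↔ Reach (↑(FF (bE n) ω) : Set Edg) u.1 v.1 := by
  rw [SimpleGraph.reachable_iff_reflTransGen]
  constructor
  · intro h
    induction h with
    | refl => exact Reach.refl _ _
    | @tail w w' _ hs ih =>
      refine ih.trans ?_
      have h1 : (openGraph ω).Adj w.1 w'.1 := hs
      rw [openGraph_adj] at h1
      obtain ⟨e, he, hc⟩ := h1
      apply Adj.reach
      refine ⟨e, ?_, hc⟩
      rw [mem_coe, mem_FF]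
      refine ⟨mem_bE.2 ?_, he⟩
      have k1 := (hB _).1 w.2
      have k2 := (hB _).1 w'.2
      rcases hc with ⟨c1, c2⟩ | ⟨c1, c2⟩
      · rw [c1, c2]; exact ⟨k1, k2⟩
      · rw [c1, c2]; exact ⟨k2, k1⟩
  · intro h
    obtain ⟨u, hu⟩ := u
    obtain ⟨v, hv⟩ := v
    simp only at h
    have key : ∀ w : Vtx, Reach (↑(FF (bE n) ω) : Set Edg) u w → ∀ hw : w ∈ B,
        Relation.ReflTransGen ((openGraph ω).induce B).Adj ⟨u, hu⟩ ⟨w, hw⟩ := by
      intro w hw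
      induction hw with
      | refl => exact fun _ => Relation.ReflTransGen.refl
      | @tail w w' _ hs ih =>
        intro hw'
        obtain ⟨e, he, hc⟩ := hs
        rw [mem_coe, mem_FF] at he
        have hwB : w ∈ B := by
          rw [hB]
          obtain ⟨k1, k2⟩ := mem_bE.1 he.1
          rcases hc with ⟨c1, c2⟩ | ⟨c1, c2⟩
          · rw [← c1]; exact k1
          · rw [← c2]; exact k2
        refine (ih hwB).tail ?_
        show (openGraph ω).Adj w w'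
        rw [openGraph_adj]
        exact ⟨e, he.2, hc⟩
    exact key v h hv

theorem comp_card (n : ℕ) (ω : sqLattice.edgeSet → Bool) (B : Set Vtx)
    (hB : ∀ v, v ∈ B ↔ v ∈ bV n) :
    Nat.card ((openGraph ω).induce B).ConnectedComponent = nc (bV n) (FF (bE n) ω) := by
  unfold nc
  have e : B ≃ ↥(bV n) := Equiv.subtypeEquivRight hB
  refine Nat.card_congr ?_
  refine Quot.congr (Equiv.subtypeEquivRight hB) ?_
  intro u v
  rw [induce_reach n ω B hB]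
  rfl

/-- the mean number of clusters -/
theorem mean_clusters (p : unitInterval) (n : ℕ) (B : Set Vtx)
    (hB : ∀ v, v ∈ B ↔ v ∈ bV n) :
    ∫ ω, (Nat.card ((openGraph ω).induce B).ConnectedComponent : ℝ) ∂(bondLaw p) =
      mK n (p:ℝ) := by
  unfold mK
  rw [← law_ex p (bE n) (fun F => (nc (bV n) F : ℝ))]
  congr 1
  funext ω
  rw [comp_card n ω B hB]

theorem kf_tendsto (p : unitInterval) :
    Tendsto (fun n : ℕ => mK n (p:ℝ) / (n:ℝ) ^ 2) atTop (𝓝 (kf p)) := by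
  rw [Metric.tendsto_atTop]
  intro ε hε
  obtain ⟨n0, -, h⟩ := kf_lim (ε / 2) (by linarith)
  refine ⟨n0, fun n hn => ?_⟩
  rw [Real.dist_eq]
  have := h n hn p p.2.1 p.2.2
  linarith

/-- The order of vanishing of a remainder which is `O (|p - 1/2| ^ (8/3))`. -/
theorem order_le {R : ℝ → ℝ} {C a : ℝ} (hC : 1 ≤ C)
    (hR : ∀ p : ℝ, 0 ≤ p → p ≤ 1 → |R p| ≤ C * |p - 1 / 2| ^ (8 / 3 : ℝ))
    (h : ∀ ε : ℝ, 0 < ε → ∀ᶠ p : ℝ in 𝓝[≠] (1 / 2), |p - 1 / 2| ^ (2 - a + ε) ≤ |R p|) :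
    a ≤ -(2 / 3) := by
  by_contra hcon
  push Not at hcon
  obtain ⟨ε, hε⟩ : ∃ ε : ℝ, ε = (a + 2 / 3) / 3 := ⟨_, rfl⟩
  have hε0 : 0 < ε := by rw [hε]; linarith
  have h1 := h ε hε0
  have h2 : ∀ᶠ p : ℝ in 𝓝[≠] (1 / 2 : ℝ), 0 ≤ p ∧ p ≤ 1 := by
    have : Set.Icc (0:ℝ) 1 ∈ 𝓝 (1 / 2 : ℝ) := Icc_mem_nhds (by norm_num) (by norm_num)
    exact mem_nhdsWithin_of_mem_nhds this
  have h3 : Tendsto (fun p : ℝ => C * |p - 1 / 2| ^ ε) (𝓝[≠] (1 / 2)) (𝓝 0) := by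
    have h4 : Continuous (fun p : ℝ => C * |p - 1 / 2| ^ ε) :=
      ((Real.continuous_rpow_const hε0.le).comp (by fun_prop)).const_mul _
    have h5 := h4.tendsto (1 / 2)
    simp only [sub_self, abs_zero] at h5
    rw [Real.zero_rpow hε0.ne', mul_zero] at h5
    exact h5.mono_left nhdsWithin_le_nhds
  have h6 := h3.eventually (gt_mem_nhds zero_lt_one)
  have h7 : ∀ᶠ p : ℝ in 𝓝[≠] (1 / 2 : ℝ), p ≠ 1 / 2 := self_mem_nhdsWithin
  have h8 : ∀ᶠ p : ℝ in 𝓝[≠] (1 / 2 : ℝ), |p - 1 / 2| ≤ 1 := by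
    filter_upwards [h2] with p hp
    rw [abs_le]
    constructor <;> linarith [hp.1, hp.2]
  obtain ⟨p, k1, k2, k6, k7, k8⟩ := (h1.and (h2.and (h6.and (h7.and h8)))).exists
  have hs : 0 < |p - 1 / 2| := abs_pos.2 (sub_ne_zero.2 k7)
  have k3 := k1.trans (hR p k2.1 k2.2)
  have e1 : 2 - a + ε = 8 / 3 - 2 * ε := by rw [hε]; ring
  rw [e1] at k3
  have e2 : |p - 1 / 2| ^ (8 / 3 : ℝ) =
      |p - 1 / 2| ^ (8 / 3 - 2 * ε) * (|p - 1 / 2| ^ ε * |p - 1 / 2| ^ ε) := by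
    rw [← Real.rpow_add hs, ← Real.rpow_add hs]
    congr 1
    ring
  rw [e2] at k3
  have hpos : 0 < |p - 1 / 2| ^ (8 / 3 - 2 * ε) := Real.rpow_pos_of_pos hs _
  have hpos2 : 0 < |p - 1 / 2| ^ ε := Real.rpow_pos_of_pos hs _
  have hle : |p - 1 / 2| ^ ε ≤ 1 := Real.rpow_le_one hs.le k8 hε0.le
  have k4 : C * (|p - 1 / 2| ^ (8 / 3 - 2 * ε) * (|p - 1 / 2| ^ ε * |p - 1 / 2| ^ ε)) =
      |p - 1 / 2| ^ (8 / 3 - 2 * ε) * ((C * |p - 1 / 2| ^ ε) * |p - 1 / 2| ^ ε) := by ring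
  rw [k4] at k3
  have k5 : (C * |p - 1 / 2| ^ ε) * |p - 1 / 2| ^ ε < 1 := by
    have : 0 ≤ C * |p - 1 / 2| ^ ε := by positivity
    nlinarith
  nlinarith

end Pool.Agent.U167.AL
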