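import Pool.Agent.U167.AL.Inst

/-!
The expansion around the parameter `1 / 2` of the probability that the end points of the edge at
the origin are connected by a path which does not use this edge, when the parameters of the edges
of a box are changed.
-/

set_option autoImplicit false
set_option maxHeartbeats 1000000

namespace Pool.Agent.U167.AL

open H974 H12S Finset Pool.Agent.Y554.SN Pool.Agent.Y554.NE
open Pool.Agent.Y239.NE.Dec (okh ds_tri mem_blk_pos)
open Pool.Agent.Y239.NE.Out (blk_sub mem_blk_of ds_le_dm)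
open Pool.Agent.Y968.NE (ds_comm ds_zero ds_self)

/-- the indicator of the event -/
noncomputable def fA (F : Finset Edg) : ℝ := ind (Ac F)

theorem fA_abs (F : Finset Edg) : |fA F| ≤ 1 := by
  unfold fA
  rw [abs_of_nonneg (ind_nonneg _)]
  exact ind_le_one _

theorem fA_flip (e : Edg) (F : Finset Edg) (h : ¬ Pvc e F) : fA (insert e F) = fA (F.erase e) :=
  Pvc_ind e F h

theorem pvc_eo (G : Finset Edg) : ¬ Pvc eo G := by
  rintro ⟨h1, h2⟩
  apply h2
  unfold Ac at h1 ⊢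
  rw [Finset.erase_idem]
  have e : (insert eo G).erase eo = G.erase eo := by
    ext x
    simp only [mem_erase, mem_insert]
    tauto
  rwa [e] at h1

theorem ap_eo {S : Finset Edg} (h : eo ∈ S) (F : Finset Edg) : ¬ AP Pvc S F := by
  intro hF
  obtain ⟨T, -, hT⟩ := hF eo h
  exact pvc_eo _ hT

theorem ap_Qc {S : Finset Edg} (h : eo ∉ S) {F : Finset Edg} (hF : AP Pvc S F) :
    Qc (insert eo S) F := by
  classical
  refine ⟨mem_insert_self _ _, fun e he hne => ?_⟩
  have heS : e ∈ S := (mem_insert.1 he).resolve_left hne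
  obtain ⟨T, hT, hP⟩ := hF e heS
  refine ⟨T ∪ (F ∩ {eo}), ?_, ?_⟩
  · intro x hx
    rcases mem_union.1 hx with hx | hx
    · exact mem_insert_of_mem (hT hx)
    · have := (mem_inter.1 hx).2
      rw [mem_singleton] at this
      rw [this]
      exact mem_insert_self _ _
  · have e1 : (F \ insert eo S) ∪ (T ∪ (F ∩ {eo})) = (F \ S) ∪ T := by
      ext x
      simp only [mem_union, mem_sdiff, mem_insert, mem_inter, mem_singleton]
      constructor
      · rintro (⟨h1, h2⟩ | h1 | ⟨h1, rfl⟩)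
        · exact Or.inl ⟨h1, fun h3 => h2 (Or.inr h3)⟩
        · exact Or.inr h1
        · exact Or.inl ⟨h1, h⟩
      · rintro (⟨h1, h2⟩ | h1)
        · by_cases hx : x = eo
          · exact Or.inr (Or.inr ⟨h1, hx⟩)
          · exact Or.inl ⟨h1, fun h3 => h3.elim hx h2⟩
        · exact Or.inr (Or.inl h1)
    rw [e1]
    exact hP

theorem dm_box {n : ℕ} {S : Finset Edg} (hS : S ⊆ boxE n) : dm S ≤ 2 * n := by
  apply dm_le_of
  intro a ha b hb
  have h1 := Pool.Agent.Y239.NE.Out.pos_le (hS ha)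
  have h2 := Pool.Agent.Y239.NE.Out.pos_le (hS hb)
  unfold pos at h1 h2
  rw [abs_le, abs_le] at h1 h2
  simp only at h1 h2
  unfold ds
  omega

theorem eo_box {n : ℕ} (hn : 1 ≤ n) : eo ∈ boxE n := by
  unfold eo boxE
  rw [mem_RE_true]
  omega

/-- the sum of the linear coefficients -/
noncomputable def cD (M n : ℕ) : ℝ := ∑ s ∈ boxE n, cf (boxE M) fA s

/-- Second order bound. -/
theorem qbound : ∃ C : ℝ, 1 ≤ C ∧ ∀ (M n : ℕ) (δ : ℝ), 1 ≤ n → 5 * n ≤ M →
    C * |δ| * (n:ℝ) ^ (3 / 4 : ℝ) ≤ 1 →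
    |Ex (pB (boxE n) δ) (boxE M) fA - Ex (fun _ : Edg => (1 / 2 : ℝ)) (boxE M) fA -
      δ * cD M n| ≤ C * (δ ^ 2 * (n:ℝ) ^ (1 / 4 : ℝ)) := by
  classical
  obtain ⟨C0, hsys⟩ := sys
  obtain ⟨a, haa⟩ : ∃ a : ℝ, a = 144 * max 1 C0 := ⟨_, rfl⟩
  have hC1 : (1:ℝ) ≤ C0 := (hsys 0 0 0 le_rfl).one_le
  have ha : 144 * C0 ≤ a := by
    rw [haa]
    exact mul_le_mul_of_nonneg_left (le_max_right _ _) (by norm_num)
  have ha1 : 1 ≤ a := by linarith
  refine ⟨max (4800 * a ^ 4) (8 * 10 ^ 8 * a ^ 12), ?_, ?_⟩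
  · have : (1:ℝ) ≤ a ^ 4 := one_le_pow₀ ha1
    exact le_trans (by linarith) (le_max_left _ _)
  intro M n δ hn hM hδ
  have hn0 : (0:ℝ) < n := by exact_mod_cast hn
  have : Nonempty Edg := ⟨eo⟩
  have hB : boxE n ⊆ boxE M := boxE_mono (by omega)
  refine (taylor (boxE M) (boxE n) hB fA Pvc fA_abs fA_flip δ).trans ?_
  rcases eq_or_ne δ 0 with h0 | h0
  · subst h0
    have h1 : ∀ S ∈ (boxE n).powerset.filter (fun S => 2 ≤ S.card),
        (2 * |(0:ℝ)|) ^ S.card * Pr (fun _ : Edg => (1 / 2 : ℝ)) (boxE M) (AP Pvc S) = 0 := by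
      intro S hS
      have h2 := (mem_filter.1 hS).2
      rw [abs_zero, mul_zero, zero_pow (by omega), zero_mul]
    rw [sum_congr rfl h1, sum_const_zero]
    positivity
  · obtain ⟨Y, hY⟩ : ∃ Y : ℝ, Y = 2 * |δ| := ⟨_, rfl⟩
    have hδ0 : 0 < |δ| := abs_pos.2 h0
    have hY0 : 0 < Y := by rw [hY]; positivity
    rw [← hY]
    -- comparison of the sums
    have hcmp : ∑ S ∈ (boxE n).powerset.filter (fun S => 2 ≤ S.card), Y ^ S.card *
        Pr (fun _ : Edg => (1 / 2 : ℝ)) (boxE M) (AP Pvc S) ≤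
        Y⁻¹ * ∑ S ∈ (boxE n).powerset.filter (fun S => eo ∈ S ∧ 3 ≤ S.card),
          Y ^ S.card * PQ (1 / 2) (boxE M) (Qc S) := by
      rw [← sum_filter_add_sum_filter_not ((boxE n).powerset.filter (fun S => 2 ≤ S.card))
        (fun S => eo ∈ S)]
      have h1 : ∑ S ∈ ((boxE n).powerset.filter (fun S => 2 ≤ S.card)).filter (fun S => eo ∈ S),
          Y ^ S.card * Pr (fun _ : Edg => (1 / 2 : ℝ)) (boxE M) (AP Pvc S) = 0 := by
        apply sum_eq_zero
        intro S hS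
        have h2 := (mem_filter.1 hS).2
        have h3 : Pr (fun _ : Edg => (1 / 2 : ℝ)) (boxE M) (AP Pvc S) = 0 := by
          unfold Pr
          have h4 : Ex (fun _ : Edg => (1 / 2 : ℝ)) (boxE M) (fun F => ind (AP Pvc S F)) =
              Ex (fun _ : Edg => (1 / 2 : ℝ)) (boxE M) (fun _ => (0:ℝ)) := by
            apply Ex_congr
            intro F _
            exact ind_not_of (ap_eo h2 F)
          rw [h4, Ex_const]
        rw [h3, mul_zero]
      rw [h1, zero_add, mul_sum]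
      have hinj : Set.InjOn (fun S : Finset Edg => insert eo S)
          (↑(((boxE n).powerset.filter (fun S => 2 ≤ S.card)).filter (fun S => ¬ eo ∈ S)) :
            Set (Finset Edg)) := by
        intro S hS S' hS' h
        have k1 := (mem_filter.1 (mem_coe.1 hS)).2
        have k2 := (mem_filter.1 (mem_coe.1 hS')).2
        simp only at h
        rw [← erase_insert k1, h, erase_insert k2]
      have himg : (((boxE n).powerset.filter (fun S => 2 ≤ S.card)).filter
          (fun S => ¬ eo ∈ S)).image (fun S : Finset Edg => insert eo S) ⊆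
          (boxE n).powerset.filter (fun S => eo ∈ S ∧ 3 ≤ S.card) := by
        intro S' hS'
        obtain ⟨S, hS, rfl⟩ := mem_image.1 hS'
        rw [mem_filter, mem_filter, mem_powerset] at hS
        rw [mem_filter, mem_powerset]
        refine ⟨insert_subset (eo_box hn) hS.1.1, mem_insert_self _ _, ?_⟩
        rw [card_insert_of_notMem hS.2]
        omega
      refine le_trans ?_ (sum_le_sum_of_subset_of_nonneg himg ?_)
      · rw [sum_image hinj]
        apply sum_le_sum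
        intro S hS
        rw [mem_filter, mem_filter, mem_powerset] at hS
        rw [card_insert_of_notMem hS.2, pow_succ]
        have h4 : Pr (fun _ : Edg => (1 / 2 : ℝ)) (boxE M) (AP Pvc S) ≤
            PQ (1 / 2) (boxE M) (Qc (insert eo S)) :=
          Pr_mono okh (fun F _ hF => ap_Qc hS.2 hF)
        have h5 : Y⁻¹ * (Y ^ S.card * Y * PQ (1 / 2) (boxE M) (Qc (insert eo S))) =
            Y ^ S.card * PQ (1 / 2) (boxE M) (Qc (insert eo S)) := by
          field_simp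
        rw [h5]
        exact mul_le_mul_of_nonneg_left h4 (by positivity)
      · intro S _ _
        have := Pr_nonneg okh (boxE M) (Qc S)
        unfold PQ
        positivity
    refine hcmp.trans ?_
    have hs := hsys M n (4 * n) (by omega)
    have h2n : ((2 * n : ℕ) : ℝ) ^ (3 / 4 : ℝ) ≤ 2 * (n:ℝ) ^ (3 / 4 : ℝ) := by
      push_cast
      rw [Real.mul_rpow (by norm_num) hn0.le]
      apply mul_le_mul_of_nonneg_right _ (by positivity)
      calc (2:ℝ) ^ (3 / 4 : ℝ) ≤ (2:ℝ) ^ (1:ℝ) :=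
            Real.rpow_le_rpow_of_exponent_le (by norm_num) (by norm_num)
        _ = 2 := Real.rpow_one 2
    have h2n' : ((2 * n : ℕ) : ℝ) ^ (1 / 4 : ℝ) ≤ 2 * (n:ℝ) ^ (1 / 4 : ℝ) := by
      push_cast
      rw [Real.mul_rpow (by norm_num) hn0.le]
      apply mul_le_mul_of_nonneg_right _ (by positivity)
      calc (2:ℝ) ^ (1 / 4 : ℝ) ≤ (2:ℝ) ^ (1:ℝ) :=
            Real.rpow_le_rpow_of_exponent_le (by norm_num) (by norm_num)
        _ = 2 := Real.rpow_one 2
    have hsm : 1200 * a ^ 4 * Y * ((2 * n : ℕ) : ℝ) ^ (3 / 4 : ℝ) ≤ 1 := by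
      calc 1200 * a ^ 4 * Y * ((2 * n : ℕ) : ℝ) ^ (3 / 4 : ℝ) ≤
            1200 * a ^ 4 * Y * (2 * (n:ℝ) ^ (3 / 4 : ℝ)) :=
            mul_le_mul_of_nonneg_left h2n (by positivity)
        _ = 4800 * a ^ 4 * |δ| * (n:ℝ) ^ (3 / 4 : ℝ) := by rw [hY]; ring
        _ ≤ max (4800 * a ^ 4) (8 * 10 ^ 8 * a ^ 12) * |δ| * (n:ℝ) ^ (3 / 4 : ℝ) := by
            apply mul_le_mul_of_nonneg_right _ (by positivity)
            exact mul_le_mul_of_nonneg_right (le_max_left _ _) hδ0.le
        _ ≤ 1 := hδ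
    have h3 := sum3 hs ha (eo_box hn) (n := 2 * n) (by omega) (by omega)
      (fun S hS => dm_box hS) hY0.le hsm
    calc Y⁻¹ * ∑ S ∈ (boxE n).powerset.filter (fun S => eo ∈ S ∧ 3 ≤ S.card),
          Y ^ S.card * PQ (1 / 2) (boxE M) (Qc S) ≤
          Y⁻¹ * (10 ^ 8 * a ^ 12 * Y ^ 3 * ((2 * n : ℕ) : ℝ) ^ (1 / 4 : ℝ)) :=
          mul_le_mul_of_nonneg_left h3 (by positivity)
      _ ≤ Y⁻¹ * (10 ^ 8 * a ^ 12 * Y ^ 3 * (2 * (n:ℝ) ^ (1 / 4 : ℝ))) := by
          apply mul_le_mul_of_nonneg_left _ (by positivity)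
          exact mul_le_mul_of_nonneg_left h2n' (by positivity)
      _ = 8 * 10 ^ 8 * a ^ 12 * (|δ| ^ 2 * (n:ℝ) ^ (1 / 4 : ℝ)) := by
          rw [hY]
          field_simp
          ring
      _ ≤ max (4800 * a ^ 4) (8 * 10 ^ 8 * a ^ 12) * (|δ| ^ 2 * (n:ℝ) ^ (1 / 4 : ℝ)) :=
          mul_le_mul_of_nonneg_right (le_max_right _ _) (by positivity)
      _ = _ := by rw [sq_abs]

/-- The linear coefficients. -/
theorem cf_bound : ∃ C : ℝ, 1 ≤ C ∧ ∀ (M m : ℕ) (s : Edg), 1 ≤ m → 2 * m ≤ M →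
    s ∈ boxE m → |cf (boxE M) fA s| ≤ C * (ps (ds s eo)) ^ 2 := by
  classical
  obtain ⟨C0, hsys⟩ := sys
  have hC1 : (1:ℝ) ≤ C0 := (hsys 0 0 0 le_rfl).one_le
  refine ⟨2 * (144 * C0) ^ 8, ?_, ?_⟩
  · have : (1:ℝ) ≤ (144 * C0) ^ 8 := one_le_pow₀ (by linarith)
    linarith
  intro M m s hm hM hs
  have : Nonempty Edg := ⟨eo⟩
  have hsM : s ∈ boxE M := boxE_mono (by omega) hs
  have h1 := cf_le (boxE M) s hsM fA Pvc fA_abs fA_flip
  have hps := ps_pos (ds s eo)
  by_cases hne : s = eo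
  · have h3 : Pr (fun _ : Edg => (1 / 2 : ℝ)) (boxE M) (AP Pvc {s}) = 0 := by
      unfold Pr
      have h4 : Ex (fun _ : Edg => (1 / 2 : ℝ)) (boxE M) (fun F => ind (AP Pvc {s} F)) =
          Ex (fun _ : Edg => (1 / 2 : ℝ)) (boxE M) (fun _ => (0:ℝ)) := by
        apply Ex_congr
        intro F _
        exact ind_not_of (ap_eo (by rw [hne]; simp) F)
      rw [h4, Ex_const]
    rw [h3, mul_zero] at h1
    exact h1.trans (by positivity)
  · have hsy := hsys M m m (by omega)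
    have hds : ds s eo ≤ m := by
      have h5 := Pool.Agent.Y239.NE.Out.pos_le hs
      unfold pos at h5
      rw [abs_le, abs_le] at h5
      simp only at h5
      unfold ds eo
      simp only
      omega
    have h2 := two hsy (a := 144 * C0) le_rfl (eo_box hm) hs hne hds
    have h3 : Pr (fun _ : Edg => (1 / 2 : ℝ)) (boxE M) (AP Pvc {s}) ≤
        PQ (1 / 2) (boxE M) (Qc {eo, s}) := by
      refine Pr_mono okh (fun F _ hF => ?_)
      exact ap_Qc (S := {s}) (by rw [mem_singleton]; exact fun h => hne h.symm) hF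
    calc |cf (boxE M) fA s| ≤ 2 * PQ (1 / 2) (boxE M) (Qc {eo, s}) := by linarith
      _ ≤ 2 * ((144 * C0) ^ 8 * (ps (ds s eo)) ^ 2) := by linarith
      _ = _ := by ring

end Pool.Agent.U167.AL
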