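import Pool.Agent.U167.AL.Key
import Pool.Agent.Y21.NE.Tree
import Pool.Agent.Y433.NE.Suma

/-!
Polymer bounds for sets of edges all of which are pivotal, abstract form: sums.
-/

set_option autoImplicit false
set_option maxHeartbeats 1000000

namespace Pool.Agent.U167.AL

open H974 H12S Finset Pool.Agent.Y554.SN Pool.Agent.Y554.NE
open Pool.Agent.Y239.NE.Dec (okh ds_tri mem_blk_pos)
open Pool.Agent.Y239.NE.Out (blk_sub mem_blk_of ds_le_dm)
open Pool.Agent.Y968.NE (ds_comm ds_zero ds_self)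

/-- the number of edges at distance at most `2 D` -/
theorem card_ds (G : Finset Edg) (z : Edg) {D : ℕ} (hD : 1 ≤ D)
    (h : ∀ y ∈ G, ds y z ≤ 2 * D) : (G.card : ℝ) ≤ 50 * (D:ℝ) ^ 2 := by
  classical
  have hsub : G ⊆ (Finset.Icc (z.1 - 2 * D) (z.1 + 2 * D)) ×ˢ
      ((Finset.Icc (z.2.1 - 2 * D) (z.2.1 + 2 * D)) ×ˢ (univ : Finset Bool)) := by
    intro y hy
    have h1 := h y hy
    have h8 : (y.1 - z.1).natAbs ≤ ds y z := le_max_left _ _
    have h9 : (y.2.1 - z.2.1).natAbs ≤ ds y z := le_max_right _ _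
    rw [mem_product, mem_product, Finset.mem_Icc, Finset.mem_Icc]
    refine ⟨by omega, by omega, mem_univ _⟩
  have h2 := card_le_card hsub
  rw [card_product, card_product, Int.card_Icc, Int.card_Icc, card_univ, Fintype.card_bool] at h2
  have e1 : (z.1 + 2 * (D:ℤ) + 1 - (z.1 - 2 * D)).toNat = 4 * D + 1 := by omega
  have e2 : (z.2.1 + 2 * (D:ℤ) + 1 - (z.2.1 - 2 * D)).toNat = 4 * D + 1 := by omega
  rw [e1, e2] at h2
  have h3 : (G.card : ℝ) ≤ (4 * D + 1) * ((4 * D + 1) * 2) := by exact_mod_cast h2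
  have hDr : (1:ℝ) ≤ D := by exact_mod_cast hD
  nlinarith

/-- the sum of the kernel -/
theorem ksum (B : Finset Edg) (z : Edg) {m : ℕ} (hm : 1 ≤ m) :
    ∑ y ∈ B.filter (fun y => ds y z ≤ m), ps (ds y z) ≤ 200 * (m:ℝ) ^ (3 / 4 : ℝ) := by
  classical
  set W := B.filter (fun y => ds y z ≤ m) with hW
  set J := Nat.log 2 m with hJ
  have h2J : 2 ^ J ≤ m := Nat.pow_log_le_self 2 (by omega)
  have hmaps : ∀ y ∈ W, Nat.log 2 (max 1 (ds y z)) ∈ range (J + 1) := by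
    intro y hy
    rw [hW, mem_filter] at hy
    rw [mem_range, Nat.lt_succ_iff, hJ]
    exact Nat.log_mono_right (max_le hm hy.2)
  rw [← sum_fiberwise_of_maps_to hmaps]
  have hone : ∀ j ∈ range (J + 1), ∑ y ∈ W.filter (fun y => Nat.log 2 (max 1 (ds y z)) = j),
      ps (ds y z) ≤ 50 * (((2 : ℕ) ^ j : ℕ) : ℝ) ^ (3 / 4 : ℝ) := by
    intro j hj
    set D := 2 ^ j with hDdef
    have hD : 1 ≤ D := Nat.one_le_two_pow
    have hD0 : (0 : ℝ) < D := by exact_mod_cast hD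
    set G := W.filter (fun y => Nat.log 2 (max 1 (ds y z)) = j) with hG
    have hGp : ∀ y ∈ G, ds y z ≤ 2 * D ∧ D ≤ max 1 (ds y z) := by
      intro y hy
      rw [hG, mem_filter] at hy
      obtain ⟨h1, h3⟩ := hy
      have h4 : max 1 (ds y z) < 2 ^ (j + 1) := by
        rw [← h3]
        exact Nat.lt_pow_succ_log_self (by norm_num) _
      have h5 : D ≤ max 1 (ds y z) := by
        rw [hDdef, ← h3]
        exact Nat.pow_log_le_self 2 (by omega)
      have h6 : 2 ^ (j + 1) = 2 * D := by rw [hDdef]; ring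
      exact ⟨by omega, h5⟩
    have hbd : ∀ y ∈ G, ps (ds y z) ≤ (D : ℝ) ^ (-(5 / 4) : ℝ) := by
      intro y hy
      unfold ps
      exact Real.rpow_le_rpow_of_nonpos hD0 (by exact_mod_cast (hGp y hy).2) (by norm_num)
    have hcard := card_ds G z hD (fun y hy => (hGp y hy).1)
    calc ∑ y ∈ G, ps (ds y z) ≤ ∑ y ∈ G, (D : ℝ) ^ (-(5 / 4) : ℝ) := sum_le_sum hbd
      _ = G.card * (D : ℝ) ^ (-(5 / 4) : ℝ) := by rw [sum_const, nsmul_eq_mul]
      _ ≤ (50 * (D:ℝ) ^ 2) * (D : ℝ) ^ (-(5 / 4) : ℝ) :=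
          mul_le_mul_of_nonneg_right hcard (by positivity)
      _ = 50 * (D : ℝ) ^ (3 / 4 : ℝ) := by
          rw [mul_assoc, ← Real.rpow_natCast (D:ℝ) 2, ← Real.rpow_add hD0]
          norm_num
  refine (sum_le_sum hone).trans ?_
  rw [← mul_sum]
  have h1 := Pool.Agent.Y433.NE.geo J
  have h2 : (((2 : ℕ) ^ J : ℕ) : ℝ) ^ (3 / 4 : ℝ) ≤ (m : ℝ) ^ (3 / 4 : ℝ) :=
    Real.rpow_le_rpow (by positivity) (by exact_mod_cast h2J) (by norm_num)
  linarith

section
variable {V B : Finset Edg} {N : ℕ} {C : ℝ} {Q : Finset Edg → Finset Edg → Prop}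

open Classical in
/-- sum over the sets of diameter at most `D` -/
theorem tree_sum (hs : Sys V B N C Q) {a : ℝ} (ha : 144 * C ≤ a) {x : Edg} (hx : x ∈ B)
    {D L : ℕ} (hD : 1 ≤ D) (hDN : D ≤ N) {Y : ℝ} (hY : 0 ≤ Y)
    (hsm : 3 * (200 * (D:ℝ) ^ (3 / 4 : ℝ)) * (a ^ 4 * Y) ≤ 1) (G : Finset (Finset Edg))
    (hG : ∀ S ∈ G, S ⊆ B ∧ x ∈ S ∧ dm S ≤ D ∧ L ≤ max 1 (dm S) ∧ 3 ≤ S.card) :
    ∑ S ∈ G, Y ^ S.card * PQ (1 / 2) V (Q S) ≤
      ps L * (27 * (200 * (D:ℝ) ^ (3 / 4 : ℝ)) ^ 2 * (a ^ 4 * Y) ^ 3) := by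
  have hC1 := hs.one_le
  have ha1 : 1 ≤ a := by linarith
  have ha0 : 0 < a := by linarith
  have hDr : (0:ℝ) < D := by exact_mod_cast hD
  obtain ⟨M, hM⟩ : ∃ M : ℝ, M = 200 * (D:ℝ) ^ (3 / 4 : ℝ) := ⟨_, rfl⟩
  obtain ⟨y, hy⟩ : ∃ y : ℝ, y = a ^ 4 * Y := ⟨_, rfl⟩
  rw [← hM, ← hy] at hsm ⊢
  have hM0 : 0 < M := by rw [hM]; positivity
  have hy0 : 0 ≤ y := by rw [hy]; positivity
  obtain ⟨Y1, hY1⟩ : ∃ Y1 : ℝ, Y1 = 1 / (3 * M) := ⟨_, rfl⟩
  have hY10 : 0 < Y1 := by rw [hY1]; positivity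
  have hY1M : 3 * M * Y1 = 1 := by rw [hY1]; field_simp
  have hyY : y ≤ Y1 := by
    rw [hY1, le_div_iff₀ (by positivity)]
    linarith
  -- the weights
  set w : Finset Edg → Edg → ℝ := fun S _ => if dm S ≤ D then
    PQ (1 / 2) V (Q S) / (a ^ (4 * S.card) * ps (dm S)) else 0 with hw
  set kap : Edg → Edg → ℝ := fun u v => if ds u v ≤ D then ps (ds u v) else 0 with hkap
  have hkap0 : ∀ u v, 0 ≤ kap u v := by
    intro u v
    rw [hkap]
    simp only
    split_ifs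
    · exact (ps_pos _).le
    · exact le_rfl
  have hksum : ∀ z ∈ B, ∑ u ∈ B, kap u z ≤ M := by
    intro z _
    rw [hM]
    refine le_trans (le_of_eq ?_) (ksum B z hD)
    rw [hkap]
    simp only
    rw [← sum_filter]
  have htree := Pool.Agent.Y21.NE.tree B kap w M Y1 hkap0 hksum hY10.le hY1M.le ?_ x hx
  · have h1 : ∀ S ∈ G, Y ^ S.card * PQ (1 / 2) V (Q S) ≤
        ps L * (y / Y1) ^ 3 * (Y1 ^ S.card * w S x) := by
      intro S hS
      obtain ⟨h1, h2, h3, h4, h5⟩ := hG S hS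
      have hw1 : PQ (1 / 2) V (Q S) = a ^ (4 * S.card) * ps (dm S) * w S x := by
        rw [hw]
        simp only
        rw [if_pos h3]
        have := (ps_pos (dm S)).ne'
        field_simp
      have hw0 : 0 ≤ w S x := by
        rw [hw]
        simp only
        rw [if_pos h3]
        have := ps_pos (dm S)
        have := Pr_nonneg okh V (Q S)
        unfold PQ
        positivity
      have hps : ps (dm S) ≤ ps L := by
        have e : ps (dm S) = ps (max 1 (dm S)) := by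
          unfold ps
          rw [← max_assoc, max_self]
        rw [e]
        exact ps_anti h4
      have hpow : y ^ S.card ≤ (y / Y1) ^ 3 * Y1 ^ S.card := by
        obtain ⟨k, hk⟩ : ∃ k, S.card = 3 + k := ⟨S.card - 3, by omega⟩
        rw [hk, pow_add, pow_add, ← mul_assoc, ← mul_pow, div_mul_cancel₀ _ hY10.ne']
        exact mul_le_mul_of_nonneg_left (pow_le_pow_left₀ hy0 hyY k) (by positivity)
      rw [hw1]
      have e1 : Y ^ S.card * (a ^ (4 * S.card) * ps (dm S) * w S x) =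
          y ^ S.card * (ps (dm S) * w S x) := by
        rw [hy, mul_pow, ← pow_mul]
        ring
      rw [e1]
      calc y ^ S.card * (ps (dm S) * w S x) ≤
            ((y / Y1) ^ 3 * Y1 ^ S.card) * (ps L * w S x) :=
            mul_le_mul hpow (mul_le_mul_of_nonneg_right hps hw0)
              (mul_nonneg (ps_pos _).le hw0) (by positivity)
        _ = _ := by ring
    refine (sum_le_sum h1).trans ?_
    rw [← mul_sum]
    have hsub : G ⊆ B.powerset.filter (fun S => x ∈ S) := by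
      intro S hS
      rw [mem_filter, mem_powerset]
      exact ⟨(hG S hS).1, (hG S hS).2.1⟩
    have h2 : ∑ S ∈ G, Y1 ^ S.card * w S x ≤ 3 * Y1 := by
      refine (sum_le_sum_of_subset_of_nonneg hsub ?_).trans htree
      intro S _ _
      apply mul_nonneg (by positivity)
      rw [hw]
      simp only
      split_ifs
      · have := ps_pos (dm S)
        have := Pr_nonneg okh V (Q S)
        unfold PQ
        positivity
      · exact le_rfl
    have h3 : ps L * (y / Y1) ^ 3 * (3 * Y1) = ps L * (27 * M ^ 2 * y ^ 3) := by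
      rw [hY1]
      field_simp
      ring
    calc ps L * (y / Y1) ^ 3 * ∑ S ∈ G, Y1 ^ S.card * w S x ≤
          ps L * (y / Y1) ^ 3 * (3 * Y1) := by
          apply mul_le_mul_of_nonneg_left h2
          have := ps_pos L
          positivity
      _ = _ := h3
  · intro S hS z hz
    by_cases hd : dm S ≤ D
    · obtain ⟨par, rk, h1, h2⟩ := keyF hs a ha S z hS hz (hd.trans hDN)
      refine ⟨par, rk, h1, ?_⟩
      rw [hw]
      simp only
      rw [if_pos hd]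
      have hp := ps_pos (dm S)
      rw [div_le_iff₀ (by positivity)]
      have e : ∏ u ∈ S.erase z, kap u (par u) = ∏ u ∈ S.erase z, ps (ds u (par u)) := by
        apply prod_congr rfl
        intro u hu
        rw [hkap]
        simp only
        rw [if_pos]
        exact (ds_le_dm (mem_of_mem_erase hu)
          (h1 u (mem_of_mem_erase hu) (ne_of_mem_erase hu)).1).trans hd
      rw [e]
      refine h2.trans (le_of_eq (by ring))
    · refine ⟨fun _ => z, fun u => if u = z then 0 else 1, ?_, ?_⟩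
      · intro u _ huz
        exact ⟨hz, by simp [huz]⟩
      · rw [hw]
        simp only
        rw [if_neg hd]
        exact prod_nonneg fun u _ => hkap0 _ _

/-- a geometric sum -/
theorem geo4 (J : ℕ) : ∑ j ∈ range (J + 1), (((2 : ℕ) ^ j : ℕ) : ℝ) ^ (1 / 4 : ℝ) ≤
    7 * (((2 : ℕ) ^ J : ℕ) : ℝ) ^ (1 / 4 : ℝ) := by
  have hρ : (7 / 6 : ℝ) ≤ (2 : ℝ) ^ (1 / 4 : ℝ) := by
    have h1 : (7 / 6 : ℝ) = ((7 / 6 : ℝ) ^ (4 : ℝ)) ^ (1 / 4 : ℝ) := by
      rw [← Real.rpow_mul (by norm_num)]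
      norm_num
    rw [h1]
    refine Real.rpow_le_rpow (by positivity) ?_ (by norm_num)
    norm_num
  induction J with
  | zero => simp
  | succ J ih =>
    rw [sum_range_succ]
    have h3 : (((2 : ℕ) ^ (J + 1) : ℕ) : ℝ) ^ (1 / 4 : ℝ) =
        (((2 : ℕ) ^ J : ℕ) : ℝ) ^ (1 / 4 : ℝ) * (2 : ℝ) ^ (1 / 4 : ℝ) := by
      rw [← Real.mul_rpow (by positivity) (by norm_num)]
      congr 1
      push_cast
      ring
    have h4 : 0 ≤ (((2 : ℕ) ^ J : ℕ) : ℝ) ^ (1 / 4 : ℝ) := by positivity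
    rw [h3]
    nlinarith

open Classical in
/-- sum over all sets with at least three elements -/
theorem sum3 (hs : Sys V B N C Q) {a : ℝ} (ha : 144 * C ≤ a) {x : Edg} (hx : x ∈ B)
    {n : ℕ} (hn : 1 ≤ n) (hnN : 2 * n ≤ N) (hdm : ∀ S ⊆ B, dm S ≤ n) {Y : ℝ} (hY : 0 ≤ Y)
    (hsm : 1200 * a ^ 4 * Y * (n:ℝ) ^ (3 / 4 : ℝ) ≤ 1) :
    ∑ S ∈ B.powerset.filter (fun S => x ∈ S ∧ 3 ≤ S.card), Y ^ S.card * PQ (1 / 2) V (Q S) ≤
      10 ^ 8 * a ^ 12 * Y ^ 3 * (n:ℝ) ^ (1 / 4 : ℝ) := by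
  have hC1 := hs.one_le
  have ha0 : 0 < a := by linarith
  set W := B.powerset.filter (fun S => x ∈ S ∧ 3 ≤ S.card) with hW
  set J := Nat.log 2 n with hJ
  have h2J : 2 ^ J ≤ n := Nat.pow_log_le_self 2 (by omega)
  have hmaps : ∀ S ∈ W, Nat.log 2 (max 1 (dm S)) ∈ range (J + 1) := by
    intro S hS
    rw [hW, mem_filter, mem_powerset] at hS
    rw [mem_range, Nat.lt_succ_iff, hJ]
    exact Nat.log_mono_right (max_le hn (hdm S hS.1))
  rw [← sum_fiberwise_of_maps_to hmaps]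
  have hone : ∀ j ∈ range (J + 1), ∑ S ∈ W.filter (fun S => Nat.log 2 (max 1 (dm S)) = j),
      Y ^ S.card * PQ (1 / 2) V (Q S) ≤
        (27 * 400 ^ 2 * a ^ 12 * Y ^ 3) * (((2 : ℕ) ^ j : ℕ) : ℝ) ^ (1 / 4 : ℝ) := by
    intro j hj
    rw [mem_range, Nat.lt_succ_iff] at hj
    set D := 2 ^ j with hDdef
    have hD : 1 ≤ D := Nat.one_le_two_pow
    have hD0 : (0 : ℝ) < D := by exact_mod_cast hD
    have hDn : D ≤ n := (Nat.pow_le_pow_right (by norm_num) hj).trans h2J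
    have hDn' : (D:ℝ) ≤ n := by exact_mod_cast hDn
    have h2 : ((2 * D : ℕ) : ℝ) ^ (3 / 4 : ℝ) ≤ 2 * (D:ℝ) ^ (3 / 4 : ℝ) := by
      push_cast
      rw [Real.mul_rpow (by norm_num) hD0.le]
      apply mul_le_mul_of_nonneg_right _ (by positivity)
      calc (2:ℝ) ^ (3 / 4 : ℝ) ≤ (2:ℝ) ^ (1:ℝ) :=
            Real.rpow_le_rpow_of_exponent_le (by norm_num) (by norm_num)
        _ = 2 := Real.rpow_one 2
    have h3 : (D:ℝ) ^ (3 / 4 : ℝ) ≤ (n:ℝ) ^ (3 / 4 : ℝ) :=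
      Real.rpow_le_rpow hD0.le hDn' (by norm_num)
    have haY : 0 ≤ a ^ 4 * Y := by positivity
    have h4 : 3 * (200 * ((2 * D : ℕ) : ℝ) ^ (3 / 4 : ℝ)) * (a ^ 4 * Y) ≤ 1 := by
      calc 3 * (200 * ((2 * D : ℕ) : ℝ) ^ (3 / 4 : ℝ)) * (a ^ 4 * Y) ≤
            3 * (200 * (2 * (n:ℝ) ^ (3 / 4 : ℝ))) * (a ^ 4 * Y) := by
            apply mul_le_mul_of_nonneg_right _ haY
            linarith
        _ = 1200 * a ^ 4 * Y * (n:ℝ) ^ (3 / 4 : ℝ) := by ring
        _ ≤ 1 := hsm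
    have h5 := tree_sum hs ha hx (D := 2 * D) (L := D) (by omega) (by omega) hY h4
      (W.filter (fun S => Nat.log 2 (max 1 (dm S)) = j)) ?_
    · refine h5.trans ?_
      have h6 : ps D = (D:ℝ) ^ (-(5 / 4) : ℝ) := by
        unfold ps
        rw [max_eq_right hD]
      have h7 : (200 * ((2 * D : ℕ) : ℝ) ^ (3 / 4 : ℝ)) ^ 2 ≤ (400 * (D:ℝ) ^ (3 / 4 : ℝ)) ^ 2 :=
        pow_le_pow_left₀ (by positivity) (by linarith) 2
      have h8 : (D:ℝ) ^ (-(5 / 4) : ℝ) * ((D:ℝ) ^ (3 / 4 : ℝ)) ^ 2 = (D:ℝ) ^ (1 / 4 : ℝ) := by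
        rw [← Real.rpow_natCast ((D:ℝ) ^ (3 / 4 : ℝ)) 2, ← Real.rpow_mul hD0.le,
          ← Real.rpow_add hD0]
        norm_num
      rw [h6]
      have haY3 : 0 ≤ (a ^ 4 * Y) ^ 3 := by positivity
      calc (D:ℝ) ^ (-(5 / 4) : ℝ) * (27 * (200 * ((2 * D : ℕ) : ℝ) ^ (3 / 4 : ℝ)) ^ 2 *
            (a ^ 4 * Y) ^ 3) ≤
            (D:ℝ) ^ (-(5 / 4) : ℝ) * (27 * (400 * (D:ℝ) ^ (3 / 4 : ℝ)) ^ 2 * (a ^ 4 * Y) ^ 3) := by
            apply mul_le_mul_of_nonneg_left _ (by positivity)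
            apply mul_le_mul_of_nonneg_right _ haY3
            linarith
        _ = (27 * 400 ^ 2 * a ^ 12 * Y ^ 3) *
            ((D:ℝ) ^ (-(5 / 4) : ℝ) * ((D:ℝ) ^ (3 / 4 : ℝ)) ^ 2) := by ring
        _ = _ := by rw [h8]
    · intro S hS
      rw [mem_filter, hW, mem_filter, mem_powerset] at hS
      obtain ⟨⟨g1, g2, g3⟩, g4⟩ := hS
      have g5 : max 1 (dm S) < 2 ^ (j + 1) := by
        rw [← g4]
        exact Nat.lt_pow_succ_log_self (by norm_num) _
      have g6 : D ≤ max 1 (dm S) := by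
        rw [hDdef, ← g4]
        exact Nat.pow_log_le_self 2 (by omega)
      have g7 : 2 ^ (j + 1) = 2 * D := by rw [hDdef]; ring
      exact ⟨g1, g2, by omega, g6, g3⟩
  refine (sum_le_sum hone).trans ?_
  rw [← mul_sum]
  have h1 := geo4 J
  have h2 : (((2 : ℕ) ^ J : ℕ) : ℝ) ^ (1 / 4 : ℝ) ≤ (n : ℝ) ^ (1 / 4 : ℝ) :=
    Real.rpow_le_rpow (by positivity) (by exact_mod_cast h2J) (by norm_num)
  have h3 : 0 ≤ a ^ 12 * Y ^ 3 := by positivity
  calc (27 * 400 ^ 2 * a ^ 12 * Y ^ 3) *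
        ∑ j ∈ range (J + 1), (((2 : ℕ) ^ j : ℕ) : ℝ) ^ (1 / 4 : ℝ) ≤
        (27 * 400 ^ 2 * a ^ 12 * Y ^ 3) * (7 * (n:ℝ) ^ (1 / 4 : ℝ)) := by
        apply mul_le_mul_of_nonneg_left _ (by positivity)
        linarith
    _ = (27 * 400 ^ 2 * 7) * (a ^ 12 * Y ^ 3) * (n:ℝ) ^ (1 / 4 : ℝ) := by ring
    _ ≤ 10 ^ 8 * (a ^ 12 * Y ^ 3) * (n:ℝ) ^ (1 / 4 : ℝ) := by
        apply mul_le_mul_of_nonneg_right _ (by positivity)
        apply mul_le_mul_of_nonneg_right _ h3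
        norm_num
    _ = _ := by ring

/-- two edges -/
theorem two (hs : Sys V B N C Q) {a : ℝ} (ha : 144 * C ≤ a) {x f : Edg} (hx : x ∈ B)
    (hf : f ∈ B) (hne : f ≠ x) (hN : ds f x ≤ N) :
    PQ (1 / 2) V (Q {x, f}) ≤ a ^ 8 * (ps (ds f x)) ^ 2 := by
  classical
  have hdm : dm {x, f} = ds f x := by
    apply le_antisymm
    · apply dm_le_of
      intro u hu v hv
      rw [mem_insert, mem_singleton] at hu hv
      rcases hu with rfl | rfl <;> rcases hv with rfl | rfl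
      · rw [ds_self]; omega
      · rw [ds_comm]
      · exact le_rfl
      · rw [ds_self]; omega
    · exact ds_le_dm (by simp) (by simp)
  obtain ⟨par, rk, h1, h2⟩ := keyF hs a ha {x, f} x
    (by
      intro e he
      rw [mem_insert, mem_singleton] at he
      rcases he with rfl | rfl
      · exact hx
      · exact hf) (by simp) (by rw [hdm]; exact hN)
  have hc : ({x, f} : Finset Edg).card = 2 := card_pair (fun h => hne h.symm)
  have he : ({x, f} : Finset Edg).erase x = {f} := by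
    rw [erase_insert]
    rw [mem_singleton]
    exact fun h => hne h.symm
  rw [hc, he, prod_singleton, hdm] at h2
  have hp : par f = x := by
    obtain ⟨k1, k2⟩ := h1 f (by simp) hne
    rw [mem_insert, mem_singleton] at k1
    rcases k1 with k | k
    · exact k
    · rw [k] at k2
      omega
  rw [hp] at h2
  refine h2.trans (le_of_eq ?_)
  ring

end

end Pool.Agent.U167.AL
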