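import Pool.Agent.U167.AL.DT
import Pool.Agent.W424.NC.Stab

/-!
Uniform bound for the four-arm probability at all parameters.
-/

set_option autoImplicit false
set_option maxHeartbeats 1000000

namespace Pool.Agent.U167.AL

open H974 H12S Finset Pool.Agent.Y554.SN Pool.Agent.Y554.NE
open Pool.Agent.Y239.NE.Dec (okh ds_tri mem_blk_pos)

theorem circ_loc2 {R1 R2 : ℕ} (h1 : 1 ≤ R1) (_ : R1 ≤ R2) {T : Finset Edg}
    (hT : boxE R2 \ boxE (R1 - 1) ⊆ T) (F : Finset Edg) :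
    Circ (R1:ℤ) (R2:ℤ) F ↔ Circ (R1:ℤ) (R2:ℤ) (F ∩ T) := by
  have hT' : ∀ e : Edg, e ∈ RE (-(R2:ℤ)) R2 (-(R2:ℤ)) R2 →
      e ∉ RE (-((R1 - 1 : ℕ):ℤ)) ((R1 - 1 : ℕ):ℤ) (-((R1 - 1 : ℕ):ℤ)) ((R1 - 1 : ℕ):ℤ) → e ∈ T :=
    fun e k1 k2 => hT (mem_sdiff.2 ⟨k1, k2⟩)
  have s1 : LRE (-(R2:ℤ)) R2 R1 R2 ⊆ T := by
    rintro ⟨x, y, _ | _⟩ h
    · rw [mem_LRE_false] at h
      apply hT' <;> rw [mem_RE_false] <;> omega
    · rw [mem_LRE_true] at h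
      apply hT' <;> rw [mem_RE_true] <;> omega
  have s2 : LRE (-(R2:ℤ)) R2 (-(R2:ℤ)) (-(R1:ℤ)) ⊆ T := by
    rintro ⟨x, y, _ | _⟩ h
    · rw [mem_LRE_false] at h
      apply hT' <;> rw [mem_RE_false] <;> omega
    · rw [mem_LRE_true] at h
      apply hT' <;> rw [mem_RE_true] <;> omega
  have s3 : TBE (R1:ℤ) R2 (-(R2:ℤ)) R2 ⊆ T := by
    rintro ⟨x, y, _ | _⟩ h
    · rw [mem_TBE_false] at h
      apply hT' <;> rw [mem_RE_false] <;> omega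
    · rw [mem_TBE_true] at h
      apply hT' <;> rw [mem_RE_true] <;> omega
  have s4 : TBE (-(R2:ℤ)) (-(R1:ℤ)) (-(R2:ℤ)) R2 ⊆ T := by
    rintro ⟨x, y, _ | _⟩ h
    · rw [mem_TBE_false] at h
      apply hT' <;> rw [mem_RE_false] <;> omega
    · rw [mem_TBE_true] at h
      apply hT' <;> rw [mem_RE_true] <;> omega
  unfold Circ
  rw [LRc_local (F := F) s1, LRc_local (F := F) s2, TBc_local (F := F) s3,
    TBc_local (F := F) s4]

/-- no circuit at the scales `4 ^ (j + 1)`, `j < k` -/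
def NoC (k : ℕ) (F : Finset Edg) : Prop :=
  ∀ j < k, ¬ Circ ((4 ^ (j + 1) : ℕ):ℤ) ((3 * 4 ^ (j + 1) : ℕ):ℤ) F

theorem noC_local {k : ℕ} {T : Finset Edg} (hT : boxE (4 ^ (k + 1) - 1) ⊆ T) (F : Finset Edg) :
    NoC k F ↔ NoC k (F ∩ T) := by
  unfold NoC
  refine forall₂_congr fun j hj => not_congr ?_
  have h1 : 4 ^ (j + 1) * 4 ≤ 4 ^ (k + 1) := by
    rw [← pow_succ]
    exact Nat.pow_le_pow_right (by norm_num) (by omega)
  have h2 : 1 ≤ 4 ^ (j + 1) := Nat.one_le_pow _ _ (by norm_num)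
  refine circ_loc2 h2 (by omega) ?_ F
  refine (sdiff_subset).trans ((boxE_mono (by omega)).trans hT)

theorem pr_noC {q : ℝ} (hq : 1 / 2 ≤ q) (hq1 : q ≤ 1) (k : ℕ) : ∀ {V : Finset Edg},
    boxE (4 ^ (k + 1) - 1) ⊆ V → PQ q V (NoC k) ≤ (1 - kap) ^ k := by
  have ok : Ok (fun _ : Edg => q) := okq (by linarith) hq1
  induction k with
  | zero =>
    intro V _
    rw [pow_zero]
    exact Pr_le_one ok _ _
  | succ k ih =>
    intro V hV
    have h4 : 4 ^ (k + 1 + 1) = 4 * 4 ^ (k + 1) := by ring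
    have h1 : 1 ≤ 4 ^ (k + 1) := Nat.one_le_pow _ _ (by norm_num)
    have hV1 : boxE (4 ^ (k + 1) - 1) ⊆ V := (boxE_mono (by omega)).trans hV
    have hV2 : boxE (3 * 4 ^ (k + 1)) ⊆ V := (boxE_mono (by omega)).trans hV
    have e : PQ q V (NoC (k + 1)) = PQ q V (fun F => NoC k F ∧
        ¬ Circ ((4 ^ (k + 1) : ℕ):ℤ) ((3 * 4 ^ (k + 1) : ℕ):ℤ) F) := by
      apply Pr_congr
      intro F _
      unfold NoC
      constructor
      · intro h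
        exact ⟨fun j hj => h j (by omega), h k (Nat.lt_succ_self k)⟩
      · rintro ⟨h, h'⟩ j hj
        rcases Nat.lt_succ_iff_lt_or_eq.1 hj with h2 | h2
        · exact h j h2
        · rw [h2]; exact h'
    rw [e]
    have hind : PQ q V (fun F => NoC k F ∧
        ¬ Circ ((4 ^ (k + 1) : ℕ):ℤ) ((3 * 4 ^ (k + 1) : ℕ):ℤ) F) =
        PQ q V (NoC k) *
          PQ q V (fun F => ¬ Circ ((4 ^ (k + 1) : ℕ):ℤ) ((3 * 4 ^ (k + 1) : ℕ):ℤ) F) := by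
      unfold PQ
      refine Pr_indep (S := boxE (4 ^ (k + 1) - 1))
        (T := boxE (3 * 4 ^ (k + 1)) \ boxE (4 ^ (k + 1) - 1)) hV1
        (sdiff_subset.trans hV2) disjoint_sdiff ?_ ?_
      · intro F _
        exact noC_local (Finset.Subset.refl _) F
      · intro F _
        exact not_congr (circ_loc2 h1 (by omega) (Finset.Subset.refl _) F)
    rw [hind, pow_succ]
    have h5 := ih hV1
    have h6 : PQ q V (fun F => ¬ Circ ((4 ^ (k + 1) : ℕ):ℤ) ((3 * 4 ^ (k + 1) : ℕ):ℤ) F) ≤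
        1 - kap := by
      unfold PQ
      rw [Pr_not]
      have := pr_CircP ok (fun _ => hq) (r := 4 ^ (k + 1)) (by omega) hV2
      linarith
    have hk1 : kap ≤ 1 := by
      unfold kap
      exact pow_le_one₀ (by norm_num) (by norm_num)
    exact mul_le_mul h5 h6 (Pr_nonneg ok _ _) (pow_nonneg (by linarith) _)

/-- four arms prevent circuits -/
theorem e4_noC {n k : ℕ} (hk : 3 * 4 ^ k ≤ n) {F : Finset Edg} (h : E4 n F) : NoC k F := by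
  intro j hj hc
  have h4 : 4 ^ (j + 1) ≤ 4 ^ k := Nat.pow_le_pow_right (by norm_num) (by omega)
  have h1 : 4 ≤ 4 ^ (j + 1) := by
    calc 4 = 4 ^ 1 := by norm_num
      _ ≤ 4 ^ (j + 1) := Nat.pow_le_pow_right (by norm_num) (by omega)
  obtain ⟨R, hR⟩ : ∃ R, R = 4 ^ (j + 1) := ⟨_, rfl⟩
  rw [← hR] at hc h4 h1
  have hRn : 3 * R ≤ n := by omega
  -- remove the edge at the origin
  have hc' : Circ (R:ℤ) ((3 * R : ℕ):ℤ) (F.erase eo) := by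
    have k1 := (circ_loc2 (R1 := R) (R2 := 3 * R) (by omega) (by omega)
      (Finset.Subset.refl _) F).1 hc
    refine Circ.mono ?_ k1
    intro e he
    obtain ⟨he1, he2⟩ := mem_inter.1 he
    refine mem_erase.2 ⟨?_, he1⟩
    rintro rfl
    exact (mem_sdiff.1 he2).2 (eo_box (by omega))
  obtain ⟨z, hz⟩ := circ_meet (by positivity) (by exact_mod_cast (by omega : R < 3 * R)) hc'
  obtain ⟨⟨w, hw, hr⟩, ⟨w', hw', hr'⟩, hn⟩ := h
  have hsub : ((↑F : Set Edg) ∩ ↑(RE (-(n:ℤ)) n (-(n:ℤ)) n)) \ {eo} ⊆ (↑(F.erase eo) : Set Edg) := by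
    rintro e ⟨⟨he1, -⟩, he2⟩
    rw [mem_coe, mem_erase]
    exact ⟨he2, he1⟩
  have hreach : ∀ {u w : Vtx}, inR (-(R:ℤ)) R (-(R:ℤ)) R u → w ∈ bdR (-(n:ℤ)) n (-(n:ℤ)) n →
      Reach (((↑F : Set Edg) ∩ ↑(RE (-(n:ℤ)) n (-(n:ℤ)) n)) \ {eo}) u w →
      Reach (((↑F : Set Edg) ∩ ↑(RE (-(n:ℤ)) n (-(n:ℤ)) n)) \ {eo}) u z := by
    intro u w hu hw hr
    have hu3 : inR (-((3 * R : ℕ):ℤ)) ((3 * R : ℕ):ℤ) (-((3 * R : ℕ):ℤ)) ((3 * R : ℕ):ℤ) u := by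
      unfold inR at hu ⊢
      push_cast
      omega
    have hwf : w.1 ≤ -((3 * R : ℕ):ℤ) ∨ ((3 * R : ℕ):ℤ) ≤ w.1 ∨ w.2 ≤ -((3 * R : ℕ):ℤ) ∨
        ((3 * R : ℕ):ℤ) ≤ w.2 := by
      obtain ⟨-, hw2⟩ := hw
      push_cast
      omega
    obtain ⟨x, x1, x2, x3⟩ := first_exit hu3 hr hwf
    have x4 := hz u x hu x2 (x3.mono (Set.inter_subset_inter_left _ hsub))
    refine x4.mono ?_
    rintro e ⟨he1, he2⟩
    rw [mem_coe, mem_erase] at he1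
    refine ⟨⟨he1.2, ?_⟩, he1.1⟩
    have : RE (-((3 * R : ℕ):ℤ)) ((3 * R : ℕ):ℤ) (-((3 * R : ℕ):ℤ)) ((3 * R : ℕ):ℤ) ⊆
        RE (-(n:ℤ)) n (-(n:ℤ)) n := by
      apply RE_subset <;> push_cast <;> omega
    exact mem_coe.2 (this (mem_coe.1 he2))
  have i1 : inR (-(R:ℤ)) R (-(R:ℤ)) R (src eo) := by
    unfold inR eo
    simp only [src_mk]
    omega
  have i2 : inR (-(R:ℤ)) R (-(R:ℤ)) R (tgt eo) := by
    unfold inR eo
    simp only [tgt_true]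
    omega
  exact hn ((hreach i1 hw hr).trans (hreach i2 hw' hr').symm)

theorem e4_arm {n : ℕ} {F : Finset Edg} (h : E4 n F) : Arm n F := by
  obtain ⟨⟨w, hw, hr⟩, -, -⟩ := h
  refine ⟨w, hw, hr.mono ?_⟩
  rintro e ⟨h1, -⟩
  exact h1

/-- Uniform bound. -/
theorem e4_unif : ∀ ε : ℝ, 0 < ε → ∃ n0 : ℕ, 1 ≤ n0 ∧ ∀ n : ℕ, n0 ≤ n → ∀ q : ℝ, 0 ≤ q → q ≤ 1 →
    PQ q (boxE n) (E4 n) ≤ ε := by
  intro ε hε
  obtain ⟨c, C, hc, hC, harm⟩ := Pool.Agent.W424.NC.arm_crit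
  have hk0 : 0 < kap := by unfold kap; positivity
  have hk1 : kap ≤ 1 := by
    unfold kap
    exact pow_le_one₀ (by norm_num) (by norm_num)
  obtain ⟨k, hk⟩ := exists_pow_lt_of_lt_one hε (by linarith : 1 - kap < 1)
  have hlim : Filter.Tendsto (fun n : ℕ => C * (n:ℝ) ^ (-(5 / 48) : ℝ)) Filter.atTop (nhds 0) := by
    have h1 : Filter.Tendsto (fun n : ℕ => (n:ℝ) ^ (-(5 / 48) : ℝ)) Filter.atTop (nhds 0) :=
      (tendsto_rpow_neg_atTop (show (0:ℝ) < 5 / 48 by norm_num)).comp tendsto_natCast_atTop_atTop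
    simpa using h1.const_mul C
  obtain ⟨n1, hn1⟩ := Filter.eventually_atTop.1 (hlim.eventually (gt_mem_nhds hε))
  refine ⟨max (max 1 n1) (4 ^ (k + 1)), by omega, ?_⟩
  intro n hn q h0 h1
  have ok : Ok (fun _ : Edg => q) := okq h0 h1
  have hn' : max 1 n1 ≤ n := (le_max_left _ _).trans hn
  have hn'' : 4 ^ (k + 1) ≤ n := (le_max_right _ _).trans hn
  rcases le_total q (1 / 2) with hq | hq
  · have h2 : PQ q (boxE n) (E4 n) ≤ arm q n := Pr_mono ok (fun F _ hF => e4_arm hF)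
    have h3 := arm_mono_param h0 hq (by norm_num) n
    have h4 := (harm n (by omega)).2
    have h5 := hn1 n (by omega)
    linarith
  · have h4 : 4 ^ (k + 1) = 4 * 4 ^ k := by ring
    have h2 : PQ q (boxE n) (E4 n) ≤ PQ q (boxE n) (NoC k) :=
      Pr_mono ok (fun F _ hF => e4_noC (by omega) hF)
    have h3 := pr_noC hq h1 k (V := boxE n) (boxE_mono (by omega))
    linarith

end Pool.Agent.U167.AL
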